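import Pool.Agent.MP_dd083e_co.Sys

set_option autoImplicit false

/-! The symmetric cycles attached to a functional. -/

namespace Pool.Agent.KS

open MvPolynomial

section

variable {σ : Type} [Fintype σ] [DecidableEq σ] {n : ℕ} {R : Type} [CommRing R]

/-- the determinant (= permanent, in characteristic 2) of the rows `≠ o` and the columns `U` -/
def br (o : σ) (g : σ → Fin n → R) (U : Finset (Fin n)) : R :=
  ∑ τ : {i : σ // i ≠ o} → Fin n,
    if (Function.Injective τ ∧ Finset.univ.image τ = U) then ∏ i, g i.1 (τ i) else 0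

theorem br_row [Algebra (ZMod 2) R] (o : σ) (g : σ → Fin n → R) (U : Finset (Fin n)) (i : σ)
    (hi : i ≠ o) :
    ∑ v ∈ U, br o g (U.erase v) * g i v = 0 := by
  classical
  unfold br
  simp_rw [Finset.sum_mul]
  rw [← Finset.sum_product']
  have hfil : ∑ x ∈ U ×ˢ (Finset.univ : Finset ({i : σ // i ≠ o} → Fin n)),
      (if (Function.Injective x.2 ∧ Finset.univ.image x.2 = U.erase x.1) then
        ∏ j, g j.1 (x.2 j) else 0) * g i x.1 =
      ∑ x ∈ (U ×ˢ (Finset.univ : Finset ({i : σ // i ≠ o} → Fin n))).filter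
        (fun x => Function.Injective x.2 ∧ Finset.univ.image x.2 = U.erase x.1),
        (∏ j, g j.1 (x.2 j)) * g i x.1 := by
    rw [Finset.sum_filter]
    refine Finset.sum_congr rfl fun x _ => ?_
    split_ifs <;> simp
  rw [hfil]
  set i' : {i : σ // i ≠ o} := ⟨i, hi⟩
  refine Finset.sum_involution (fun x _ => (x.2 i', Function.update x.2 i' x.1)) ?_ ?_ ?_ ?_
  · rintro ⟨v, τ⟩ hx
    simp only [Finset.mem_filter, Finset.mem_product, Finset.mem_univ, and_true] at hx
    obtain ⟨hv, hinj, him⟩ := hx
    simp only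
    have e : (∏ j, g j.1 (Function.update τ i' v j)) * g i (τ i') =
        (∏ j, g j.1 (τ j)) * g i v := by
      rw [← Finset.mul_prod_erase Finset.univ _ (Finset.mem_univ i'),
        ← Finset.mul_prod_erase Finset.univ (fun j => g j.1 (τ j)) (Finset.mem_univ i')]
      have e2 : ∏ x ∈ Finset.univ.erase i', g x.1 (Function.update τ i' v x) =
          ∏ x ∈ Finset.univ.erase i', g x.1 (τ x) := by
        refine Finset.prod_congr rfl fun x hx => ?_
        rw [Function.update_of_ne (Finset.ne_of_mem_erase hx)]
      rw [e2, Function.update_self]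
      ring
    rw [e]
    exact add_self_zmod2 _
  · rintro ⟨v, τ⟩ hx _ hcon
    simp only [Finset.mem_filter, Finset.mem_product, Finset.mem_univ, and_true] at hx
    obtain ⟨hv, hinj, him⟩ := hx
    have h1 : τ i' = v := congrArg Prod.fst hcon
    have h2 : τ i' ∈ U.erase v := by
      rw [← him]
      exact Finset.mem_image_of_mem _ (Finset.mem_univ _)
    exact Finset.ne_of_mem_erase h2 h1
  · rintro ⟨v, τ⟩ hx
    simp only [Finset.mem_filter, Finset.mem_product, Finset.mem_univ, and_true] at hx ⊢
    obtain ⟨hv, hinj, him⟩ := hx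
    have h2 : τ i' ∈ U.erase v := by
      rw [← him]
      exact Finset.mem_image_of_mem _ (Finset.mem_univ _)
    have h3 : ∀ j, τ j ∈ U.erase v := by
      intro j
      rw [← him]
      exact Finset.mem_image_of_mem _ (Finset.mem_univ _)
    refine ⟨Finset.mem_of_mem_erase h2, ?_, ?_⟩
    · intro a b hab
      by_cases ha : a = i' <;> by_cases hb : b = i'
      · rw [ha, hb]
      · rw [ha, Function.update_self, Function.update_of_ne hb] at hab
        exact absurd hab.symm (Finset.ne_of_mem_erase (h3 b))
      · rw [hb, Function.update_self, Function.update_of_ne ha] at hab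
        exact absurd hab (Finset.ne_of_mem_erase (h3 a))
      · rw [Function.update_of_ne ha, Function.update_of_ne hb] at hab
        exact hinj hab
    · ext w
      simp only [Finset.mem_image, Finset.mem_univ, true_and, Finset.mem_erase]
      constructor
      · rintro ⟨a, rfl⟩
        by_cases ha : a = i'
        · rw [ha, Function.update_self]
          exact ⟨(Finset.ne_of_mem_erase h2).symm, hv⟩
        · rw [Function.update_of_ne ha]
          refine ⟨fun h => ha (hinj h), Finset.mem_of_mem_erase (h3 a)⟩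
      · rintro ⟨hw1, hw2⟩
        by_cases hwv : w = v
        · exact ⟨i', by rw [hwv, Function.update_self]⟩
        · have : w ∈ Finset.univ.image τ := by
            rw [him]; exact Finset.mem_erase.mpr ⟨hwv, hw2⟩
          obtain ⟨a, _, rfl⟩ := Finset.mem_image.mp this
          refine ⟨a, ?_⟩
          rw [Function.update_of_ne]
          rintro rfl
          exact hw1 rfl
  · rintro ⟨v, τ⟩ hx
    simp only
    rw [Function.update_self, Function.update_idem, Function.update_eq_self]

/-- the Laplace-type relation -/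
theorem laplace [Algebra (ZMod 2) R] (o : σ) (g : σ → Fin n → R) (U : Finset (Fin n)) :
    ∑ v ∈ U, C (br o g (U.erase v)) * lform g v =
      C (∑ v ∈ U, br o g (U.erase v) * g o v) * (X o : MvPolynomial σ R) := by
  unfold lform
  simp_rw [Finset.mul_sum]
  rw [Finset.sum_comm]
  rw [Finset.sum_eq_single o]
  · rw [map_sum, Finset.sum_mul]
    refine Finset.sum_congr rfl fun v _ => ?_
    rw [C_mul]; ring
  · intro i _ hi
    have := br_row o g U i hi
    have e : ∑ v ∈ U, C (br o g (U.erase v)) * (C (g i v) * X i) =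
        C (∑ v ∈ U, br o g (U.erase v) * g i v) * (X i : MvPolynomial σ R) := by
      rw [map_sum, Finset.sum_mul]
      refine Finset.sum_congr rfl fun v _ => ?_
      rw [C_mul]; ring
    rw [e, this]; simp
  · simp

/-- `Λ(A) = λ(ω^(D-|A|) ∏_{v ∈ A} ℓ_v)` -/
noncomputable def Lam (o : σ) (g : σ → Fin n → R) (D : ℕ) (lam : MvPolynomial σ R →ₗ[R] R)
    (A : Finset (Fin n)) : R :=
  if A.card ≤ D then lam (X o ^ (D - A.card) * ∏ v ∈ A, lform g v) else 0

/-- the chain `c_{λ,μ}` -/
noncomputable def cyc (o : σ) (g : σ → Fin n → R) (d D : ℕ) (lam mu : MvPolynomial σ R →ₗ[R] R)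
    (A B : Finset (Fin n)) : R :=
  if Disjoint A B ∧ A.card + B.card = d + 1 then
    br o g (A ∪ B)ᶜ * (Lam o g D lam A * Lam o g D mu B) else 0

theorem cyc_comm (o : σ) (g : σ → Fin n → R) (d D : ℕ) (lam mu : MvPolynomial σ R →ₗ[R] R)
    (A B : Finset (Fin n)) : cyc o g d D lam mu A B = cyc o g d D mu lam B A := by
  unfold cyc
  have h : (Disjoint A B ∧ A.card + B.card = d + 1) ↔ (Disjoint B A ∧ B.card + A.card = d + 1) := by
    rw [disjoint_comm, add_comm]
  by_cases h1 : Disjoint A B ∧ A.card + B.card = d + 1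
  · rw [if_pos h1, if_pos (h.mp h1), Finset.union_comm B A]
    ring
  · rw [if_neg h1, if_neg (fun h2 => h1 (h.mpr h2))]

theorem sum_insert_Lam [Algebra (ZMod 2) R] (o : σ) (g : σ → Fin n → R) (D : ℕ)
    (lam : MvPolynomial σ R →ₗ[R] R) (A U : Finset (Fin n)) (hAU : Disjoint A U) :
    ∑ v ∈ U, br o g (U.erase v) * Lam o g D lam (insert v A) =
      if A.card + 1 ≤ D then (∑ v ∈ U, br o g (U.erase v) * g o v) * Lam o g D lam A else 0 := by
  have hcard : ∀ v ∈ U, (insert v A).card = A.card + 1 := by
    intro v hv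
    exact Finset.card_insert_of_notMem (Finset.disjoint_right.mp hAU hv)
  split_ifs with h
  · have e1 : ∑ v ∈ U, br o g (U.erase v) * Lam o g D lam (insert v A) =
        lam (X o ^ (D - A.card - 1) * (∏ v ∈ A, lform g v) *
          ∑ v ∈ U, C (br o g (U.erase v)) * lform g v) := by
      rw [Finset.mul_sum, map_sum]
      refine Finset.sum_congr rfl fun v hv => ?_
      unfold Lam
      rw [hcard v hv, if_pos h, Finset.prod_insert (Finset.disjoint_right.mp hAU hv)]
      rw [show X o ^ (D - A.card - 1) * (∏ v ∈ A, lform g v) *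
        (C (br o g (U.erase v)) * lform g v) = br o g (U.erase v) •
          (X o ^ (D - (A.card + 1)) * (lform g v * ∏ v ∈ A, lform g v)) by
        rw [smul_eq_C_mul, Nat.sub_sub]; ring]
      rw [map_smul, smul_eq_mul]
    rw [e1, laplace]
    rw [show X o ^ (D - A.card - 1) * (∏ v ∈ A, lform g v) *
      (C (∑ v ∈ U, br o g (U.erase v) * g o v) * X o) =
      (∑ v ∈ U, br o g (U.erase v) * g o v) • (X o ^ (D - A.card) * ∏ v ∈ A, lform g v) by
        rw [smul_eq_C_mul, show D - A.card = D - A.card - 1 + 1 by omega, pow_succ]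
        simp only [Nat.add_sub_cancel]
        ring]
    rw [map_smul, smul_eq_mul]
    unfold Lam
    rw [if_pos (by omega)]
  · refine Finset.sum_eq_zero fun v hv => ?_
    unfold Lam
    rw [hcard v hv, if_neg h, mul_zero]

theorem Lam_eq_zero_of_large (o : σ) (g : σ → Fin n → R) (d D : ℕ) (hD : d < 2 * D)
    (lam : MvPolynomial σ R →ₗ[R] R) (hlam : ∀ h, lam (X o ^ (2 * D - d) * h) = 0)
    (A B : Finset (Fin n)) (hcard : A.card + B.card = d) (hA : D ≤ A.card) :
    Lam o g D lam B = 0 := by
  unfold Lam
  rw [if_pos (by omega)]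
  rw [show D - B.card = (2 * D - d) + (D - B.card - (2 * D - d)) by omega, pow_add, mul_assoc]
  exact hlam _

theorem bdry_cyc [Algebra (ZMod 2) R] (o : σ) (g : σ → Fin n → R) (d D : ℕ) (hD : d < 2 * D)
    (lam mu : MvPolynomial σ R →ₗ[R] R)
    (hlam : ∀ h, lam (X o ^ (2 * D - d) * h) = 0) (hmu : ∀ h, mu (X o ^ (2 * D - d) * h) = 0)
    (A B : Finset (Fin n)) : bdry (cyc o g d D lam mu) A B = 0 := by
  by_cases hAB : Disjoint A B
  · by_cases hcard : A.card + B.card = d
    · have e : bdry (cyc o g d D lam mu) A B =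
          (∑ v ∈ (A ∪ B)ᶜ, br o g (((A ∪ B)ᶜ).erase v) * Lam o g D lam (insert v A)) *
            Lam o g D mu B +
          (∑ v ∈ (A ∪ B)ᶜ, br o g (((A ∪ B)ᶜ).erase v) * Lam o g D mu (insert v B)) *
            Lam o g D lam A := by
        unfold bdry
        rw [Finset.sum_mul, Finset.sum_mul, ← Finset.sum_add_distrib]
        refine Finset.sum_congr rfl fun v hv => ?_
        simp only [Finset.mem_compl, Finset.mem_union, not_or] at hv
        have h1 : (insert v A ∪ B)ᶜ = ((A ∪ B)ᶜ).erase v := by
          ext w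
          simp only [Finset.mem_compl, Finset.mem_union, Finset.mem_insert, Finset.mem_erase]
          tauto
        have h2 : (A ∪ insert v B)ᶜ = ((A ∪ B)ᶜ).erase v := by
          ext w
          simp only [Finset.mem_compl, Finset.mem_union, Finset.mem_insert, Finset.mem_erase]
          tauto
        have h3 : Disjoint (insert v A) B ∧ (insert v A).card + B.card = d + 1 := by
          refine ⟨Finset.disjoint_insert_left.mpr ⟨hv.2, hAB⟩, ?_⟩
          rw [Finset.card_insert_of_notMem hv.1]; omega
        have h4 : Disjoint A (insert v B) ∧ A.card + (insert v B).card = d + 1 := by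
          refine ⟨Finset.disjoint_insert_right.mpr ⟨hv.1, hAB⟩, ?_⟩
          rw [Finset.card_insert_of_notMem hv.2]; omega
        unfold cyc
        rw [if_pos h3, if_pos h4, h1, h2]
        ring
      have hdA : Disjoint A (A ∪ B)ᶜ := by
        rw [Finset.disjoint_left]
        intro x hx
        simp [hx]
      have hdB : Disjoint B (A ∪ B)ᶜ := by
        rw [Finset.disjoint_left]
        intro x hx
        simp [hx]
      rw [e, sum_insert_Lam o g D lam A _ hdA, sum_insert_Lam o g D mu B _ hdB]
      by_cases hA : A.card + 1 ≤ D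
      · by_cases hB : B.card + 1 ≤ D
        · rw [if_pos hA, if_pos hB]
          set K := ∑ v ∈ (A ∪ B)ᶜ, br o g (((A ∪ B)ᶜ).erase v) * g o v
          rw [show K * Lam o g D lam A * Lam o g D mu B + K * Lam o g D mu B * Lam o g D lam A =
            K * Lam o g D lam A * Lam o g D mu B + K * Lam o g D lam A * Lam o g D mu B by ring]
          exact add_self_zmod2 _
        · have h0 : Lam o g D lam A = 0 :=
            Lam_eq_zero_of_large o g d D hD lam hlam B A (by omega) (by omega)
          rw [if_neg hB, h0]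
          split_ifs <;> simp
      · have h0 : Lam o g D mu B = 0 :=
          Lam_eq_zero_of_large o g d D hD mu hmu A B hcard (by omega)
        rw [if_neg hA, h0]
        split_ifs <;> simp
    · unfold bdry
      refine Finset.sum_eq_zero fun v hv => ?_
      simp only [Finset.mem_compl, Finset.mem_union, not_or] at hv
      unfold cyc
      rw [if_neg, if_neg, add_zero]
      · rintro ⟨_, h⟩
        rw [Finset.card_insert_of_notMem hv.2] at h; omega
      · rintro ⟨_, h⟩
        rw [Finset.card_insert_of_notMem hv.1] at h; omega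
  · unfold bdry
    refine Finset.sum_eq_zero fun v hv => ?_
    unfold cyc
    rw [if_neg, if_neg, add_zero]
    · rintro ⟨h, _⟩
      exact hAB (Finset.disjoint_of_subset_right (Finset.subset_insert _ _) h)
    · rintro ⟨h, _⟩
      exact hAB (Finset.disjoint_of_subset_left (Finset.subset_insert _ _) h)

/-- the alternating sum of the chain `c_{λ,μ}` -/
noncomputable def Qf [Algebra (ZMod 2) R] (o : σ) (g : σ → Fin n → R) (d D : ℕ)
    (lam mu : MvPolynomial σ R →ₗ[R] R) : R :=
  ∑ A, ∑ B, altSys A B • cyc o g d D lam mu A B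

theorem Qf_polar [Algebra (ZMod 2) R] (o : σ) (g : σ → Fin n → R) (d D : ℕ) (hD : d < 2 * D)
    (lam mu : MvPolynomial σ R →ₗ[R] R)
    (hlam : ∀ h, lam (X o ^ (2 * D - d) * h) = 0) (hmu : ∀ h, mu (X o ^ (2 * D - d) * h) = 0) :
    Qf o g d D lam mu + Qf o g d D mu lam = 0 := by
  have e1 : Qf o g d D mu lam = ∑ A, ∑ B, altSys B A • cyc o g d D lam mu A B := by
    unfold Qf
    rw [Finset.sum_comm]
    refine Finset.sum_congr rfl fun A _ => Finset.sum_congr rfl fun B _ => ?_
    rw [cyc_comm o g d D lam mu A B]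
  rw [e1]
  unfold Qf
  rw [← Finset.sum_add_distrib]
  have e2 : ∀ A ∈ (Finset.univ : Finset (Finset (Fin n))),
      ∑ B, altSys A B • cyc o g d D lam mu A B + ∑ B, altSys B A • cyc o g d D lam mu A B =
      ∑ B, (∑ v ∈ A, altSys (A.erase v) B + ∑ v ∈ B, altSys A (B.erase v)) •
        cyc o g d D lam mu A B := by
    intro A _
    rw [← Finset.sum_add_distrib]
    refine Finset.sum_congr rfl fun B _ => ?_
    rw [← add_smul]
    by_cases h : Disjoint A B ∧ A.card + B.card = d + 1
    · rw [altSys_rel A B h.1]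
      rw [Finset.nonempty_iff_ne_empty]
      intro hcon
      rw [Finset.union_eq_empty] at hcon
      have := h.2
      rw [hcon.1, hcon.2] at this
      simp at this
    · have : cyc o g d D lam mu A B = 0 := by
        unfold cyc; rw [if_neg h]
      rw [this, smul_zero, smul_zero]
  rw [Finset.sum_congr rfl e2, sum_smul_bdry]
  · refine Finset.sum_eq_zero fun A _ => Finset.sum_eq_zero fun B _ => ?_
    rw [bdry_cyc o g d D hD lam mu hlam hmu, smul_zero]
  · intro A B h
    unfold cyc
    rw [if_neg (fun h' => h h'.1)]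

theorem Qf_self_eq_zero [Algebra (ZMod 2) R] (L : SComplex n) (o : σ) (g : σ → Fin n → R)
    (d D : ℕ) (hL : IndexLT L d) (hD : d < 2 * D) (lam : MvPolynomial σ R →ₗ[R] R)
    (hlam : ∀ h, lam (X o ^ (2 * D - d) * h) = 0)
    (hJ : ∀ A, A ∉ L.faces → ∀ h, lam ((∏ v ∈ A, lform g v) * h) = 0) :
    Qf o g d D lam lam = 0 := by
  have hLam : ∀ A, A ∉ L.faces → Lam o g D lam A = 0 := by
    intro A hA
    unfold Lam
    split_ifs
    · rw [mul_comm]; exact hJ A hA _
    · rfl
  apply alt_sum_eq_zero L hL
  · intro A B h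
    unfold cyc at h
    split_ifs at h with h1
    · refine ⟨?_, ?_, h1.1, h1.2⟩
      · by_contra hA
        rw [hLam A hA] at h; simp at h
      · by_contra hB
        rw [hLam B hB] at h; simp at h
    · exact absurd rfl h
  · intro A B
    exact cyc_comm o g d D lam lam A B
  · intro A B _ _
    exact bdry_cyc o g d D hD lam lam hlam hlam A B

end

end Pool.Agent.KS
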