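import Mathlib

set_option autoImplicit false

/-!
Definitions for MP_dd083e_co (the Kalai-Sarkaria problem).
The vertex set is `Fin n` (the problem's `1,...,n` shifted to `0,...,n-1`), the variables are
`x_0 > x_1 > ... > x_(n-1)`.
-/

universe u

namespace Pool.Agent.KS

/-- A finite abstract simplicial complex with vertices in `Fin n`, given by its set of faces. -/
structure SComplex (n : ℕ) where
  faces : Set (Finset (Fin n))
  down_closed : ∀ A ∈ faces, ∀ B : Finset (Fin n), B ⊆ A → B ∈ faces

/-- The geometric realization: points of the standard simplex whose support is a face. -/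
def SComplex.realization {n : ℕ} (L : SComplex n) : Set (Fin n → ℝ) :=
  {x | (∀ i, 0 ≤ x i) ∧ ∑ i, x i = 1 ∧ Finset.univ.filter (fun i => x i ≠ 0) ∈ L.faces}

/-- `L` is topologically embeddable in the sphere `S^m` (unit sphere of `ℝ^(m+1)`): there is a
topological embedding of the realization in `ℝ^(m+1)` whose image consists of vectors of
norm `1`. -/
def SComplex.EmbedsInSphere {n : ℕ} (L : SComplex n) (m : ℕ) : Prop :=
  ∃ f : L.realization → EuclideanSpace ℝ (Fin (m + 1)),
    Topology.IsEmbedding f ∧ ∀ x, ‖f x‖ = 1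

/-- The boundary complex of the cyclic polytope `C(d,n)`, the convex hull of the points
`(t, t^2, ..., t^d)` with `t = 0, 1, ..., n-1`: a set `A` of vertices is a face iff it lies in a
proper exposed face, i.e. iff some polynomial `p` of degree at most `d` (an affine function on
`ℝ^d` evaluated along the moment curve) is nonnegative at all vertices, not zero at all of them,
and zero on `A`. -/
def cyclicBoundary (d n : ℕ) : SComplex n where
  faces := {A | ∃ p : Polynomial ℝ, p.natDegree ≤ d ∧ (∀ i : Fin n, 0 ≤ p.eval ((i : ℕ) : ℝ)) ∧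
    (∃ i : Fin n, 0 < p.eval ((i : ℕ) : ℝ)) ∧ ∀ i ∈ A, p.eval ((i : ℕ) : ℝ) = 0}
  down_closed := by
    rintro A ⟨p, h1, h2, h3, h4⟩ B hB
    exact ⟨p, h1, h2, h3, fun i hi => h4 i (hB hi)⟩

/-- The Stanley-Reisner ideal of `L` in `k[x_0, ..., x_(n-1)]`. -/
noncomputable def SComplex.stanleyReisner {n : ℕ} (L : SComplex n) (k : Type u) [Field k] :
    Ideal (MvPolynomial (Fin n) k) :=
  Ideal.span {p | ∃ A : Finset (Fin n), A ∉ L.faces ∧ p = ∏ i ∈ A, MvPolynomial.X i}

/-- The linear substitution `x_j ↦ ∑_i g_ij x_i`. -/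
noncomputable def linSubst {n : ℕ} {k : Type u} [Field k] (g : Matrix (Fin n) (Fin n) k) :
    MvPolynomial (Fin n) k →ₐ[k] MvPolynomial (Fin n) k :=
  MvPolynomial.aeval (fun j => ∑ i, MvPolynomial.C (g i j) * MvPolynomial.X i)

/-- `x^a < x^b` in the (degree) reverse lexicographic order with `x_0 > x_1 > ... > x_(n-1)`. -/
def RevLexLT {n : ℕ} (a b : Fin n →₀ ℕ) : Prop :=
  a.degree < b.degree ∨
    (a.degree = b.degree ∧ ∃ i, b i < a i ∧ ∀ j, i < j → a j = b j)

/-- `x^a` is the leading monomial of `f` in the reverse lexicographic order. -/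
def IsLeading {n : ℕ} {k : Type u} [Field k] (f : MvPolynomial (Fin n) k) (a : Fin n →₀ ℕ) :
    Prop :=
  a ∈ f.support ∧ ∀ b ∈ f.support, b ≠ a → RevLexLT b a

/-- Exponents of the monomials in the generic initial ideal `gin(I)`: those `a` such that for
generic `g` (all `g` outside the zero set of some nonzero polynomial in the matrix entries) `x^a`
is the leading monomial of an element of the transformed ideal `g • I`. -/
def ginExps {n : ℕ} {k : Type u} [Field k] (I : Ideal (MvPolynomial (Fin n) k)) :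
    Set (Fin n →₀ ℕ) :=
  {a | ∃ P : MvPolynomial (Fin n × Fin n) k, P ≠ 0 ∧
    ∀ g : Matrix (Fin n) (Fin n) k, MvPolynomial.eval (fun q => g q.1 q.2) P ≠ 0 →
      ∃ f ∈ I.map (linSubst g), IsLeading f a}

/-- Kalai's map `φ`: if `x^a = x_(b_0) x_(b_1) ... x_(b_(k-1))` with `b_0 ≤ b_1 ≤ ...` then
`φ(a) = {b_0, b_1 + 1, ..., b_(k-1) + k - 1}`. -/
noncomputable def phi {n : ℕ} (a : Fin n →₀ ℕ) : Finset ℕ :=
  let l := ((Finsupp.toMultiset a).map (fun i : Fin n => (i : ℕ))).sort (· ≤ ·)
  Finset.image (fun j : Fin l.length => l.get j + (j : ℕ)) Finset.univ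

/-- The symmetric algebraic shifting `L^s` over the field `k`, as a set of subsets of `Fin n`. -/
def symShift {n : ℕ} (k : Type u) [Field k] (L : SComplex n) : Set (Finset (Fin n)) :=
  {F | ∃ a : Fin n →₀ ℕ, a ∉ ginExps (L.stanleyReisner k) ∧
    F.image (fun i : Fin n => (i : ℕ)) = phi a}

/-- The statement of the Kalai-Sarkaria problem (Q1 of MP_dd083e_co). -/
def KalaiSarkaria : Prop :=
  ∀ (k : Type u) [Field k] [CharZero k] (m n : ℕ), m + 2 ≤ n → ∀ L : SComplex n,
    L.EmbedsInSphere m → symShift k L ⊆ symShift k (cyclicBoundary (m + 1) n)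

end Pool.Agent.KS
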