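import Pool.Agent.MP_dd083e_co.Defs

set_option autoImplicit false

/-! Auxiliary notions used in the proof (not in the final statement). -/

universe u

namespace Pool.Agent.KS

/-- A system: mod 2 cochains on the deleted join of `L` (pairs of disjoint faces, empty ones
allowed) with `δ β = β + β ∘ swap`, normalised by `β ∅ ∅ = 1`. -/
structure IsSystem {n : ℕ} (L : SComplex n) (β : Finset (Fin n) → Finset (Fin n) → ZMod 2) :
    Prop where
  empty : β ∅ ∅ = 1
  rel : ∀ A ∈ L.faces, ∀ B ∈ L.faces, Disjoint A B → (A ∪ B).Nonempty →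
    β A B + β B A = ∑ v ∈ A, β (A.erase v) B + ∑ v ∈ B, β A (B.erase v)

/-- There is a system vanishing in dimension `d` (certifies that the `Z/2`-index of the deleted
join of `L` is less than `d`). -/
def IndexLT {n : ℕ} (L : SComplex n) (d : ℕ) : Prop :=
  ∃ β : Finset (Fin n) → Finset (Fin n) → ZMod 2, IsSystem L β ∧
    ∀ A ∈ L.faces, ∀ B ∈ L.faces, Disjoint A B → A.card + B.card = d + 1 → β A B = 0

/-- the weight `2 * (a_0 + ... + a_(n-d-2)) + a_(n-d-1)` -/
def wt (d : ℕ) {n : ℕ} (a : Fin n → ℕ) : ℕ :=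
  ∑ i, a i * (if (i : ℕ) + d + 1 < n then 2 else if (i : ℕ) + d + 1 = n then 1 else 0)

/-- the linear form `ℓ_v = ∑_i g_iv X_i` -/
noncomputable def lform {σ : Type} [Fintype σ] {n : ℕ} {R : Type u} [CommRing R]
    (g : σ → Fin n → R) (v : Fin n) : MvPolynomial σ R :=
  ∑ i, MvPolynomial.C (g i v) * MvPolynomial.X i

/-- the spanning property in degree `D`: the monomials of degree `D` are in the span of the
multiples of the products `∏_{v ∈ A} ℓ_v`, `A ∉ L`, and of the multiples of `X_o^(2D-d)`. -/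
def Spans {n : ℕ} (L : SComplex n) (d D : ℕ) {σ : Type} [Fintype σ] (o : σ)
    (k : Type u) [Field k] (g : σ → Fin n → k) : Prop :=
  ∀ a : σ →₀ ℕ, a.degree = D → MvPolynomial.monomial a (1 : k) ∈ Submodule.span k
    ({p : MvPolynomial σ k | ∃ A : Finset (Fin n), A ∉ L.faces ∧ ∃ b : σ →₀ ℕ,
        A.card + b.degree = D ∧ p = (∏ v ∈ A, lform g v) * MvPolynomial.monomial b 1} ∪
     {p : MvPolynomial σ k | ∃ b : σ →₀ ℕ, (2 * D - d) + b.degree = D ∧
        p = MvPolynomial.X o ^ (2 * D - d) * MvPolynomial.monomial b 1})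

end Pool.Agent.KS
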