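import Pool.Agent.MP_dd083e_co.Ind

set_option autoImplicit false

/-! Extraction of the coefficients (squares) from the quadratic form. -/

namespace Pool.Agent.KS

open MvPolynomial

namespace Extract

theorem double_sum_symm {ι V : Type*} [DecidableEq ι] [AddCommGroup V]
    (s : Finset ι) (f : ι → ι → V) (h : ∀ a ∈ s, ∀ b ∈ s, a ≠ b → f a b + f b a = 0) :
    ∑ a ∈ s, ∑ b ∈ s, f a b = ∑ a ∈ s, f a a := by
  induction s using Finset.induction_on with
  | empty => simp
  | insert x s hx ih =>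
    rw [Finset.sum_insert hx, Finset.sum_insert hx, Finset.sum_insert hx]
    have e1 : ∑ a ∈ s, ∑ b ∈ insert x s, f a b = ∑ a ∈ s, f a x + ∑ a ∈ s, ∑ b ∈ s, f a b := by
      rw [← Finset.sum_add_distrib]
      refine Finset.sum_congr rfl fun a _ => ?_
      rw [Finset.sum_insert hx]
    rw [e1, ih (fun a ha b hb hab => h a (Finset.mem_insert_of_mem ha) b
      (Finset.mem_insert_of_mem hb) hab)]
    have e2 : ∑ b ∈ s, f x b + ∑ a ∈ s, f a x = 0 := by
      rw [← Finset.sum_add_distrib]
      refine Finset.sum_eq_zero fun b hb => ?_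
      exact h x (Finset.mem_insert_self _ _) b (Finset.mem_insert_of_mem hb)
        (fun hcon => hx (hcon ▸ hb))
    calc f x x + ∑ b ∈ s, f x b + (∑ a ∈ s, f a x + ∑ a ∈ s, f a a)
        = f x x + (∑ b ∈ s, f x b + ∑ a ∈ s, f a x) + ∑ a ∈ s, f a a := by abel
      _ = _ := by rw [e2, add_zero]

section bilin

variable {σ : Type} [Fintype σ] [DecidableEq σ] {n : ℕ} {R : Type} [CommRing R]

theorem Lam_sum {ι : Type*} (o : σ) (g : σ → Fin n → R) (D : ℕ) (s : Finset ι) (x : ι → R)
    (e : ι → MvPolynomial σ R →ₗ[R] R) (A : Finset (Fin n)) :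
    Lam o g D (∑ b ∈ s, x b • e b) A = ∑ b ∈ s, x b * Lam o g D (e b) A := by
  unfold Lam
  split_ifs
  · simp [LinearMap.sum_apply]
  · simp

theorem cyc_sum {ι : Type*} (o : σ) (g : σ → Fin n → R) (d D : ℕ) (s : Finset ι) (x : ι → R)
    (e : ι → MvPolynomial σ R →ₗ[R] R) (A B : Finset (Fin n)) :
    cyc o g d D (∑ b ∈ s, x b • e b) (∑ b ∈ s, x b • e b) A B =
      ∑ b ∈ s, ∑ c ∈ s, (x b * x c) * cyc o g d D (e b) (e c) A B := by
  unfold cyc
  by_cases h : Disjoint A B ∧ A.card + B.card = d + 1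
  · simp only [if_pos h]
    rw [Lam_sum, Lam_sum, Finset.sum_mul_sum, Finset.mul_sum]
    refine Finset.sum_congr rfl fun b _ => ?_
    rw [Finset.mul_sum]
    refine Finset.sum_congr rfl fun c _ => ?_
    ring
  · simp only [if_neg h]
    simp

theorem Qf_sum [Algebra (ZMod 2) R] {ι : Type*} (o : σ) (g : σ → Fin n → R) (d D : ℕ)
    (s : Finset ι) (x : ι → R) (e : ι → MvPolynomial σ R →ₗ[R] R) :
    Qf o g d D (∑ b ∈ s, x b • e b) (∑ b ∈ s, x b • e b) =
      ∑ b ∈ s, ∑ c ∈ s, (x b * x c) * Qf o g d D (e b) (e c) := by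
  unfold Qf
  simp_rw [cyc_sum, Finset.smul_sum, Finset.mul_sum]
  have e1 : ∀ A : Finset (Fin n), ∑ B : Finset (Fin n), ∑ b ∈ s, ∑ c ∈ s,
      altSys A B • (x b * x c * cyc o g d D (e b) (e c) A B) =
      ∑ b ∈ s, ∑ c ∈ s, ∑ B : Finset (Fin n),
        x b * x c * altSys A B • cyc o g d D (e b) (e c) A B := by
    intro A
    rw [Finset.sum_comm]
    refine Finset.sum_congr rfl fun b _ => ?_
    rw [Finset.sum_comm]
    refine Finset.sum_congr rfl fun c _ => ?_
    refine Finset.sum_congr rfl fun B _ => ?_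
    rw [mul_smul_comm]
  simp_rw [e1]
  rw [Finset.sum_comm]
  refine Finset.sum_congr rfl fun b _ => ?_
  rw [Finset.sum_comm]

theorem Qf_quadratic [Algebra (ZMod 2) R] {ι : Type*} [DecidableEq ι] (o : σ) (g : σ → Fin n → R)
    (d D : ℕ) (hD : d < 2 * D) (s : Finset ι) (x : ι → R) (e : ι → MvPolynomial σ R →ₗ[R] R)
    (he : ∀ b ∈ s, ∀ h, e b (X o ^ (2 * D - d) * h) = 0) :
    Qf o g d D (∑ b ∈ s, x b • e b) (∑ b ∈ s, x b • e b) =
      ∑ b ∈ s, x b ^ 2 * Qf o g d D (e b) (e b) := by
  rw [Qf_sum, double_sum_symm]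
  · refine Finset.sum_congr rfl fun b _ => ?_
    rw [sq]
  · intro a ha b hb _
    rw [show x b * x a = x a * x b from mul_comm _ _, ← mul_add,
      Qf_polar o g d D hD (e a) (e b) (he a ha) (he b hb), mul_zero]

end bilin

section nat

variable {σ : Type} [Fintype σ] [DecidableEq σ] {n : ℕ} {R R' : Type} [CommRing R] [CommRing R']

theorem map_br (φ : R →+* R') (o : σ) (g : σ → Fin n → R) (U : Finset (Fin n)) :
    φ (br o g U) = br o (fun i v => φ (g i v)) U := by
  unfold br
  rw [map_sum]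
  refine Finset.sum_congr rfl fun τ _ => ?_
  split_ifs
  · rw [map_prod]
  · rw [map_zero]

omit [DecidableEq σ] in
theorem map_Lam (φ : R →+* R') (o : σ) (g : σ → Fin n → R) (D : ℕ) (b : σ →₀ ℕ)
    (A : Finset (Fin n)) :
    φ (Lam o g D (lcoeff R b) A) = Lam o (fun i v => φ (g i v)) D (lcoeff R' b) A := by
  unfold Lam
  split_ifs
  · simp only [lcoeff_apply]
    rw [← coeff_map]
    congr 1
    rw [map_mul, map_pow, map_X, map_prod]
    congr 1
    refine Finset.prod_congr rfl fun v _ => ?_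
    unfold lform
    rw [map_sum]
    refine Finset.sum_congr rfl fun i _ => ?_
    rw [map_mul, map_C, map_X]
  · rw [map_zero]

theorem map_Qf [Algebra (ZMod 2) R] [Algebra (ZMod 2) R'] (φ : R →ₐ[ZMod 2] R') (o : σ)
    (g : σ → Fin n → R) (d D : ℕ) (b c : σ →₀ ℕ) :
    φ (Qf o g d D (lcoeff R b) (lcoeff R c)) =
      Qf o (fun i v => φ (g i v)) d D (lcoeff R' b) (lcoeff R' c) := by
  unfold Qf
  rw [map_sum]
  refine Finset.sum_congr rfl fun A _ => ?_
  rw [map_sum]
  refine Finset.sum_congr rfl fun B _ => ?_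
  rw [map_smul]
  congr 1
  unfold cyc
  split_ifs
  · have h1 := map_br (φ : R →+* R') o g (A ∪ B)ᶜ
    have h2 := map_Lam (φ : R →+* R') o g D b A
    have h3 := map_Lam (φ : R →+* R') o g D c B
    simp only [RingHom.coe_coe] at h1 h2 h3
    rw [map_mul, map_mul, h1, h2, h3]
  · rw [map_zero]

end nat

section ml

variable {σ : Type} [Fintype σ] [DecidableEq σ] {n : ℕ}

/-- polynomials multilinear in the columns `W` -/
noncomputable def ML (σ : Type) (n : ℕ) (W : Finset (Fin n)) :
    Submodule (ZMod 2) (MvPolynomial (σ × Fin n) (ZMod 2)) :=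
  Submodule.span (ZMod 2) {m | ∃ c : Fin n → σ, m = ∏ v ∈ W, X (c v, v)}

omit [Fintype σ] [DecidableEq σ] in
theorem ML_mul {U W : Finset (Fin n)} (hUW : Disjoint U W)
    {f g : MvPolynomial (σ × Fin n) (ZMod 2)} (hf : f ∈ ML σ n U) (hg : g ∈ ML σ n W) :
    f * g ∈ ML σ n (U ∪ W) := by
  classical
  unfold ML at hf hg ⊢
  induction hf using Submodule.span_induction with
  | mem x hx =>
    obtain ⟨c, rfl⟩ := hx
    induction hg using Submodule.span_induction with
    | mem y hy =>
      obtain ⟨c', rfl⟩ := hy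
      apply Submodule.subset_span
      refine ⟨fun v => if v ∈ U then c v else c' v, ?_⟩
      rw [Finset.prod_union hUW]
      congr 1
      · refine Finset.prod_congr rfl fun v hv => ?_
        simp only
        rw [if_pos hv]
      · refine Finset.prod_congr rfl fun v hv => ?_
        simp only
        rw [if_neg (Finset.disjoint_right.mp hUW hv)]
    | zero => rw [mul_zero]; exact Submodule.zero_mem _
    | add y z _ _ hy hz => rw [mul_add]; exact Submodule.add_mem _ hy hz
    | smul a y _ hy => rw [mul_smul_comm]; exact Submodule.smul_mem _ _ hy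
  | zero => rw [zero_mul]; exact Submodule.zero_mem _
  | add y z _ _ hy hz => rw [add_mul]; exact Submodule.add_mem _ hy hz
  | smul a y _ hy => rw [smul_mul_assoc]; exact Submodule.smul_mem _ _ hy

omit [Fintype σ] [DecidableEq σ] in
theorem X_mem_ML (i : σ) (v : Fin n) : (X (i, v) : MvPolynomial (σ × Fin n) (ZMod 2)) ∈ ML σ n {v} := by
  apply Submodule.subset_span
  exact ⟨fun _ => i, by simp⟩

omit [Fintype σ] [DecidableEq σ] in
theorem one_mem_ML (o : σ) : (1 : MvPolynomial (σ × Fin n) (ZMod 2)) ∈ ML σ n ∅ := by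
  apply Submodule.subset_span
  exact ⟨fun _ => o, by simp⟩

theorem br_mem_ML (o : σ) (U : Finset (Fin n)) :
    br o (fun (i : σ) (v : Fin n) => (X (i, v) : MvPolynomial (σ × Fin n) (ZMod 2))) U ∈
      ML σ n U := by
  classical
  unfold br
  refine Submodule.sum_mem _ fun τ _ => ?_
  split_ifs with h
  · obtain ⟨hinj, him⟩ := h
    apply Submodule.subset_span
    refine ⟨fun v => if h : ∃ i, τ i = v then (Classical.choose h).1 else o, ?_⟩
    rw [← him, Finset.prod_image (fun a _ b _ hab => hinj hab)]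
    refine Finset.prod_congr rfl fun i _ => ?_
    have hex : ∃ j, τ j = τ i := ⟨i, rfl⟩
    simp only
    rw [dif_pos hex]
    have := hinj (Classical.choose_spec hex)
    rw [this]
  · exact Submodule.zero_mem _

theorem coeff_mem_ML (o : σ) (b : σ →₀ ℕ) (A : Finset (Fin n)) (s : σ →₀ ℕ) :
    coeff b (monomial s 1 * ∏ v ∈ A, lform
      (fun (i : σ) (v : Fin n) => (X (i, v) : MvPolynomial (σ × Fin n) (ZMod 2))) v) ∈
      ML σ n A := by
  classical
  induction A using Finset.induction_on generalizing s with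
  | empty =>
    rw [Finset.prod_empty, mul_one, coeff_monomial]
    split_ifs
    · exact one_mem_ML o
    · exact Submodule.zero_mem _
  | insert v A hv ih =>
    rw [Finset.prod_insert hv]
    have e : (monomial s 1 * (lform
        (fun (i : σ) (v : Fin n) => (X (i, v) : MvPolynomial (σ × Fin n) (ZMod 2))) v *
        ∏ v ∈ A, lform
          (fun (i : σ) (v : Fin n) => (X (i, v) : MvPolynomial (σ × Fin n) (ZMod 2))) v)) =
        ∑ i, C (X (i, v)) * (monomial (s + Finsupp.single i 1) 1 * ∏ v ∈ A, lform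
          (fun (i : σ) (v : Fin n) => (X (i, v) : MvPolynomial (σ × Fin n) (ZMod 2))) v) := by
      conv_lhs => rw [lform, Finset.sum_mul, Finset.mul_sum]
      refine Finset.sum_congr rfl fun i _ => ?_
      rw [show (monomial (s + Finsupp.single i 1) (1 : MvPolynomial (σ × Fin n) (ZMod 2))) =
        monomial s 1 * X i by rw [X, monomial_mul, one_mul]]
      ring
    rw [e, coeff_sum]
    refine Submodule.sum_mem _ fun i _ => ?_
    rw [coeff_C_mul, show insert v A = {v} ∪ A from rfl]
    exact ML_mul (Finset.disjoint_singleton_left.mpr hv) (X_mem_ML i v) (ih _)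

theorem Qf_mem_ML (o : σ) (d D : ℕ) (b c : σ →₀ ℕ) :
    Qf o (fun (i : σ) (v : Fin n) => (X (i, v) : MvPolynomial (σ × Fin n) (ZMod 2))) d D
      (lcoeff _ b) (lcoeff _ c) ∈ ML σ n Finset.univ := by
  classical
  unfold Qf
  refine Submodule.sum_mem _ fun A _ => Submodule.sum_mem _ fun B _ => Submodule.smul_mem _ _ ?_
  unfold cyc
  have hLam : ∀ (b : σ →₀ ℕ) (A : Finset (Fin n)), Lam o
      (fun (i : σ) (v : Fin n) => (X (i, v) : MvPolynomial (σ × Fin n) (ZMod 2))) D (lcoeff _ b) A ∈
      ML σ n A := by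
    intro b A
    unfold Lam
    split_ifs
    · simp only [lcoeff_apply]
      have := coeff_mem_ML o b A (Finsupp.single o (D - A.card))
      rw [X_pow_eq_monomial]
      exact this
    · exact Submodule.zero_mem _
  split_ifs with h
  · have h1 := ML_mul h.1 (hLam b A) (hLam c B)
    have h2 : Disjoint (A ∪ B)ᶜ (A ∪ B) := disjoint_compl_left
    have h3 := ML_mul h2 (br_mem_ML o (A ∪ B)ᶜ) h1
    rwa [show (A ∪ B)ᶜ ∪ (A ∪ B) = Finset.univ by
      rw [Finset.union_comm]; exact Finset.union_compl _] at h3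
  · exact Submodule.zero_mem _

end ml

section deriv

variable {σ : Type} [Fintype σ] [DecidableEq σ] {n : ℕ}

/-- iterated partial derivatives with respect to `X (χ v, v)`, `v ∈ l` -/
noncomputable def dl (χ : Fin n → σ) :
    List (Fin n) → MvPolynomial (σ × Fin n) (ZMod 2) → MvPolynomial (σ × Fin n) (ZMod 2)
  | [], f => f
  | v :: l, f => pderiv (χ v, v) (dl χ l f)

omit [Fintype σ] [DecidableEq σ] in
theorem dl_add (χ : Fin n → σ) (l : List (Fin n)) (f g : MvPolynomial (σ × Fin n) (ZMod 2)) :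
    dl χ l (f + g) = dl χ l f + dl χ l g := by
  induction l with
  | nil => rfl
  | cons v l ih => simp only [dl, ih, map_add]

omit [Fintype σ] [DecidableEq σ] in
theorem dl_smul (χ : Fin n → σ) (l : List (Fin n)) (a : ZMod 2)
    (f : MvPolynomial (σ × Fin n) (ZMod 2)) :
    dl χ l (a • f) = a • dl χ l f := by
  induction l with
  | nil => rfl
  | cons v l ih =>
    simp only [dl, ih]
    exact (pderiv (χ v, v)).map_smul a _

omit [Fintype σ] [DecidableEq σ] in
theorem dl_zero (χ : Fin n → σ) (l : List (Fin n)) :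
    dl χ l (0 : MvPolynomial (σ × Fin n) (ZMod 2)) = 0 := by
  have := dl_smul χ l 0 0
  simpa using this

omit [Fintype σ] [DecidableEq σ] in
theorem dl_sum {ι : Type*} (χ : Fin n → σ) (l : List (Fin n)) (s : Finset ι)
    (f : ι → MvPolynomial (σ × Fin n) (ZMod 2)) :
    dl χ l (∑ i ∈ s, f i) = ∑ i ∈ s, dl χ l (f i) := by
  classical
  induction s using Finset.induction_on with
  | empty => simp [dl_zero]
  | insert a s ha ih => rw [Finset.sum_insert ha, Finset.sum_insert ha, dl_add, ih]

omit [Fintype σ] [DecidableEq σ] in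
theorem dl_sq_mul (χ : Fin n → σ) (l : List (Fin n)) (x f : MvPolynomial (σ × Fin n) (ZMod 2)) :
    dl χ l (x ^ 2 * f) = x ^ 2 * dl χ l f := by
  induction l with
  | nil => rfl
  | cons v l ih =>
    simp only [dl, ih]
    rw [Derivation.leibniz, Derivation.leibniz_pow]
    have h2 : (2 : MvPolynomial (σ × Fin n) (ZMod 2)) = 0 := by
      have : ((2 : ℕ) : MvPolynomial (σ × Fin n) (ZMod 2)) = C ((2 : ℕ) : ZMod 2) := by
        rw [map_natCast]
      have h3 : ((2 : ℕ) : ZMod 2) = 0 := by decide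
      rw [h3, C_0] at this
      exact_mod_cast this
    have h4 : (2 : ℕ) • x ^ (2 - 1) • (pderiv (χ v, v)) x = 0 := by
      rw [nsmul_eq_mul]
      have : ((2 : ℕ) : MvPolynomial (σ × Fin n) (ZMod 2)) = 0 := by exact_mod_cast h2
      rw [this, zero_mul]
    rw [h4]
    simp [smul_eq_mul]

omit [Fintype σ] in
theorem dl_X_mul (χ : Fin n → σ) (l : List (Fin n)) (i : σ) (v : Fin n) (hv : v ∉ l)
    (f : MvPolynomial (σ × Fin n) (ZMod 2)) :
    dl χ l (X (i, v) * f) = X (i, v) * dl χ l f := by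
  induction l with
  | nil => rfl
  | cons w l ih =>
    have hvw : v ≠ w := fun h => hv (h ▸ List.mem_cons_self)
    have hvl : v ∉ l := fun h => hv (List.mem_cons_of_mem _ h)
    simp only [dl, ih hvl]
    rw [Derivation.leibniz, pderiv_X]
    have : (Pi.single (χ w, w) 1 : σ × Fin n → MvPolynomial (σ × Fin n) (ZMod 2)) (i, v) = 0 := by
      rw [Pi.single_apply, if_neg]
      intro h
      exact hvw (congrArg Prod.snd h)
    rw [this]
    simp [smul_eq_mul]

omit [Fintype σ] in
theorem dl_prod (χ c : Fin n → σ) (l : List (Fin n)) (hl : l.Nodup) :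
    dl χ l ((l.map (fun v => (X (c v, v) : MvPolynomial (σ × Fin n) (ZMod 2)))).prod) =
      (l.map (fun v => if χ v = c v then (1 : MvPolynomial (σ × Fin n) (ZMod 2)) else 0)).prod := by
  induction l with
  | nil => rfl
  | cons v l ih =>
    rw [List.nodup_cons] at hl
    simp only [dl, List.map_cons, List.prod_cons]
    rw [dl_X_mul χ l (c v) v hl.1, ih hl.2, Derivation.leibniz, pderiv_X]
    have e1 : ∀ l : List (Fin n), pderiv (χ v, v)
        ((l.map (fun v => if χ v = c v then (1 : MvPolynomial (σ × Fin n) (ZMod 2)) else 0)).prod) = 0 := by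
      intro l
      induction l with
      | nil => simp
      | cons w l ih2 =>
        rw [List.map_cons, List.prod_cons, Derivation.leibniz, ih2]
        split_ifs <;> simp
    rw [e1]
    by_cases h : χ v = c v
    · rw [if_pos h, h]
      simp [smul_eq_mul]
    · rw [if_neg h, Pi.single_apply, if_neg (fun h' => h (congrArg Prod.fst h').symm)]
      simp [smul_eq_mul]

theorem dl_ML (χ : Fin n → σ) (f : MvPolynomial (σ × Fin n) (ZMod 2))
    (hf : f ∈ ML σ n Finset.univ) :
    dl χ (List.finRange n) f = C (aeval (fun q : σ × Fin n => ind χ q.1 q.2) f) := by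
  classical
  unfold ML at hf
  induction hf using Submodule.span_induction with
  | mem x hx =>
    obtain ⟨c, rfl⟩ := hx
    have e1 : ∏ v, (X (c v, v) : MvPolynomial (σ × Fin n) (ZMod 2)) =
        ((List.finRange n).map (fun v => (X (c v, v) : MvPolynomial (σ × Fin n) (ZMod 2)))).prod := by
      rw [Fin.prod_univ_def]
    rw [show (aeval (fun q : σ × Fin n => ind χ q.1 q.2)
        (∏ v, (X (c v, v) : MvPolynomial (σ × Fin n) (ZMod 2)))) =
        ∏ v, ind χ (c v) v by rw [map_prod]; simp only [aeval_X]]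
    rw [e1, dl_prod χ c _ (List.nodup_finRange n), map_prod]
    rw [← Fin.prod_univ_def]
    refine Finset.prod_congr rfl fun v _ => ?_
    unfold ind
    split_ifs <;> simp
  | zero => simp [dl_zero]
  | add y z _ _ hy hz => rw [dl_add, hy, hz, map_add, C_add]
  | smul a y _ hy => rw [dl_smul, hy, map_smul, smul_eq_mul, C_mul, smul_eq_C_mul]

end deriv

end Extract

open Extract in
theorem extraction {σ : Type} [Fintype σ] [DecidableEq σ] {n d D : ℕ} (o : σ)
    (hD : d < 2 * D)
    (lam : MvPolynomial σ (MvPolynomial (σ × Fin n) (ZMod 2)) →ₗ[MvPolynomial (σ × Fin n) (ZMod 2)]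
      MvPolynomial (σ × Fin n) (ZMod 2))
    (hhom : ∀ b : σ →₀ ℕ, b.degree ≠ D → lam (monomial b 1) = 0)
    (hom : ∀ h, lam (X o ^ (2 * D - d) * h) = 0)
    (hQ : Qf o (fun i v => X (i, v)) d D lam lam = 0)
    (χ : Fin n → σ) (a : σ →₀ ℕ) (ha : a.degree = D)
    (h1 : Qf o (ind χ) d D (lcoeff (ZMod 2) a) (lcoeff (ZMod 2) a) = 1)
    (h0 : ∀ b : σ →₀ ℕ, b.degree = D → b ≠ a →
      Qf o (ind χ) d D (lcoeff (ZMod 2) b) (lcoeff (ZMod 2) b) = 0) :
    lam (monomial a 1) = 0 := by
  classical
  by_cases hao : a o < 2 * D - d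
  swap
  · have e : (monomial a (1 : MvPolynomial (σ × Fin n) (ZMod 2))) =
        X o ^ (2 * D - d) * monomial (a - Finsupp.single o (2 * D - d)) 1 := by
      rw [X_pow_eq_monomial, monomial_mul, one_mul, add_tsub_cancel_of_le]
      rw [Finsupp.single_le_iff]
      omega
    rw [e]
    exact hom _
  set s : Finset (σ →₀ ℕ) :=
    ((Finset.univ : Finset σ).finsuppAntidiag D).filter (fun b => b o < 2 * D - d) with hs
  have hmem : ∀ b : σ →₀ ℕ, b ∈ s ↔ b.degree = D ∧ b o < 2 * D - d := by
    intro b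
    rw [hs, Finset.mem_filter, Finset.mem_finsuppAntidiag]
    rw [Finsupp.degree_eq_sum]
    simp
  have hlam : lam = ∑ b ∈ s, lam (monomial b 1) • lcoeff _ b := by
    apply (MvPolynomial.basisMonomials σ (MvPolynomial (σ × Fin n) (ZMod 2))).ext
    intro t
    rw [coe_basisMonomials]
    simp only [LinearMap.sum_apply, LinearMap.smul_apply, lcoeff_apply,
      coeff_monomial, smul_eq_mul]
    by_cases ht : t ∈ s
    · rw [Finset.sum_eq_single t]
      · simp
      · intro b _ hb
        rw [if_neg (Ne.symm hb), mul_zero]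
      · intro h; exact absurd ht h
    · rw [Finset.sum_eq_zero]
      · rw [hmem] at ht
        by_cases htD : t.degree = D
        · have hto : ¬ t o < 2 * D - d := fun h => ht ⟨htD, h⟩
          have e : (monomial t (1 : MvPolynomial (σ × Fin n) (ZMod 2))) =
              X o ^ (2 * D - d) * monomial (t - Finsupp.single o (2 * D - d)) 1 := by
            rw [X_pow_eq_monomial, monomial_mul, one_mul, add_tsub_cancel_of_le]
            rw [Finsupp.single_le_iff]
            omega
          rw [e]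
          exact hom _
        · exact hhom t htD
      · intro b hb
        rw [if_neg, mul_zero]
        rintro rfl
        exact ht hb
  have hkill : ∀ b ∈ s, ∀ h : MvPolynomial σ (MvPolynomial (σ × Fin n) (ZMod 2)),
      lcoeff (MvPolynomial (σ × Fin n) (ZMod 2)) b (X o ^ (2 * D - d) * h) = 0 := by
    intro b hb h
    rw [hmem] at hb
    rw [lcoeff_apply, X_pow_eq_monomial, coeff_monomial_mul', if_neg]
    rw [Finsupp.single_le_iff]
    omega
  rw [hlam, Qf_quadratic o _ d D hD s _ _ hkill] at hQ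
  have h2 := congrArg (dl χ (List.finRange n)) hQ
  rw [dl_sum, dl_zero] at h2
  rw [Finset.sum_eq_single a] at h2
  · rw [dl_sq_mul, dl_ML χ _ (Qf_mem_ML o d D a a)] at h2
    have h3 := map_Qf (aeval (fun q : σ × Fin n => ind χ q.1 q.2) :
      MvPolynomial (σ × Fin n) (ZMod 2) →ₐ[ZMod 2] ZMod 2) o (fun i v => X (i, v)) d D a a
    rw [h3] at h2
    have e4 : (fun (i : σ) (v : Fin n) => (aeval (fun q : σ × Fin n => ind χ q.1 q.2) :
        MvPolynomial (σ × Fin n) (ZMod 2) →ₐ[ZMod 2] ZMod 2) (X (i, v))) = ind χ := by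
      funext i v
      rw [aeval_X]
    rw [e4, h1, C_1, mul_one] at h2
    exact pow_eq_zero_iff (two_ne_zero) |>.mp h2
  · intro b hb hba
    rw [dl_sq_mul, dl_ML χ _ (Qf_mem_ML o d D b b)]
    have h3 := map_Qf (aeval (fun q : σ × Fin n => ind χ q.1 q.2) :
      MvPolynomial (σ × Fin n) (ZMod 2) →ₐ[ZMod 2] ZMod 2) o (fun i v => X (i, v)) d D b b
    rw [h3]
    have e4 : (fun (i : σ) (v : Fin n) => (aeval (fun q : σ × Fin n => ind χ q.1 q.2) :
        MvPolynomial (σ × Fin n) (ZMod 2) →ₐ[ZMod 2] ZMod 2) (X (i, v))) = ind χ := by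
      funext i v
      rw [aeval_X]
    rw [e4, h0 b ((hmem b).mp hb).1 hba, C_0, mul_zero]
  · intro h
    exact absurd ((hmem a).mpr ⟨ha, hao⟩) h

end Pool.Agent.KS
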