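import Mathlib

set_option autoImplicit false

/-! P4a of MP_dd083e_co: a monotone coloring with prescribed class sizes. -/

namespace Pool.Agent.KS

namespace P4a

/-- monotone coloring for a linearly ordered set of colors -/
lemma mono_of_linearOrder {σ : Type} [Fintype σ] [LinearOrder σ] (n : ℕ) (cnt : σ → ℕ)
    (h : ∑ i, cnt i = n) :
    ∃ χ : Fin n → σ, Monotone χ ∧
      ∀ i, (Finset.univ.filter (fun v => χ v = i)).card = cnt i := by
  classical
  let T := Σₗ i : σ, Fin (cnt i)
  have hcard : Fintype.card T = n := by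
    have : Fintype.card T = Fintype.card (Σ i : σ, Fin (cnt i)) :=
      Fintype.card_congr (ofLex : T ≃ Σ i : σ, Fin (cnt i))
    rw [this, Fintype.card_sigma]
    simpa using h
  let e : Fin n ≃o T := Fintype.orderIsoFinOfCardEq T hcard
  refine ⟨fun v => (ofLex (e v)).1, ?_, ?_⟩
  · intro v w hvw
    have h1 : e v ≤ e w := e.monotone hvw
    rw [Sigma.Lex.le_def] at h1
    rcases h1 with h1 | ⟨h1, -⟩
    · exact le_of_lt h1
    · exact le_of_eq h1
  · intro i
    have h2 : (Finset.univ.filter (fun v => (ofLex (e v)).1 = i)).card =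
        (Finset.univ.filter (fun t : (Σ i : σ, Fin (cnt i)) => t.1 = i)).card := by
      refine Finset.card_bij' (fun v _ => ofLex (e v)) (fun t _ => e.symm (toLex t)) ?_ ?_ ?_ ?_
      · intro v hv
        simpa using hv
      · intro t ht
        simpa using ht
      · intro v hv
        simp
      · intro t ht
        simp
    rw [h2]
    have h3 : (Finset.univ.filter (fun t : (Σ i : σ, Fin (cnt i)) => t.1 = i)) =
        (Finset.univ : Finset (Fin (cnt i))).map (Function.Embedding.sigmaMk i) := by
      ext ⟨a, b⟩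
      simp only [Finset.mem_filter, Finset.mem_univ, true_and, Finset.mem_map,
        Function.Embedding.sigmaMk_apply]
      constructor
      · rintro rfl
        exact ⟨b, rfl⟩
      · rintro ⟨j, hj⟩
        exact (congrArg Sigma.fst hj).symm
    rw [h3, Finset.card_map]
    simp

end P4a

/-- a monotone coloring with prescribed class sizes, `o` first -/
theorem exists_mono {σ : Type} [Fintype σ] [DecidableEq σ] (o : σ) (n : ℕ) (cnt : σ → ℕ)
    (h : ∑ i, cnt i = n) :
    ∃ (χ : Fin n → σ) (ρ : σ → ℕ), Function.Injective ρ ∧ (∀ i, ρ o ≤ ρ i) ∧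
      (∀ v w : Fin n, v ≤ w → ρ (χ v) ≤ ρ (χ w)) ∧
      ∀ i, (Finset.univ.filter (fun v => χ v = i)).card = cnt i := by
  let e := Fintype.equivFin σ
  let ρ : σ → ℕ := fun i => if i = o then 0 else (e i : ℕ) + 1
  have hρ : Function.Injective ρ := by
    intro a b hab
    by_cases h1 : a = o <;> by_cases h2 : b = o
    · rw [h1, h2]
    · simp [ρ, h1, h2] at hab
    · simp [ρ, h1, h2] at hab
    · simp only [ρ, if_neg h1, if_neg h2] at hab
      exact e.injective (Fin.ext (by omega))
  let inst : LinearOrder σ := LinearOrder.lift' ρ hρ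
  obtain ⟨χ, h1, h2⟩ := P4a.mono_of_linearOrder n cnt h
  refine ⟨χ, ρ, hρ, ?_, ?_, ?_⟩
  · intro i
    simp [ρ]
  · intro v w hvw
    exact h1 hvw
  · intro i
    convert h2 i

end Pool.Agent.KS
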