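import Pool.Agent.MP_dd083e_co.Ind

set_option autoImplicit false

/-! The quadratic form evaluated at a monotone coloring (P4b). -/

namespace Pool.Agent.KS

open MvPolynomial

namespace P4b

/-! ### ranks in finite subsets of a linear order -/

lemma card_filter_rank {α : Type*} [LinearOrder α] (Q : ℕ → Prop) [DecidablePred Q]
    (C : Finset α) :
    (C.filter (fun w => Q ((C.filter (fun u => u < w)).card))).card
      = ((Finset.range C.card).filter Q).card := by
  induction C using Finset.induction_on_max with
  | empty => simp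
  | insert t C hmax ih =>
    have ht : t ∉ C := fun h => lt_irrefl t (hmax t h)
    have h1 : ∀ w ∈ C, (insert t C).filter (fun u => u < w) = C.filter (fun u => u < w) := by
      intro w hw
      rw [Finset.filter_insert, if_neg (not_lt.mpr (hmax w hw).le)]
    have h2 : (insert t C).filter (fun u => u < t) = C := by
      rw [Finset.filter_insert, if_neg (lt_irrefl t)]
      exact Finset.filter_true_of_mem hmax
    rw [Finset.filter_insert, h2, Finset.card_insert_of_notMem ht, Finset.range_add_one,
      Finset.filter_insert]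
    have h3 : C.filter (fun w => Q (((insert t C).filter (fun u => u < w)).card))
        = C.filter (fun w => Q ((C.filter (fun u => u < w)).card)) := by
      apply Finset.filter_congr
      intro w hw
      rw [h1 w hw]
    rw [h3]
    split_ifs with h
    · rw [Finset.card_insert_of_notMem, Finset.card_insert_of_notMem, ih]
      · simp
      · simp [ht]
    · exact ih

lemma card_even_range (p m : ℕ) :
    ((Finset.range (2 * m)).filter (fun j => Even (p + j))).card = m := by
  induction m with
  | zero => simp
  | succ m ih =>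
    rw [show 2 * (m + 1) = (2 * m + 1) + 1 by ring, Finset.range_add_one, Finset.range_add_one,
      Finset.filter_insert, Finset.filter_insert]
    by_cases h : Even (p + 2 * m)
    · have h' : ¬ Even (p + (2 * m + 1)) := by
        rw [← add_assoc, Nat.even_add_one]
        exact not_not.mpr h
      rw [if_neg h', if_pos h, Finset.card_insert_of_notMem (by simp), ih]
    · have h' : Even (p + (2 * m + 1)) := by
        rw [← add_assoc, Nat.even_add_one]
        exact h
      rw [if_pos h', if_neg h, Finset.card_insert_of_notMem (by simp), ih]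

lemma card_even_rank {α : Type*} [LinearOrder α] (p m : ℕ) (C : Finset α)
    (hC : C.card = 2 * m) :
    (C.filter (fun w => Even (p + (C.filter (fun u => u < w)).card))).card = m := by
  rw [card_filter_rank (fun j => Even (p + j)) C, hC, card_even_range]

section

variable {σ : Type} [Fintype σ] [DecidableEq σ] {n d D : ℕ}

lemma lform_ind (χ : Fin n → σ) (v : Fin n) :
    lform (ind χ) v = (X (χ v) : MvPolynomial σ (ZMod 2)) := by
  unfold lform ind
  rw [Finset.sum_eq_single (χ v)]
  · simp
  · intro i _ hi
    rw [if_neg (fun h => hi h.symm)]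
    simp
  · simp

omit [Fintype σ] [DecidableEq σ] in
lemma prod_X (χ : Fin n → σ) (A : Finset (Fin n)) (m : ℕ) (o : σ) :
    (X o ^ m * ∏ v ∈ A, X (χ v) : MvPolynomial σ (ZMod 2))
      = monomial (Finsupp.single o m + ∑ v ∈ A, Finsupp.single (χ v) 1) 1 := by
  have h1 : (∏ v ∈ A, X (χ v) : MvPolynomial σ (ZMod 2))
      = monomial (∑ v ∈ A, Finsupp.single (χ v) 1) 1 := by
    rw [monomial_sum_one]
    rfl
  rw [h1, X_pow_eq_monomial, monomial_mul, one_mul]

lemma card_eq_sum (χ : Fin n → σ) (A : Finset (Fin n)) :
    A.card = ∑ i, (A.filter (fun v => χ v = i)).card :=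
  Finset.card_eq_sum_card_fiberwise (f := χ) (t := Finset.univ) (fun x _ => by simp)

omit [Fintype σ] in
lemma single_sum_apply (χ : Fin n → σ) (A : Finset (Fin n)) (i : σ) :
    (∑ v ∈ A, Finsupp.single (χ v) 1 : σ →₀ ℕ) i = (A.filter (fun v => χ v = i)).card := by
  rw [Finsupp.finsetSum_apply, Finset.card_filter]
  apply Finset.sum_congr rfl
  intro v _
  rw [Finsupp.single_apply]

lemma Lam_ind_eq_one (o : σ) (a : σ →₀ ℕ) (ha : a.degree = D) (χ : Fin n → σ)
    (A : Finset (Fin n)) (hA : ∀ i, i ≠ o → (A.filter (fun v => χ v = i)).card = a i)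
    (hAo : (A.filter (fun v => χ v = o)).card ≤ a o) :
    Lam o (ind χ) D (lcoeff (ZMod 2) a) A = 1 := by
  have hcard : A.card = (A.filter (fun v => χ v = o)).card + ∑ i ∈ Finset.univ.erase o, a i := by
    rw [card_eq_sum χ A, ← Finset.add_sum_erase _ _ (Finset.mem_univ o)]
    congr 1
    apply Finset.sum_congr rfl
    intro i hi
    exact hA i (Finset.ne_of_mem_erase hi)
  have hD : D = a o + ∑ i ∈ Finset.univ.erase o, a i := by
    rw [← ha, Finsupp.degree_eq_sum, ← Finset.add_sum_erase _ _ (Finset.mem_univ o)]
  unfold Lam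
  rw [if_pos (by omega)]
  simp only [lform_ind]
  rw [prod_X, lcoeff_apply, coeff_monomial, if_pos]
  ext i
  rw [Finsupp.add_apply, single_sum_apply]
  by_cases hi : i = o
  · subst hi
    rw [Finsupp.single_eq_same]
    omega
  · rw [Finsupp.single_eq_of_ne hi, zero_add, hA i hi]

/-- the elements of even rank -/
def evs (S : Finset (Fin n)) : Finset (Fin n) :=
  S.filter (fun w => Even ((S.filter (fun u => u < w)).card))

/-- the elements of odd rank -/
def ods (S : Finset (Fin n)) : Finset (Fin n) :=
  S.filter (fun w => ¬ Even ((S.filter (fun u => u < w)).card))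

lemma evs_disjoint_ods (S : Finset (Fin n)) : Disjoint (evs S) (ods S) :=
  Finset.disjoint_filter_filter_not S S _

lemma evs_union_ods (S : Finset (Fin n)) : evs S ∪ ods S = S :=
  Finset.filter_union_filter_not_eq _ S

lemma altSys_evs_ods (S : Finset (Fin n)) : altSys (evs S) (ods S) = 1 := by
  unfold altSys
  rw [evs_union_ods]
  unfold alt
  apply bit_true
  intro w hw
  show (w ∈ evs S ↔ Even ((S.filter (fun u => u < w)).card))
  unfold evs
  rw [Finset.mem_filter]
  exact ⟨fun h => h.2, fun h => ⟨hw, h⟩⟩

lemma eq_evs_of_altSys {A B : Finset (Fin n)} (hAB : Disjoint A B) (h : altSys A B ≠ 0) :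
    A = evs (A ∪ B) ∧ B = ods (A ∪ B) := by
  have h1 : ∀ w ∈ A ∪ B, (w ∈ A ↔ Even (((A ∪ B).filter (fun u => u < w)).card)) := by
    by_contra hcon
    apply h
    unfold altSys alt
    apply bit_false
    intro hc
    apply hcon
    intro w hw
    exact hc w hw
  have hA : A = evs (A ∪ B) := by
    ext w
    unfold evs
    rw [Finset.mem_filter]
    constructor
    · intro hw
      have hw' := Finset.mem_union_left B hw
      exact ⟨hw', (h1 w hw').mp hw⟩
    · rintro ⟨hw, he⟩
      exact (h1 w hw).mpr he
  refine ⟨hA, ?_⟩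
  ext w
  unfold ods
  rw [Finset.mem_filter]
  constructor
  · intro hw
    have hw' := Finset.mem_union_right A hw
    refine ⟨hw', fun he => ?_⟩
    exact Finset.disjoint_right.mp hAB hw ((h1 w hw').mpr he)
  · rintro ⟨hw, he⟩
    rcases Finset.mem_union.mp hw with h2 | h2
    · exact absurd ((h1 w hw).mp h2) he
    · exact h2

omit [Fintype σ] in
/-- in a monotone coloring the alternating splitting is even on classes of even size -/
lemma split_class (χ : Fin n → σ) (ρ : σ → ℕ) (hρ : Function.Injective ρ)
    (hmono : ∀ v w : Fin n, v ≤ w → ρ (χ v) ≤ ρ (χ w)) (S : Finset (Fin n)) (i : σ) (m : ℕ)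
    (hS : (S.filter (fun v => χ v = i)).card = 2 * m) :
    ((evs S).filter (fun v => χ v = i)).card = m ∧
      ((ods S).filter (fun v => χ v = i)).card = m := by
  set C := S.filter (fun v => χ v = i) with hC
  set p := (S.filter (fun v => ρ (χ v) < ρ i)).card with hp
  have hrank : ∀ w ∈ C, (S.filter (fun u => u < w)).card
      = p + (C.filter (fun u => u < w)).card := by
    intro w hw
    rw [hC, Finset.mem_filter] at hw
    have h1 : S.filter (fun u => u < w)
        = S.filter (fun v => ρ (χ v) < ρ i) ∪ C.filter (fun u => u < w) := by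
      ext u
      simp only [Finset.mem_filter, Finset.mem_union, hC]
      constructor
      · rintro ⟨hu, huw⟩
        have h2 := hmono u w huw.le
        rw [hw.2] at h2
        rcases h2.lt_or_eq with h3 | h3
        · exact Or.inl ⟨hu, h3⟩
        · exact Or.inr ⟨⟨hu, hρ h3⟩, huw⟩
      · rintro (⟨hu, h3⟩ | ⟨⟨hu, _⟩, huw⟩)
        · refine ⟨hu, ?_⟩
          by_contra hcon
          have h2 := hmono w u (not_lt.mp hcon)
          rw [hw.2] at h2
          omega
        · exact ⟨hu, huw⟩
    rw [h1, Finset.card_union_of_disjoint]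
    rw [Finset.disjoint_left]
    intro u hu hu'
    simp only [Finset.mem_filter, hC] at hu hu'
    rw [hu'.1.2] at hu
    exact absurd hu.2 (lt_irrefl _)
  have h1 : (evs S).filter (fun v => χ v = i)
      = C.filter (fun w => Even (p + (C.filter (fun u => u < w)).card)) := by
    unfold evs
    rw [Finset.filter_filter]
    ext w
    simp only [Finset.mem_filter]
    constructor
    · rintro ⟨hw, he, hi⟩
      have hwC : w ∈ C := by rw [hC, Finset.mem_filter]; exact ⟨hw, hi⟩
      refine ⟨hwC, ?_⟩
      rw [← hrank w hwC]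
      exact he
    · rintro ⟨hwC, he⟩
      rw [← hrank w hwC] at he
      rw [hC, Finset.mem_filter] at hwC
      exact ⟨hwC.1, he, hwC.2⟩
  have e1 : ((evs S).filter (fun v => χ v = i)).card = m := by
    rw [h1]
    exact card_even_rank p m C hS
  refine ⟨e1, ?_⟩
  have h2 : ((evs S).filter (fun v => χ v = i)).card + ((ods S).filter (fun v => χ v = i)).card
      = C.card := by
    rw [← Finset.card_union_of_disjoint, ← Finset.filter_union, evs_union_ods]
    exact Finset.disjoint_filter_filter (evs_disjoint_ods S)
  omega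

end

end P4b

open P4b in
theorem Qf_ind_self {σ : Type} [Fintype σ] [DecidableEq σ] {n d D : ℕ} (o : σ)
    (hσ : Fintype.card σ + d = n) (hD : d < 2 * D) (a : σ →₀ ℕ) (ha : a.degree = D)
    (hao : a o + 1 = 2 * D - d) (χ : Fin n → σ) (ρ : σ → ℕ) (hρ : Function.Injective ρ)
    (hρo : ∀ i, ρ o ≤ ρ i) (hmono : ∀ v w : Fin n, v ≤ w → ρ (χ v) ≤ ρ (χ w))
    (hco : (Finset.univ.filter (fun v => χ v = o)).card = a o)
    (hc : ∀ i, i ≠ o → (Finset.univ.filter (fun v => χ v = i)).card = 2 * a i + 1) :
    Qf o (ind χ) d D (lcoeff (ZMod 2) a) (lcoeff (ZMod 2) a) = 1 := by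
  classical
  set W : ({i : σ // i ≠ o} → Fin n) → Finset (Fin n) → Finset (Fin n) → ZMod 2 :=
    fun τ A B => if ((Disjoint A B ∧ A.card + B.card = d + 1) ∧ (Function.Injective τ ∧
      Finset.univ.image τ = (A ∪ B)ᶜ)) then
      altSys A B * (Lam o (ind χ) D (lcoeff (ZMod 2) a) A *
        Lam o (ind χ) D (lcoeff (ZMod 2) a) B) else 0 with hW
  have h1 : Qf o (ind χ) d D (lcoeff (ZMod 2) a) (lcoeff (ZMod 2) a)
      = ∑ A, ∑ B, ∑ τ : {i : σ // i ≠ o} → Fin n, (∏ i, ind χ i.1 (τ i)) * W τ A B := by
    unfold Qf
    refine Finset.sum_congr rfl fun A _ => Finset.sum_congr rfl fun B _ => ?_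
    unfold cyc
    by_cases hAB : Disjoint A B ∧ A.card + B.card = d + 1
    · rw [if_pos hAB]
      unfold br
      rw [Finset.sum_mul, Finset.smul_sum]
      refine Finset.sum_congr rfl fun τ _ => ?_
      rw [hW]
      simp only
      by_cases hτ : Function.Injective τ ∧ Finset.univ.image τ = (A ∪ B)ᶜ
      · rw [if_pos hτ, if_pos ⟨hAB, hτ⟩, smul_eq_mul]
        ring
      · rw [if_neg hτ, if_neg (fun h => hτ h.2)]
        simp
    · rw [if_neg hAB, smul_zero]
      symm
      apply Finset.sum_eq_zero
      intro τ _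
      rw [hW]
      simp only
      rw [if_neg (fun h => hAB h.1), mul_zero]
  have h2 : Qf o (ind χ) d D (lcoeff (ZMod 2) a) (lcoeff (ZMod 2) a)
      = ∑ τ : {i : σ // i ≠ o} → Fin n, (∏ i, ind χ i.1 (τ i)) * ∑ A, ∑ B, W τ A B := by
    rw [h1]
    have : ∀ A : Finset (Fin n), ∑ B, ∑ τ : {i : σ // i ≠ o} → Fin n,
        (∏ i, ind χ i.1 (τ i)) * W τ A B
        = ∑ τ : {i : σ // i ≠ o} → Fin n, ∑ B, (∏ i, ind χ i.1 (τ i)) * W τ A B := by
      intro A
      rw [Finset.sum_comm]
    rw [Finset.sum_congr rfl (fun A _ => this A), Finset.sum_comm]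
    refine Finset.sum_congr rfl fun τ _ => ?_
    rw [Finset.mul_sum]
    refine Finset.sum_congr rfl fun A _ => ?_
    rw [Finset.mul_sum]
  -- the inner sums
  have h3 : ∀ τ : {i : σ // i ≠ o} → Fin n, (∏ i, ind χ i.1 (τ i)) ≠ 0 →
      ∑ A, ∑ B, W τ A B = 1 := by
    intro τ hτ
    have hcol : ∀ i, χ (τ i) = i.1 := by
      intro i
      by_contra hcon
      apply hτ
      apply Finset.prod_eq_zero (Finset.mem_univ i)
      unfold ind
      rw [if_neg hcon]
    have hinj : Function.Injective τ := by
      intro i j hij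
      apply Subtype.ext
      rw [← hcol i, ← hcol j, hij]
    set U := Finset.univ.image τ with hU
    set S := Uᶜ with hS
    have hUcard : U.card + 1 = Fintype.card σ := by
      rw [hU, Finset.card_image_of_injective _ hinj, Finset.card_univ,
        Fintype.card_subtype_compl, Fintype.card_subtype_eq]
      have : 0 < Fintype.card σ := Fintype.card_pos_iff.mpr ⟨o⟩
      omega
    have hScard : S.card = d + 1 := by
      rw [hS, Finset.card_compl, Fintype.card_fin]
      omega
    have hUo : U.filter (fun v => χ v = o) = ∅ := by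
      apply Finset.filter_eq_empty_iff.mpr
      intro v hv hvo
      rw [hU, Finset.mem_image] at hv
      obtain ⟨i, _, rfl⟩ := hv
      rw [hcol i] at hvo
      exact i.2 hvo
    have hUi : ∀ i, i ≠ o → (U.filter (fun v => χ v = i)).card = 1 := by
      intro i hi
      rw [Finset.card_eq_one]
      refine ⟨τ ⟨i, hi⟩, ?_⟩
      ext v
      rw [Finset.mem_filter, Finset.mem_singleton, hU, Finset.mem_image]
      constructor
      · rintro ⟨⟨j, _, rfl⟩, hj⟩
        rw [hcol j] at hj
        congr 1
        exact Subtype.ext hj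
      · rintro rfl
        exact ⟨⟨⟨i, hi⟩, Finset.mem_univ _, rfl⟩, hcol _⟩
    have hsplit : ∀ i, (S.filter (fun v => χ v = i)).card + (U.filter (fun v => χ v = i)).card
        = (Finset.univ.filter (fun v => χ v = i)).card := by
      intro i
      rw [← Finset.card_union_of_disjoint, ← Finset.filter_union, hS, Finset.union_comm,
        Finset.union_compl]
      apply Finset.disjoint_filter_filter
      rw [hS]
      exact disjoint_compl_left
    have hSi : ∀ i, i ≠ o → (S.filter (fun v => χ v = i)).card = 2 * a i := by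
      intro i hi
      have e1 := hsplit i
      rw [hUi i hi, hc i hi] at e1
      omega
    have hSo : (S.filter (fun v => χ v = o)).card = a o := by
      have e1 := hsplit o
      rw [hUo, hco] at e1
      simpa using e1
    have hLamE : Lam o (ind χ) D (lcoeff (ZMod 2) a) (evs S) = 1 := by
      apply Lam_ind_eq_one o a ha χ
      · intro i hi
        exact (split_class χ ρ hρ hmono S i (a i) (hSi i hi)).1
      · rw [← hSo]
        exact Finset.card_le_card (Finset.filter_subset_filter _ (Finset.filter_subset _ _))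
    have hLamO : Lam o (ind χ) D (lcoeff (ZMod 2) a) (ods S) = 1 := by
      apply Lam_ind_eq_one o a ha χ
      · intro i hi
        exact (split_class χ ρ hρ hmono S i (a i) (hSi i hi)).2
      · rw [← hSo]
        exact Finset.card_le_card (Finset.filter_subset_filter _ (Finset.filter_subset _ _))
    have hval : W τ (evs S) (ods S) = 1 := by
      rw [hW]
      simp only
      rw [if_pos, altSys_evs_ods, hLamE, hLamO]
      · norm_num
      · refine ⟨⟨evs_disjoint_ods S, ?_⟩, hinj, ?_⟩
        · rw [← Finset.card_union_of_disjoint (evs_disjoint_ods S), evs_union_ods, hScard]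
        · rw [evs_union_ods, hS, compl_compl]
    have hzero : ∀ A B, (A ≠ evs S ∨ B ≠ ods S) → W τ A B = 0 := by
      intro A B hne
      rw [hW]
      simp only
      split_ifs with hcond
      · obtain ⟨⟨hAB, _⟩, _, himg⟩ := hcond
        have hunion : A ∪ B = S := by
          rw [hS, hU, himg, compl_compl]
        have : altSys A B = 0 := by
          by_contra hcon
          obtain ⟨e1, e2⟩ := eq_evs_of_altSys hAB hcon
          rw [hunion] at e1 e2
          rcases hne with h | h
          · exact h e1
          · exact h e2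
        rw [this, zero_mul]
      · rfl
    rw [Finset.sum_eq_single (evs S), Finset.sum_eq_single (ods S), hval]
    · intro B _ hB
      exact hzero _ _ (Or.inr hB)
    · intro h
      exact absurd (Finset.mem_univ _) h
    · intro A _ hA
      apply Finset.sum_eq_zero
      intro B _
      exact hzero _ _ (Or.inl hA)
    · intro h
      exact absurd (Finset.mem_univ _) h
  have h4 : Qf o (ind χ) d D (lcoeff (ZMod 2) a) (lcoeff (ZMod 2) a)
      = ∑ τ : {i : σ // i ≠ o} → Fin n, ∏ i, ind χ i.1 (τ i) := by
    rw [h2]
    refine Finset.sum_congr rfl fun τ _ => ?_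
    by_cases h : (∏ i, ind χ i.1 (τ i)) = 0
    · rw [h, zero_mul]
    · rw [h3 τ h, mul_one]
  rw [h4]
  have h5 : ∑ τ : {i : σ // i ≠ o} → Fin n, ∏ i, ind χ i.1 (τ i)
      = ∏ i : {i : σ // i ≠ o}, ∑ v : Fin n, ind χ i.1 v := by
    rw [Finset.prod_univ_sum]
    simp
  rw [h5]
  apply Finset.prod_eq_one
  intro i _
  unfold ind
  rw [Finset.sum_boole, hc i.1 i.2]
  push_cast
  have : (2 : ZMod 2) = 0 := rfl
  rw [this, zero_mul, zero_add]

end Pool.Agent.KS
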