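import Pool.Agent.MP_dd083e_co.Ind

set_option autoImplicit false

/-! The diagonal terms of the other exponents vanish at the coloring of `a`. -/

namespace Pool.Agent.KS

open MvPolynomial

namespace P4c

section

variable {σ : Type} [Fintype σ] [DecidableEq σ] {n : ℕ}

theorem lform_ind (χ : Fin n → σ) (v : Fin n) :
    lform (ind χ) v = (X (χ v) : MvPolynomial σ (ZMod 2)) := by
  unfold lform ind
  rw [Finset.sum_eq_single (χ v)]
  · simp
  · intro i _ hi
    rw [if_neg (fun h => hi h.symm), C_0, zero_mul]
  · intro h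
    exact absurd (Finset.mem_univ _) h

theorem prod_monomial (χ : Fin n → σ) (o : σ) (m : ℕ) (A : Finset (Fin n)) :
    (X o ^ m * ∏ v ∈ A, lform (ind χ) v : MvPolynomial σ (ZMod 2)) =
      monomial (Finsupp.single o m + ∑ v ∈ A, Finsupp.single (χ v) 1) 1 := by
  classical
  rw [show (1 : ZMod 2) = 1 * 1 by ring, ← monomial_mul]
  congr 1
  · exact X_pow_eq_monomial
  · induction A using Finset.induction_on with
    | empty => simp
    | insert v A hv ih =>
      rw [Finset.prod_insert hv, Finset.sum_insert hv, ih, lform_ind,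
        show (1 : ZMod 2) = 1 * 1 by ring, ← monomial_mul, one_mul]
      rfl

theorem sum_single_apply (χ : Fin n → σ) (A : Finset (Fin n)) (i : σ) :
    (∑ v ∈ A, Finsupp.single (χ v) 1 : σ →₀ ℕ) i = (A.filter (fun v => χ v = i)).card := by
  rw [Finsupp.finset_sum_apply, Finset.card_filter]
  refine Finset.sum_congr rfl fun v _ => ?_
  rw [Finsupp.single_apply]

theorem count_of_Lam_ne_zero (o : σ) (χ : Fin n → σ) (D : ℕ) (b : σ →₀ ℕ) (A : Finset (Fin n))
    (h : Lam o (ind χ) D (lcoeff (ZMod 2) b) A ≠ 0) (i : σ) (hi : i ≠ o) :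
    (A.filter (fun v => χ v = i)).card = b i := by
  classical
  unfold Lam at h
  split_ifs at h with hA
  · rw [prod_monomial, lcoeff_apply, coeff_monomial] at h
    split_ifs at h with hb
    · rw [← hb, Finsupp.add_apply, sum_single_apply, Finsupp.single_apply, if_neg hi.symm,
        zero_add]
    · exact absurd rfl h
  · exact absurd rfl h

theorem count_of_br_ne_zero (o : σ) (χ : Fin n → σ) (U : Finset (Fin n))
    (h : br o (ind χ) U ≠ 0) (i : σ) (hi : i ≠ o) :
    (U.filter (fun v => χ v = i)).card = 1 := by
  classical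
  unfold br at h
  obtain ⟨τ, _, hτ⟩ := Finset.exists_ne_zero_of_sum_ne_zero h
  split_ifs at hτ with h1
  · obtain ⟨hinj, him⟩ := h1
    have hχ : ∀ j : {i : σ // i ≠ o}, χ (τ j) = j.1 := by
      intro j
      have h2 := Finset.prod_ne_zero_iff.mp hτ j (Finset.mem_univ _)
      unfold ind at h2
      by_contra hcon
      rw [if_neg hcon] at h2
      exact h2 rfl
    rw [Finset.card_eq_one]
    refine ⟨τ ⟨i, hi⟩, ?_⟩
    ext v
    rw [Finset.mem_filter, Finset.mem_singleton, ← him, Finset.mem_image]
    constructor
    · rintro ⟨⟨j, _, rfl⟩, h3⟩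
      rw [hχ j] at h3
      congr 1
      exact Subtype.ext h3
    · rintro rfl
      exact ⟨⟨_, Finset.mem_univ _, rfl⟩, hχ _⟩
  · exact absurd rfl hτ

end

end P4c

open P4c in
theorem Qf_ind_other {σ : Type} [Fintype σ] [DecidableEq σ] {n d D : ℕ} (o : σ)
    (a b : σ →₀ ℕ) (ha : a.degree = D) (hb : b.degree = D) (hab : b ≠ a) (χ : Fin n → σ)
    (hc : ∀ i, i ≠ o → (Finset.univ.filter (fun v => χ v = i)).card = 2 * a i + 1) :
    Qf o (ind χ) d D (lcoeff (ZMod 2) b) (lcoeff (ZMod 2) b) = 0 := by
  classical
  unfold Qf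
  refine Finset.sum_eq_zero fun A _ => Finset.sum_eq_zero fun B _ => ?_
  by_contra hne
  have hcyc : cyc o (ind χ) d D (lcoeff (ZMod 2) b) (lcoeff (ZMod 2) b) A B ≠ 0 := by
    intro h0
    rw [h0, smul_zero] at hne
    exact hne rfl
  unfold cyc at hcyc
  split_ifs at hcyc with hAB
  · have hbr := left_ne_zero_of_mul hcyc
    have hLam := right_ne_zero_of_mul hcyc
    have hLA := left_ne_zero_of_mul hLam
    have hLB := right_ne_zero_of_mul hLam
    have hi : ∀ i, i ≠ o → b i = a i := by
      intro i hi
      have h1 := count_of_Lam_ne_zero o χ D b A hLA i hi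
      have h2 := count_of_Lam_ne_zero o χ D b B hLB i hi
      have h3 := count_of_br_ne_zero o χ (A ∪ B)ᶜ hbr i hi
      have h4 := hc i hi
      have h5 : (Finset.univ.filter (fun v => χ v = i)).card =
          (A.filter (fun v => χ v = i)).card + (B.filter (fun v => χ v = i)).card +
            ((A ∪ B)ᶜ.filter (fun v => χ v = i)).card := by
        rw [← Finset.card_union_of_disjoint, ← Finset.card_union_of_disjoint]
        · congr 1
          ext v
          simp only [Finset.mem_filter, Finset.mem_univ, true_and, Finset.mem_union,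
            Finset.mem_compl]
          tauto
        · rw [Finset.disjoint_left]
          intro v hv
          simp only [Finset.mem_filter, Finset.mem_union, Finset.mem_compl] at hv ⊢
          tauto
        · exact Finset.disjoint_filter_filter hAB.1
      omega
    apply hab
    have hdeg : b.degree = a.degree := by rw [ha, hb]
    ext i
    by_cases hio : i = o
    · subst hio
      rw [Finsupp.degree_eq_sum, Finsupp.degree_eq_sum,
        ← Finset.add_sum_erase Finset.univ _ (Finset.mem_univ i),
        ← Finset.add_sum_erase Finset.univ (fun j => a j) (Finset.mem_univ i)] at hdeg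
      have : ∑ x ∈ Finset.univ.erase i, b x = ∑ x ∈ Finset.univ.erase i, a x :=
        Finset.sum_congr rfl fun x hx => hi x (Finset.ne_of_mem_erase hx)
      omega
    · exact hi i hio
  · exact hcyc rfl

end Pool.Agent.KS
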