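import Pool.Agent.MP_dd083e_co.Section4
import Pool.Agent.MP_dd083e_co.Extract
import Pool.Agent.MP_dd083e_co.P4a
import Pool.Agent.MP_dd083e_co.P4b
import Pool.Agent.MP_dd083e_co.P4c

set_option autoImplicit false

/-! The statement (E) of the proof, from the four lemmas. -/

universe u

namespace Pool.Agent.KS

open MvPolynomial Section4 Transfer

namespace EStep

section

variable {n : ℕ} {σ : Type} [Fintype σ] [DecidableEq σ]

/-- the degree `D` part of a functional -/
noncomputable def hpart (D : ℕ) (lam : MvPolynomial σ (Rg σ n) →ₗ[Rg σ n] Rg σ n) :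
    MvPolynomial σ (Rg σ n) →ₗ[Rg σ n] Rg σ n :=
  lam ∘ₗ homogeneousComponent D

omit [Fintype σ] [DecidableEq σ] in
theorem hpart_of_homog (D m : ℕ) (lam : MvPolynomial σ (Rg σ n) →ₗ[Rg σ n] Rg σ n)
    (p : MvPolynomial σ (Rg σ n)) (hp : p.IsHomogeneous m) :
    hpart D lam p = if m = D then lam p else 0 := by
  unfold hpart
  rw [LinearMap.comp_apply, homogeneousComponent_of_mem ((mem_homogeneousSubmodule m p).mpr hp)]
  by_cases h : m = D
  · rw [if_pos h, if_pos h.symm]
  · rw [if_neg h, if_neg (Ne.symm h), map_zero]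

omit [Fintype σ] [DecidableEq σ] in
theorem hpart_monomial (D : ℕ) (lam : MvPolynomial σ (Rg σ n) →ₗ[Rg σ n] Rg σ n)
    (b : σ →₀ ℕ) : hpart D lam (monomial b 1) = if b.degree = D then lam (monomial b 1) else 0 :=
  hpart_of_homog D b.degree lam _ (isHomogeneous_monomial 1 rfl)

omit [Fintype σ] [DecidableEq σ] in
/-- a functional killing the degree `D` multiples of a homogeneous `f` -/
theorem hpart_mul (D m : ℕ) (lam : MvPolynomial σ (Rg σ n) →ₗ[Rg σ n] Rg σ n)
    (f : MvPolynomial σ (Rg σ n)) (hf : f.IsHomogeneous m)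
    (h : ∀ b : σ →₀ ℕ, m + b.degree = D → lam (f * monomial b 1) = 0)
    (p : MvPolynomial σ (Rg σ n)) : hpart D lam (f * p) = 0 := by
  induction p using MvPolynomial.induction_on' with
  | monomial u c =>
    have e : f * monomial u c = c • (f * monomial u 1) := by
      rw [← mul_smul_comm, smul_monomial, smul_eq_mul, mul_one]
    rw [e, map_smul, hpart_of_homog D (m + u.degree) lam _
      (hf.mul (isHomogeneous_monomial 1 rfl))]
    split_ifs with h1
    · rw [h u h1, smul_zero]
    · rw [smul_zero]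
  | add p q hp hq => rw [mul_add, map_add, hp, hq, add_zero]

omit [DecidableEq σ] in
theorem lform_homog (v : Fin n) : (lform (gmat σ n) v).IsHomogeneous 1 := by
  unfold lform
  apply IsHomogeneous.sum
  intro i _
  rw [show (1 : ℕ) = 0 + 1 from rfl]
  exact (isHomogeneous_C _ _).mul (isHomogeneous_X _ _)

omit [DecidableEq σ] in
theorem prod_homog (A : Finset (Fin n)) :
    (∏ v ∈ A, lform (gmat σ n) v).IsHomogeneous A.card := by
  have := IsHomogeneous.prod A (fun v => lform (gmat σ n) v) (fun _ => 1)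
    (fun v _ => lform_homog v)
  simpa using this

end

end EStep

open EStep in
theorem E_holds {n d : ℕ} (L : SComplex n) (hL : IndexLT L d) {σ : Type} [Fintype σ]
    [DecidableEq σ] (o : σ) (hσ : Fintype.card σ + d = n) :
    ∀ D, d < 2 * D → ∀ lam : MvPolynomial σ (Rg σ n) →ₗ[Rg σ n] Rg σ n,
      KillsJ L D lam → KillsO o (2 * D - d) D lam → KillsO o (2 * D - d - 1) D lam := by
  intro D hD lam hJ hO
  rw [killsO_iff]
  intro a ha hao
  by_cases h1 : 2 * D - d ≤ a o
  · rw [killsO_iff] at hO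
    exact hO a ha h1
  have hao' : a o + 1 = 2 * D - d := by omega
  have hom : ∀ h, hpart D lam (X o ^ (2 * D - d) * h) = 0 := by
    intro h
    exact hpart_mul D (2 * D - d) lam _ (isHomogeneous_X_pow o _) hO h
  have hJ' : ∀ A, A ∉ L.faces → ∀ h, hpart D lam ((∏ v ∈ A, lform (gmat σ n) v) * h) = 0 := by
    intro A hA h
    exact hpart_mul D A.card lam _ (prod_homog A) (hJ A hA) h
  have hQ := Qf_self_eq_zero L o (gmat σ n) d D hL hD (hpart D lam) hom hJ'
  have hcnt : ∑ i, (if i = o then a o else 2 * a i + 1) = n := by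
    have e1 : a.degree = ∑ i, a i := by rw [Finsupp.degree_eq_sum]
    rw [← Finset.add_sum_erase Finset.univ _ (Finset.mem_univ o), if_pos rfl]
    rw [ha, ← Finset.add_sum_erase Finset.univ _ (Finset.mem_univ o)] at e1
    have e2 : ∑ x ∈ Finset.univ.erase o, (if x = o then a o else 2 * a x + 1) =
        ∑ x ∈ Finset.univ.erase o, (2 * a x + 1) := by
      refine Finset.sum_congr rfl fun x hx => ?_
      rw [if_neg (Finset.ne_of_mem_erase hx)]
    rw [e2, Finset.sum_add_distrib, ← Finset.mul_sum]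
    have e3 : ∑ _x ∈ Finset.univ.erase o, 1 = Fintype.card σ - 1 := by
      rw [Finset.sum_const, smul_eq_mul, mul_one, Finset.card_erase_of_mem (Finset.mem_univ o),
        Finset.card_univ]
    have e4 : 0 < Fintype.card σ := Fintype.card_pos_iff.mpr ⟨o⟩
    rw [e3]
    omega
  obtain ⟨χ, ρ, hρ, hρo, hmono, hc⟩ := exists_mono o n _ hcnt
  have hco : (Finset.univ.filter (fun v => χ v = o)).card = a o := by rw [hc o, if_pos rfl]
  have hc' : ∀ i, i ≠ o → (Finset.univ.filter (fun v => χ v = i)).card = 2 * a i + 1 := by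
    intro i hi
    rw [hc i, if_neg hi]
  have key := extraction (n := n) (d := d) (D := D) o hD (hpart D lam) (fun b hb => by
    rw [hpart_monomial, if_neg hb]) hom hQ χ a ha
    (Qf_ind_self o hσ hD a ha hao' χ ρ hρ hρo hmono hco hc')
    (fun b hb hba => Qf_ind_other o a b ha hb hba χ hc')
  rwa [hpart_monomial, if_pos ha] at key

theorem generic_spans {n d : ℕ} (L : SComplex n) (hL : IndexLT L d) {σ : Type} [Fintype σ]
    [DecidableEq σ] (o : σ) (hσ : Fintype.card σ + d = n) (D : ℕ) (hD : d < 2 * D) :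
    ∃ Δ : MvPolynomial (σ × Fin n) ℤ, Δ ≠ 0 ∧ ∀ (k : Type u) [Field k] (g : σ → Fin n → k),
      aeval (fun q : σ × Fin n => g q.1 q.2) Δ ≠ 0 → Spans L d D o k g :=
  spans_of_E L o (E_holds L hL o hσ) D hD

end Pool.Agent.KS
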