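import Mathlib

set_option autoImplicit false

/-! Fan's lemma (mod 2) for alternating labels. -/

namespace Pool.Agent.KS

open Classical in
/-- the indicator of a proposition, in `ZMod 2` -/
noncomputable def bit (p : Prop) : ZMod 2 := if p then 1 else 0

theorem bit_true {p : Prop} (h : p) : bit p = 1 := by simp [bit, h]
theorem bit_false {p : Prop} (h : ¬ p) : bit p = 0 := by simp [bit, h]
theorem bit_congr {p q : Prop} (h : p ↔ q) : bit p = bit q := by
  rw [show p = q from propext h]
theorem bit_not (p : Prop) : bit (¬ p) = 1 + bit p := by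
  by_cases h : p <;> simp [bit, h] ; decide
theorem bit_and (p q : Prop) : bit (p ∧ q) = bit p * bit q := by
  by_cases h : p <;> by_cases h' : q <;> simp [bit, h, h']

/-- `1` if the signs alternate along `P` ordered by `idx`, starting with `sg` true. -/
noncomputable def alt {E ι : Type*} [LinearOrder ι] (idx : E → ι) (sg : E → Prop)
    (P : Finset E) : ZMod 2 :=
  bit (∀ w ∈ P, (sg w ↔ Even ((P.filter (fun u => idx u < idx w)).card)))

theorem alt_empty {E ι : Type*} [LinearOrder ι] (idx : E → ι) (sg : E → Prop) :
    alt idx sg ∅ = 1 := by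
  simp [alt, bit]

open Classical in
theorem alt_max {E ι : Type*} [LinearOrder ι] (idx : E → ι) (sg : E → Prop)
    (P : Finset E) (t : E) (ht : t ∈ P) (hmax : ∀ u ∈ P, u ≠ t → idx u < idx t) :
    alt idx sg P = alt idx sg (P.erase t) * bit (sg t ↔ Even (P.card - 1)) := by
  have hfilt : ∀ w ∈ P.erase t, (P.filter (fun u => idx u < idx w)) =
      ((P.erase t).filter (fun u => idx u < idx w)) := by
    intro w hw
    ext u
    simp only [Finset.mem_filter, Finset.mem_erase]
    constructor
    · rintro ⟨h1, h2⟩
      refine ⟨⟨?_, h1⟩, h2⟩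
      rintro rfl
      have := hmax w (Finset.mem_of_mem_erase hw) (Finset.ne_of_mem_erase hw)
      exact absurd (lt_trans h2 this) (lt_irrefl _)
    · rintro ⟨⟨_, h1⟩, h2⟩
      exact ⟨h1, h2⟩
  have hcard : (P.filter (fun u => idx u < idx t)).card = P.card - 1 := by
    have : P.filter (fun u => idx u < idx t) = P.erase t := by
      ext u
      simp only [Finset.mem_filter, Finset.mem_erase]
      constructor
      · rintro ⟨h1, h2⟩
        exact ⟨by rintro rfl; exact absurd h2 (lt_irrefl _), h1⟩
      · rintro ⟨h1, h2⟩
        exact ⟨h2, hmax u h2 h1⟩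
    rw [this, Finset.card_erase_of_mem ht]
  unfold alt
  rw [← bit_and]
  apply bit_congr
  constructor
  · intro h
    refine ⟨?_, ?_⟩
    · intro w hw
      have := h w (Finset.mem_of_mem_erase hw)
      rw [hfilt w hw] at this
      convert this
    · have := h t ht
      rwa [hcard] at this
  · rintro ⟨h1, h2⟩ w hw
    by_cases hwt : w = t
    · subst hwt
      rw [hcard]; exact h2
    · have hw' : w ∈ P.erase t := Finset.mem_erase.mpr ⟨hwt, hw⟩
      rw [hfilt w hw']
      convert h1 w hw'

theorem zmod2_add_self (x : ZMod 2) : x + x = 0 := by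
  revert x; decide

/-- Fan's lemma. -/
theorem fan_lemma {E ι : Type*} [DecidableEq E] [LinearOrder ι] (idx : E → ι) (sg : E → Prop)
    (P : Finset E) (hP : P.Nonempty) (hinj : Set.InjOn idx P) :
    alt idx sg P + alt idx (fun w => ¬ sg w) P = ∑ w ∈ P, alt idx sg (P.erase w) := by
  induction hk : P.card generalizing P with
  | zero =>
    rw [Finset.card_eq_zero] at hk
    subst hk
    exact absurd hP (by simp)
  | succ k ih =>
    obtain ⟨t, ht, htmax⟩ := P.exists_max_image idx hP
    have hmax : ∀ u ∈ P, u ≠ t → idx u < idx t := by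
      intro u hu hut
      rcases lt_or_eq_of_le (htmax u hu) with h | h
      · exact h
      · exact absurd (hinj hu ht h) hut
    have e1 := alt_max idx sg P t ht hmax
    have e2 := alt_max idx (fun w => ¬ sg w) P t ht hmax
    have e3 : bit ((fun w => ¬ sg w) t ↔ Even (P.card - 1)) =
        1 + bit (sg t ↔ Even (P.card - 1)) := by
      rw [← bit_not]
      apply bit_congr
      tauto
    rw [e3] at e2
    have e0 : ∀ Q : Finset E, ∀ w, @Finset.erase E (fun a b => Classical.propDecidable (a = b)) Q w
        = Q.erase w := by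
      intro Q w
      ext u
      simp
    rw [e0] at e1 e2
    rw [e1, e2]
    rw [← Finset.add_sum_erase P _ ht]
    have hterm : ∀ w ∈ P.erase t, alt idx sg (P.erase w) =
        alt idx sg ((P.erase t).erase w) * (1 + bit (sg t ↔ Even (P.card - 1))) := by
      intro w hw
      have hwt : w ≠ t := Finset.ne_of_mem_erase hw
      have hwP : w ∈ P := Finset.mem_of_mem_erase hw
      have ht' : t ∈ P.erase w := Finset.mem_erase.mpr ⟨hwt.symm, ht⟩
      rw [alt_max idx sg (P.erase w) t ht' (fun u hu hut => hmax u (Finset.mem_of_mem_erase hu) hut)]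
      rw [e0, Finset.erase_right_comm]
      congr 1
      rw [Finset.card_erase_of_mem hwP, ← bit_not]
      apply bit_congr
      have hc2 : 2 ≤ P.card := by
        have : 1 < P.card := Finset.one_lt_card.mpr ⟨w, hwP, t, ht, hwt⟩
        omega
      have hpar : Even (P.card - 1 - 1) ↔ ¬ Even (P.card - 1) := by
        rw [Nat.even_iff, Nat.even_iff]; omega
      rw [hpar]
      tauto
    rw [Finset.sum_congr rfl hterm, ← Finset.sum_mul]
    generalize bit (sg t ↔ Even (P.card - 1)) = s
    by_cases hne : (P.erase t).Nonempty
    · rw [← ih (P.erase t) hne (hinj.mono (by intro x hx; exact Finset.mem_of_mem_erase hx))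
        (by rw [Finset.card_erase_of_mem ht, hk]; simp)]
      generalize alt idx sg (P.erase t) = a
      generalize alt idx (fun w => ¬ sg w) (P.erase t) = b
      revert a b s; decide
    · rw [Finset.not_nonempty_iff_eq_empty] at hne
      rw [hne]
      simp only [alt_empty, Finset.sum_empty]
      revert s; decide

end Pool.Agent.KS
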