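import Pool.Agent.MP_dd083e_co.Defs2

set_option autoImplicit false

/-! Task E of MP_dd083e_co: the boundary complex of the cyclic polytope `C(d,n)` maps
continuously and injectively into the unit sphere of `ℝ^d` (radial projection from the
average of the vertices). -/

namespace Pool.Agent.KS

namespace TaskE

/-- `∑ x_i γ(i) - q₀`, with `γ(t) = (t, ..., t^d)` and `q₀` the average of the `γ(i)`. -/
noncomputable def G (d : ℕ) {n : ℕ} (x : Fin n → ℝ) : EuclideanSpace ℝ (Fin d) :=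
  WithLp.toLp 2 (fun j : Fin d => ∑ i : Fin n, (x i - 1 / (n : ℝ)) * ((i : ℕ) : ℝ) ^ ((j : ℕ) + 1))

lemma G_apply (d : ℕ) {n : ℕ} (x : Fin n → ℝ) (j : Fin d) :
    G d x j = ∑ i : Fin n, (x i - 1 / (n : ℝ)) * ((i : ℕ) : ℝ) ^ ((j : ℕ) + 1) := rfl

lemma continuous_G (d n : ℕ) : Continuous (fun x : Fin n → ℝ => G d x) := by
  unfold G
  refine (PiLp.continuous_toLp 2 _).comp ?_
  refine continuous_pi fun j => ?_
  refine continuous_finsetSum _ fun i _ => ?_
  exact ((continuous_apply i).sub continuous_const).mul continuous_const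

/-- evaluation of a polynomial of degree at most `d` as an affine function -/
lemma eval_formula {d n : ℕ} (hn : 0 < n) (x : Fin n → ℝ) (hx : ∑ i, x i = 1)
    (p : Polynomial ℝ) (hp : p.natDegree ≤ d) :
    ∑ i : Fin n, (x i - 1 / (n : ℝ)) * p.eval ((i : ℕ) : ℝ) =
      ∑ j : Fin d, p.coeff ((j : ℕ) + 1) * G d x j := by
  have h1 : ∀ t : ℝ, p.eval t = p.coeff 0 + ∑ j : Fin d, p.coeff ((j : ℕ) + 1) * t ^ ((j : ℕ) + 1) := by
    intro t
    rw [Polynomial.eval_eq_sum_range' (Nat.lt_succ_of_le hp), Finset.sum_range_succ',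
      ← Fin.sum_univ_eq_sum_range (fun j => p.coeff (j + 1) * t ^ (j + 1)) d]
    simp [add_comm]
  have h0 : ∑ i : Fin n, (x i - 1 / (n : ℝ)) = 0 := by
    rw [Finset.sum_sub_distrib, hx]
    have : (n : ℝ) ≠ 0 := by positivity
    simp [this]
  simp_rw [h1, G_apply, mul_add, Finset.sum_add_distrib, ← Finset.sum_mul, h0, Finset.mul_sum]
  rw [zero_mul, zero_add, Finset.sum_comm]
  refine Finset.sum_congr rfl fun j _ => Finset.sum_congr rfl fun i _ => ?_
  ring

/-- the certificate polynomial of a face -/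
lemma cert {d n : ℕ} (hn : 0 < n) (x : Fin n → ℝ) (hx : x ∈ (cyclicBoundary d n).realization) :
    ∃ p : Polynomial ℝ, p.natDegree ≤ d ∧ (∀ i : Fin n, 0 ≤ p.eval ((i : ℕ) : ℝ)) ∧
      (∃ c : ℝ, 0 < c ∧ ∀ y : Fin n → ℝ, ∑ i, y i = 1 →
        ∑ j : Fin d, p.coeff ((j : ℕ) + 1) * G d y j = ∑ i, y i * p.eval ((i : ℕ) : ℝ) - c) ∧
      (∀ i, x i ≠ 0 → p.eval ((i : ℕ) : ℝ) = 0) ∧ (∑ i, x i * p.eval ((i : ℕ) : ℝ) = 0) ∧
      p ≠ 0 := by
  obtain ⟨hx0, hx1, p, hp1, hp2, ⟨i0, hi0⟩, hp4⟩ := hx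
  refine ⟨p, hp1, hp2, ⟨∑ i : Fin n, 1 / (n : ℝ) * p.eval ((i : ℕ) : ℝ), ?_, ?_⟩, ?_, ?_, ?_⟩
  · refine Finset.sum_pos' (fun i _ => ?_) ⟨i0, Finset.mem_univ _, ?_⟩
    · exact mul_nonneg (by positivity) (hp2 i)
    · exact mul_pos (by positivity) hi0
  · intro y hy
    rw [← eval_formula hn y hy p hp1, ← Finset.sum_sub_distrib]
    refine Finset.sum_congr rfl fun i _ => ?_
    ring
  · intro i hi
    exact hp4 i (by simpa using hi)
  · refine Finset.sum_eq_zero fun i _ => ?_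
    by_cases hi : x i = 0
    · simp [hi]
    · rw [hp4 i (by simpa using hi), mul_zero]
  · rintro rfl
    simp at hi0

lemma G_ne_zero {d n : ℕ} (hn : 0 < n) (x : Fin n → ℝ)
    (hx : x ∈ (cyclicBoundary d n).realization) : G d x ≠ 0 := by
  intro h
  obtain ⟨p, -, -, ⟨c, hc, hp⟩, -, h0, -⟩ := cert hn x hx
  have := hp x hx.2.1
  rw [h, h0] at this
  simp at this
  linarith

lemma scale_ge_one {d n : ℕ} (hn : 0 < n) (x y : Fin n → ℝ)
    (hx : x ∈ (cyclicBoundary d n).realization) (hy : y ∈ (cyclicBoundary d n).realization)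
    (s : ℝ) (hs : 0 < s) (h : G d x = s • G d y) : 1 ≤ s := by
  obtain ⟨p, -, hp2, ⟨c, hc, hp⟩, -, h0, -⟩ := cert hn x hx
  have h1 := hp x hx.2.1
  have h2 := hp y hy.2.1
  rw [h0, h] at h1
  have h3 : ∑ j : Fin d, p.coeff ((j : ℕ) + 1) * (s • G d y) j =
      s * ∑ j : Fin d, p.coeff ((j : ℕ) + 1) * G d y j := by
    rw [Finset.mul_sum]
    refine Finset.sum_congr rfl fun j _ => ?_
    simp only [PiLp.smul_apply, smul_eq_mul]
    ring
  rw [h3, h2] at h1
  have h4 : 0 ≤ ∑ i, y i * p.eval ((i : ℕ) : ℝ) :=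
    Finset.sum_nonneg fun i _ => mul_nonneg (hy.1 i) (hp2 i)
  nlinarith [mul_nonneg hs.le h4]

lemma eq_of_G_eq {d n : ℕ} (_hd : 1 ≤ d) (hn : 0 < n) (x y : Fin n → ℝ)
    (hx : x ∈ (cyclicBoundary d n).realization) (hy : y ∈ (cyclicBoundary d n).realization)
    (h : G d x = G d y) : x = y := by
  obtain ⟨p, hp1, hp2, ⟨c, hc, hp⟩, hpx, h0, hpne⟩ := cert hn x hx
  have h1 := hp x hx.2.1
  have h2 := hp y hy.2.1
  have h3 : ∑ i, y i * p.eval ((i : ℕ) : ℝ) = 0 := by
    rw [h, h2, h0] at h1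
    linarith
  have h4 : ∀ i, y i * p.eval ((i : ℕ) : ℝ) = 0 := by
    intro i
    exact (Finset.sum_eq_zero_iff_of_nonneg
      (fun i _ => mul_nonneg (hy.1 i) (hp2 i))).1 h3 i (Finset.mem_univ i)
  have hpy : ∀ i, y i ≠ 0 → p.eval ((i : ℕ) : ℝ) = 0 := by
    intro i hi
    exact (mul_eq_zero.1 (h4 i)).resolve_left hi
  classical
  set Z : Finset (Fin n) := Finset.univ.filter (fun i => p.eval ((i : ℕ) : ℝ) = 0) with hZ
  have hcard : Z.card ≤ d := by
    have hinj : Function.Injective (fun i : Fin n => ((i : ℕ) : ℝ)) := fun a b hab => by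
      have h' : ((a : ℕ) : ℝ) = ((b : ℕ) : ℝ) := hab
      exact Fin.ext (by exact_mod_cast h')
    have hsub : Z.image (fun i : Fin n => ((i : ℕ) : ℝ)) ⊆ p.roots.toFinset := by
      intro t ht
      obtain ⟨i, hi, rfl⟩ := Finset.mem_image.1 ht
      rw [Multiset.mem_toFinset, Polynomial.mem_roots hpne]
      exact (Finset.mem_filter.1 hi).2
    calc Z.card = (Z.image (fun i : Fin n => ((i : ℕ) : ℝ))).card :=
          (Finset.card_image_of_injective _ hinj).symm
      _ ≤ p.roots.toFinset.card := Finset.card_le_card hsub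
      _ ≤ Multiset.card p.roots := Multiset.toFinset_card_le _
      _ ≤ p.natDegree := Polynomial.card_roots' p
      _ ≤ d := hp1
  funext i
  by_cases hi : p.eval ((i : ℕ) : ℝ) = 0
  · have hiZ : i ∈ Z := by simp [hZ, hi]
    set q : Polynomial ℝ := ∏ k ∈ Z.erase i, (Polynomial.X - Polynomial.C (((k : Fin n) : ℕ) : ℝ)) with hq
    have hqdeg : q.natDegree ≤ d := by
      rw [hq, Polynomial.natDegree_prod_of_monic _ _ (fun k _ => Polynomial.monic_X_sub_C _)]
      simp only [Polynomial.natDegree_X_sub_C, Finset.sum_const, smul_eq_mul, mul_one]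
      exact (Finset.card_le_card (Finset.erase_subset _ _)).trans hcard
    have hqi : q.eval ((i : ℕ) : ℝ) ≠ 0 := by
      rw [hq, Polynomial.eval_prod, Finset.prod_ne_zero_iff]
      intro k hk
      have hki : k ≠ i := (Finset.mem_erase.1 hk).1
      simp only [Polynomial.eval_sub, Polynomial.eval_X, Polynomial.eval_C]
      intro h5
      apply hki
      have h' : ((k : ℕ) : ℝ) = ((i : ℕ) : ℝ) := by linarith
      exact Fin.ext (by exact_mod_cast h')
    have hqk : ∀ k ∈ Z, k ≠ i → q.eval ((k : ℕ) : ℝ) = 0 := by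
      intro k hk hki
      rw [hq, Polynomial.eval_prod]
      refine Finset.prod_eq_zero (Finset.mem_erase.2 ⟨hki, hk⟩) ?_
      simp
    have key : ∀ z : Fin n → ℝ, (∀ k, z k ≠ 0 → p.eval ((k : ℕ) : ℝ) = 0) →
        ∑ k, z k * q.eval ((k : ℕ) : ℝ) = z i * q.eval ((i : ℕ) : ℝ) := by
      intro z hz
      refine Finset.sum_eq_single i (fun k _ hki => ?_) (fun h => absurd (Finset.mem_univ i) h)
      by_cases hzk : z k = 0
      · simp [hzk]
      · rw [hqk k (by simp [hZ, hz k hzk]) hki, mul_zero]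
    have e1 := eval_formula hn x hx.2.1 q hqdeg
    have e2 := eval_formula hn y hy.2.1 q hqdeg
    rw [h, ← e2] at e1
    simp only [sub_mul, Finset.sum_sub_distrib] at e1
    rw [key x hpx, key y hpy] at e1
    have : x i * q.eval ((i : ℕ) : ℝ) = y i * q.eval ((i : ℕ) : ℝ) := by linarith
    exact mul_right_cancel₀ hqi this
  · have hxi : x i = 0 := by
      by_contra hne
      exact hi (hpx i hne)
    have hyi : y i = 0 := by
      by_contra hne
      exact hi (hpy i hne)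
    rw [hxi, hyi]

end TaskE

open TaskE in
theorem cyclic_sphere (d n : ℕ) (hd : 1 ≤ d) (hn : d + 1 ≤ n) :
    ∃ f : (cyclicBoundary d n).realization → EuclideanSpace ℝ (Fin d),
      Continuous f ∧ Function.Injective f ∧ ∀ x, ‖f x‖ = 1 := by
  have hn0 : 0 < n := by omega
  have hne : ∀ x : (cyclicBoundary d n).realization, G d (x : Fin n → ℝ) ≠ 0 :=
    fun x => G_ne_zero hn0 x.1 x.2
  have hpos : ∀ x : (cyclicBoundary d n).realization, 0 < ‖G d (x : Fin n → ℝ)‖ :=
    fun x => norm_pos_iff.2 (hne x)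
  have hcG : Continuous (fun x : (cyclicBoundary d n).realization => G d (x : Fin n → ℝ)) :=
    (continuous_G d n).comp continuous_subtype_val
  refine ⟨fun x => ‖G d (x : Fin n → ℝ)‖⁻¹ • G d (x : Fin n → ℝ), ?_, ?_, ?_⟩
  · exact (hcG.norm.inv₀ (fun x => (hpos x).ne')).smul hcG
  · intro x y hxy
    simp only at hxy
    have h1 : G d (x : Fin n → ℝ) =
        (‖G d (x : Fin n → ℝ)‖ * ‖G d (y : Fin n → ℝ)‖⁻¹) • G d (y : Fin n → ℝ) := by
      rw [mul_smul, ← hxy, smul_smul, mul_inv_cancel₀ (hpos x).ne', one_smul]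
    have h2 : G d (y : Fin n → ℝ) =
        (‖G d (y : Fin n → ℝ)‖ * ‖G d (x : Fin n → ℝ)‖⁻¹) • G d (x : Fin n → ℝ) := by
      rw [mul_smul, hxy, smul_smul, mul_inv_cancel₀ (hpos y).ne', one_smul]
    have h3 := scale_ge_one hn0 x.1 y.1 x.2 y.2 _ (by have := hpos x; have := hpos y; positivity) h1
    have h4 := scale_ge_one hn0 y.1 x.1 y.2 x.2 _ (by have := hpos x; have := hpos y; positivity) h2
    have h5 : ‖G d (x : Fin n → ℝ)‖ = ‖G d (y : Fin n → ℝ)‖ := by
      have hx := hpos x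
      have hy := hpos y
      rw [← div_eq_mul_inv, le_div_iff₀ hy, one_mul] at h3
      rw [← div_eq_mul_inv, le_div_iff₀ hx, one_mul] at h4
      exact le_antisymm h4 h3
    rw [h5, mul_inv_cancel₀ (hpos y).ne', one_smul] at h1
    exact Subtype.ext (eq_of_G_eq hd hn0 x.1 y.1 x.2 y.2 h1)
  · intro x
    simp only
    rw [norm_smul, norm_inv, norm_norm, inv_mul_cancel₀ (hpos x).ne']

end Pool.Agent.KS
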