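import Pool.Agent.MP_dd083e_co.Defs2

set_option autoImplicit false

/-!
Task N: monomials of degree `D` and weight at most `d` inject into monomials of degree `D`
whose support is a face of the boundary of the cyclic polytope.
-/

namespace Pool.Agent.KS.TaskN

/-- Cost of a list, read from the left, without a special block on the left. -/
def scan : List ℕ → ℕ
  | [] => 0
  | 0 :: l => scan l
  | [_ + 1] => 1
  | (_ + 1) :: _ :: l => 2 + scan l

/-- Encoding of a weight 2 part `u` and a weight 0 part `v`. -/
def enc : List ℕ → List ℕ → List ℕ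
  | [], v => v
  | 0 :: u, v => 0 :: enc u v
  | (a + 1) :: u, i :: j :: v => (i + 1) :: j :: enc (a :: u) v
  | _ :: _, _ => []
termination_by u v => (u.length + u.sum, v.length)
decreasing_by
  all_goals simp_wf
  all_goals (left; simp)

/-- Encoding with the weight 1 exponent `c`. -/
def encc (u : List ℕ) : ℕ → List ℕ → List ℕ
  | 0, v => 0 :: enc u v
  | c + 1, i :: v => (i + 1) :: encc u c v
  | _ + 1, [] => []

theorem enc_nil (v : List ℕ) : enc [] v = v := by
  rw [enc]

theorem enc_zero (u v : List ℕ) : enc (0 :: u) v = 0 :: enc u v := by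
  rw [enc]

theorem enc_succ (a i j : ℕ) (u v : List ℕ) :
    enc ((a + 1) :: u) (i :: j :: v) = (i + 1) :: j :: enc (a :: u) v := by
  rw [enc]

/-- Induction principle for valid pairs. -/
theorem valid_induction {P : List ℕ → List ℕ → Prop}
    (h0 : ∀ v, P [] v) (h1 : ∀ u v, 2 * u.sum ≤ v.length → P u v → P (0 :: u) v)
    (h2 : ∀ a i j u v, 2 * (a :: u).sum ≤ v.length → P (a :: u) v →
      P ((a + 1) :: u) (i :: j :: v)) :
    ∀ u v : List ℕ, 2 * u.sum ≤ v.length → P u v
  | [], v, _ => h0 v
  | 0 :: u, v, h => by
      have h' : 2 * u.sum ≤ v.length := by simpa using h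
      exact h1 u v h' (valid_induction h0 h1 h2 u v h')
  | (a + 1) :: u, [], h => by simp at h
  | (a + 1) :: u, [i], h => by simp at h; omega
  | (a + 1) :: u, i :: j :: v, h => by
      have h' : 2 * (a :: u).sum ≤ v.length := by
        simp only [List.sum_cons, List.length_cons] at h ⊢
        omega
      exact h2 a i j u v h' (valid_induction h0 h1 h2 (a :: u) v h')
termination_by u v => (u.length + u.sum, v.length)
decreasing_by
  all_goals simp_wf
  all_goals (left; simp)

theorem length_enc (u v : List ℕ) (h : 2 * u.sum ≤ v.length) :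
    (enc u v).length = u.length + v.length := by
  refine valid_induction (P := fun u v => (enc u v).length = u.length + v.length)
    ?_ ?_ ?_ u v h
  · intro v; simp [enc_nil]
  · intro u v _ ih; rw [enc_zero]; simp [ih]; omega
  · intro a i j u v _ ih
    rw [enc_succ]; simp [ih]; omega

theorem sum_enc (u v : List ℕ) (h : 2 * u.sum ≤ v.length) :
    (enc u v).sum = u.sum + v.sum := by
  refine valid_induction (P := fun u v => (enc u v).sum = u.sum + v.sum) ?_ ?_ ?_ u v h
  · intro v; simp [enc_nil]
  · intro u v _ ih; rw [enc_zero]; simp [ih]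
  · intro a i j u v _ ih
    rw [enc_succ]; simp [ih]; omega

theorem scan_le_length : ∀ v : List ℕ, scan v ≤ v.length
  | [] => by simp [scan]
  | 0 :: l => by
      have := scan_le_length l
      simp [scan]; omega
  | [_ + 1] => by simp [scan]
  | (_ + 1) :: _ :: l => by
      have := scan_le_length l
      simp [scan]; omega

theorem scan_enc (u v : List ℕ) (h : 2 * u.sum ≤ v.length) :
    scan (enc u v) ≤ v.length := by
  refine valid_induction (P := fun u v => scan (enc u v) ≤ v.length) ?_ ?_ ?_ u v h
  · intro v; rw [enc_nil]; exact scan_le_length v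
  · intro u v _ ih; rw [enc_zero, scan]; exact ih
  · intro a i j u v _ ih
    rw [enc_succ, scan]; simp; omega

theorem enc_inj (u v : List ℕ) (h : 2 * u.sum ≤ v.length) :
    ∀ u' v' : List ℕ, 2 * u'.sum ≤ v'.length → u.length = u'.length →
      enc u v = enc u' v' → u = u' ∧ v = v' := by
  refine valid_induction (P := fun u v => ∀ u' v' : List ℕ, 2 * u'.sum ≤ v'.length →
    u.length = u'.length → enc u v = enc u' v' → u = u' ∧ v = v') ?_ ?_ ?_ u v h
  · intro v u' v' _ hl he
    have : u' = [] := by
      cases u' with
      | nil => rfl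
      | cons a l => simp at hl
    subst this
    rw [enc_nil, enc_nil] at he
    exact ⟨rfl, he⟩
  · intro u v _ ih u' v' h' hl he
    match u', v', h', hl, he with
    | 0 :: u', v', h', hl, he =>
      rw [enc_zero, enc_zero] at he
      have := ih u' v' (by simpa using h') (by simpa using hl) (by simpa using he)
      exact ⟨by rw [this.1], this.2⟩
    | (a + 1) :: u', [], h', hl, he => simp at h'
    | (a + 1) :: u', [i], h', hl, he => simp at h'; omega
    | (a + 1) :: u', i :: j :: v', h', hl, he =>
      rw [enc_zero, enc_succ] at he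
      simp at he
  · intro a i j u v _ ih u' v' h' hl he
    match u', v', h', hl, he with
    | 0 :: u', v', h', hl, he =>
      rw [enc_zero, enc_succ] at he
      simp at he
    | (a' + 1) :: u', [], h', hl, he => simp at h'
    | (a' + 1) :: u', [i], h', hl, he => simp at h'; omega
    | (a' + 1) :: u', i' :: j' :: v', h', hl, he =>
      rw [enc_succ, enc_succ] at he
      have he' : i = i' ∧ j = j' ∧ enc (a :: u) v = enc (a' :: u') v' := by simpa using he
      have := ih (a' :: u') v' (by
        simp only [List.sum_cons, List.length_cons] at h' ⊢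
        omega) (by simpa using hl) he'.2.2
      have h1 := this.1
      have h2 := this.2
      simp only [List.cons.injEq] at h1
      refine ⟨?_, ?_⟩
      · rw [h1.1, h1.2]
      · rw [he'.1, he'.2.1, h2]

/-! ### the version with the weight 1 exponent -/

theorem length_encc (u : List ℕ) : ∀ (c : ℕ) (v : List ℕ), 2 * u.sum + c ≤ v.length →
    (encc u c v).length = u.length + 1 + v.length
  | 0, v, h => by
      rw [encc, List.length_cons, length_enc u v (by omega)]; omega
  | c + 1, [], h => by simp at h
  | c + 1, i :: v, h => by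
      rw [encc, List.length_cons, length_encc u c v (by simp at h; omega)]
      simp; omega

theorem sum_encc (u : List ℕ) : ∀ (c : ℕ) (v : List ℕ), 2 * u.sum + c ≤ v.length →
    (encc u c v).sum = u.sum + c + v.sum
  | 0, v, h => by
      rw [encc, List.sum_cons, sum_enc u v (by omega)]; omega
  | c + 1, [], h => by simp at h
  | c + 1, i :: v, h => by
      rw [encc, List.sum_cons, sum_encc u c v (by simp at h; omega)]
      simp; omega

theorem encc_inj (u u' : List ℕ) (hu : u.length = u'.length) :
    ∀ (c : ℕ) (v : List ℕ) (c' : ℕ) (v' : List ℕ), 2 * u.sum + c ≤ v.length →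
      2 * u'.sum + c' ≤ v'.length → encc u c v = encc u' c' v' → u = u' ∧ c = c' ∧ v = v'
  | 0, v, 0, v', h, h', he => by
      rw [encc, encc] at he
      have := enc_inj u v (by omega) u' v' (by omega) hu (by simpa using he)
      exact ⟨this.1, rfl, this.2⟩
  | 0, v, c' + 1, [], h, h', he => by simp at h'
  | 0, v, c' + 1, i :: v', h, h', he => by
      rw [encc, encc] at he; simp at he
  | c + 1, [], _, _, h, h', he => by simp at h
  | c + 1, i :: v, 0, v', h, h', he => by
      rw [encc, encc] at he; simp at he
  | c + 1, i :: v, c' + 1, [], h, h', he => by simp at h'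
  | c + 1, i :: v, c' + 1, i' :: v', h, h', he => by
      rw [encc, encc] at he
      have he' : i = i' ∧ encc u c v = encc u' c' v' := by simpa using he
      have := encc_inj u u' hu c v c' v' (by simp at h; omega) (by simp at h'; omega) he'.2
      exact ⟨this.1, by rw [this.2.1], by rw [he'.1, this.2.2]⟩

/-! ### polynomials -/

open Polynomial

/-- The polynomial for a scanned list at offset `s`. -/
theorem scan_poly : ∀ (l : List ℕ) (s : ℕ), ∃ p : ℝ[X], p.natDegree ≤ scan l ∧
    (∀ t : ℕ, t < s + l.length → 0 ≤ p.eval (t : ℝ)) ∧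
    (∀ t : ℕ, t < s → 0 < p.eval (t : ℝ)) ∧
    (∀ i : ℕ, l.getD i 0 ≠ 0 → p.eval ((s + i : ℕ) : ℝ) = 0)
  | [], s => ⟨1, by simp [scan], by simp, by simp, by simp⟩
  | 0 :: l, s => by
      obtain ⟨p, h1, h2, h3, h4⟩ := scan_poly l (s + 1)
      refine ⟨p, by simpa [scan] using h1, ?_, ?_, ?_⟩
      · intro t ht
        exact h2 t (by simp at ht; omega)
      · intro t ht
        exact h3 t (by omega)
      · intro i hi
        cases i with
        | zero => simp at hi
        | succ i =>
          have := h4 i (by simpa using hi)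
          rw [← this]
          congr 2
          ring
  | [a + 1], s => by
      refine ⟨C (s : ℝ) - X, ?_, ?_, ?_, ?_⟩
      · rw [scan]
        refine (natDegree_sub_le _ _).trans ?_
        simp
      · intro t ht
        have : t ≤ s := by simp at ht; omega
        have : (t : ℝ) ≤ s := by exact_mod_cast this
        simp; linarith
      · intro t ht
        have : (t : ℝ) < s := by exact_mod_cast ht
        simp; linarith
      · intro i hi
        have : i = 0 := by
          by_contra hne
          apply hi
          cases i with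
          | zero => exact absurd rfl hne
          | succ i => simp
        subst this
        simp
  | (a + 1) :: b :: l, s => by
      obtain ⟨p, h1, h2, h3, h4⟩ := scan_poly l (s + 2)
      have key : ∀ t : ℕ, 0 ≤ ((t : ℝ) - s) * ((t : ℝ) - (s + 1)) := by
        intro t
        rcases le_or_gt t s with h | h
        · have h' : (t : ℝ) ≤ s := by exact_mod_cast h
          nlinarith
        · have h' : (s : ℝ) + 1 ≤ t := by exact_mod_cast h
          nlinarith
      refine ⟨(X - C (s : ℝ)) * (X - C ((s : ℝ) + 1)) * p, ?_, ?_, ?_, ?_⟩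
      · rw [scan]
        refine natDegree_mul_le.trans ?_
        have : ((X - C (s : ℝ)) * (X - C ((s : ℝ) + 1))).natDegree ≤ 1 + 1 := by
          refine natDegree_mul_le.trans ?_
          rw [natDegree_X_sub_C, natDegree_X_sub_C]
        omega
      · intro t ht
        simp only [eval_mul, eval_sub, eval_X, eval_C]
        exact mul_nonneg (key t) (h2 t (by simp at ht; omega))
      · intro t ht
        simp only [eval_mul, eval_sub, eval_X, eval_C]
        have h' : (t : ℝ) < s := by exact_mod_cast ht
        have := h3 t (by omega)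
        have h5 : 0 < ((t : ℝ) - s) * ((t : ℝ) - (s + 1)) := by nlinarith
        exact mul_pos h5 this
      · intro i hi
        simp only [eval_mul, eval_sub, eval_X, eval_C]
        match i, hi with
        | 0, _ => simp
        | 1, _ => push_cast; ring
        | i + 2, hi =>
          have := h4 i (by simpa using hi)
          have e : ((s + (i + 2) : ℕ) : ℝ) = ((s + 2 + i : ℕ) : ℝ) := by push_cast; ring
          rw [e, this]; ring

/-- The polynomial for `encc` at offset `s`. -/
theorem encc_poly (u : List ℕ) : ∀ (c : ℕ) (v : List ℕ) (s : ℕ), 2 * u.sum + c ≤ v.length →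
    ∃ p : ℝ[X], p.natDegree ≤ v.length ∧
    (∀ t : ℕ, s ≤ t → t < s + (encc u c v).length → 0 ≤ p.eval (t : ℝ)) ∧
    (∃ t : ℕ, s ≤ t ∧ t < s + (encc u c v).length ∧ 0 < p.eval (t : ℝ)) ∧
    (∀ i : ℕ, (encc u c v).getD i 0 ≠ 0 → p.eval ((s + i : ℕ) : ℝ) = 0)
  | 0, v, s, h => by
      obtain ⟨p, h1, h2, h3, h4⟩ := scan_poly (enc u v) (s + 1)
      refine ⟨p, h1.trans (scan_enc u v (by omega)), ?_, ?_, ?_⟩
      · intro t _ ht
        exact h2 t (by simp [encc] at ht; omega)
      · exact ⟨s, le_refl _, by simp [encc], h3 s (by omega)⟩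
      · intro i hi
        rw [encc] at hi
        cases i with
        | zero => simp at hi
        | succ i =>
          have := h4 i (by simpa using hi)
          rw [← this]
          congr 2
          ring
  | c + 1, [], s, h => by simp at h
  | c + 1, i :: v, s, h => by
      obtain ⟨p, h1, h2, ⟨t0, h3, h3', h3''⟩, h4⟩ := encc_poly u c v (s + 1) (by simp at h; omega)
      refine ⟨(X - C (s : ℝ)) * p, ?_, ?_, ?_, ?_⟩
      · refine natDegree_mul_le.trans ?_
        rw [natDegree_X_sub_C, List.length_cons]
        omega
      · intro t hs ht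
        simp only [eval_mul, eval_sub, eval_X, eval_C]
        rcases eq_or_lt_of_le hs with h' | h'
        · rw [← h']; simp
        · have h5 : (s : ℝ) < t := by exact_mod_cast h'
          exact mul_nonneg (by linarith) (h2 t (by omega) (by simp [encc] at ht; omega))
      · refine ⟨t0, by omega, by simp [encc]; omega, ?_⟩
        simp only [eval_mul, eval_sub, eval_X, eval_C]
        have h5 : (s : ℝ) < t0 := by exact_mod_cast (by omega : s < t0)
        exact mul_pos (by linarith) h3''
      · intro k hk
        simp only [eval_mul, eval_sub, eval_X, eval_C]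
        rw [encc] at hk
        cases k with
        | zero => simp
        | succ k =>
          have := h4 k (by simpa using hk)
          have e : ((s + (k + 1) : ℕ) : ℝ) = ((s + 1 + k : ℕ) : ℝ) := by push_cast; ring
          rw [e, this]; ring

/-! ### the injection -/

/-- the list attached to an exponent vector -/
def code (m d : ℕ) (a : Fin (m + (d + 1)) → ℕ) : List ℕ :=
  encc (List.ofFn fun i : Fin m => a (Fin.castAdd (d + 1) i)) (a (Fin.natAdd m 0))
    (List.ofFn fun i : Fin d => a (Fin.natAdd m i.succ))

theorem wt_eq (m d : ℕ) (a : Fin (m + (d + 1)) → ℕ) :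
    wt d a = 2 * (List.ofFn fun i : Fin m => a (Fin.castAdd (d + 1) i)).sum +
      a (Fin.natAdd m 0) := by
  rw [wt, Fin.sum_univ_add, Fin.sum_univ_succ, List.sum_ofFn, Finset.mul_sum]
  have h1 : ∀ i : Fin m, a (Fin.castAdd (d + 1) i) * (if ((Fin.castAdd (d + 1) i : Fin (m + (d + 1))) : ℕ) + d + 1 < m + (d + 1) then 2
      else if ((Fin.castAdd (d + 1) i : Fin (m + (d + 1))) : ℕ) + d + 1 = m + (d + 1) then 1 else 0) =
      2 * a (Fin.castAdd (d + 1) i) := by
    intro i
    have : ((Fin.castAdd (d + 1) i : Fin (m + (d + 1))) : ℕ) + d + 1 < m + (d + 1) := by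
      simp only [Fin.val_castAdd]; omega
    rw [if_pos this, mul_comm]
  have h2 : ∀ i : Fin d, a (Fin.natAdd m i.succ) * (if ((Fin.natAdd m i.succ : Fin (m + (d + 1))) : ℕ) + d + 1 < m + (d + 1) then 2
      else if ((Fin.natAdd m i.succ : Fin (m + (d + 1))) : ℕ) + d + 1 = m + (d + 1) then 1 else 0) = 0 := by
    intro i
    have e : ((Fin.natAdd m i.succ : Fin (m + (d + 1))) : ℕ) = m + (i + 1) := by simp
    rw [if_neg (by rw [e]; omega), if_neg (by rw [e]; omega), mul_zero]
  have h3 : a (Fin.natAdd m 0) * (if ((Fin.natAdd m (0 : Fin (d + 1)) : Fin (m + (d + 1))) : ℕ) + d + 1 < m + (d + 1) then 2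
      else if ((Fin.natAdd m (0 : Fin (d + 1)) : Fin (m + (d + 1))) : ℕ) + d + 1 = m + (d + 1) then 1 else 0) =
      a (Fin.natAdd m 0) := by
    have e : ((Fin.natAdd m (0 : Fin (d + 1)) : Fin (m + (d + 1))) : ℕ) = m := by simp
    rw [if_neg (by rw [e]; omega), if_pos (by rw [e]; omega), mul_one]
  rw [Finset.sum_congr rfl (fun i _ => h1 i), Finset.sum_congr rfl (fun i _ => h2 i), h3]
  simp

theorem main (d m D : ℕ) (S : Finset (Fin (m + (d + 1)) → ℕ))
    (hS : ∀ a, a ∈ S ↔ a ∈ Finset.piAntidiag (Finset.univ : Finset (Fin (m + (d + 1)))) D ∧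
      Finset.univ.filter (fun i => a i ≠ 0) ∈ (cyclicBoundary d (m + (d + 1))).faces) :
    ((Finset.piAntidiag (Finset.univ : Finset (Fin (m + (d + 1)))) D).filter
      (fun a => wt d a ≤ d)).card ≤ S.card := by
  have valid : ∀ a : Fin (m + (d + 1)) → ℕ, wt d a ≤ d →
      2 * (List.ofFn fun i : Fin m => a (Fin.castAdd (d + 1) i)).sum +
        a (Fin.natAdd m 0) ≤ (List.ofFn fun i : Fin d => a (Fin.natAdd m i.succ)).length := by
    intro a ha
    rw [← wt_eq, List.length_ofFn]; exact ha
  have len : ∀ a : Fin (m + (d + 1)) → ℕ, wt d a ≤ d → (code m d a).length = m + (d + 1) := by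
    intro a ha
    rw [code, length_encc _ _ _ (valid a ha)]
    simp only [List.length_ofFn]; omega
  refine Finset.card_le_card_of_injOn (fun a i => (code m d a).getD (i : ℕ) 0) ?_ ?_
  · intro a ha
    simp only [Finset.coe_filter, Set.mem_ofPred_eq, Finset.mem_piAntidiag] at ha
    obtain ⟨⟨hsum, -⟩, hw⟩ := ha
    have hlen := len a hw
    simp only [Finset.mem_coe]
    rw [hS, Finset.mem_piAntidiag]
    refine ⟨⟨?_, fun i _ => Finset.mem_univ i⟩, ?_⟩
    · have e : (∑ i : Fin (m + (d + 1)), (code m d a).getD (i : ℕ) 0) = (code m d a).sum := by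
        have h1 : List.ofFn (fun i : Fin (m + (d + 1)) => (code m d a).getD (i : ℕ) 0) =
            code m d a := by
          apply List.ext_getElem
          · rw [List.length_ofFn, hlen]
          · intro k h1 h2
            rw [List.getElem_ofFn]
            simp [h2]
        rw [← List.sum_ofFn, h1]
      rw [e, code, sum_encc _ _ _ (valid a hw), ← hsum, Fin.sum_univ_add, Fin.sum_univ_succ,
        List.sum_ofFn, List.sum_ofFn]
      omega
    · obtain ⟨p, h1, h2, ⟨t, ht1, ht2, ht3⟩, h4⟩ := encc_poly
        (List.ofFn fun i : Fin m => a (Fin.castAdd (d + 1) i)) (a (Fin.natAdd m 0))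
        (List.ofFn fun i : Fin d => a (Fin.natAdd m i.succ)) 0 (valid a hw)
      change ∃ p : Polynomial ℝ, _
      have hlen' : (encc (List.ofFn fun i : Fin m => a (Fin.castAdd (d + 1) i))
        (a (Fin.natAdd m 0)) (List.ofFn fun i : Fin d => a (Fin.natAdd m i.succ))).length =
        m + (d + 1) := hlen
      refine ⟨p, ?_, ?_, ?_, ?_⟩
      · simpa using h1
      · intro i
        exact h2 i (by omega) (by rw [hlen']; have := i.2; omega)
      · exact ⟨⟨t, by rw [hlen'] at ht2; omega⟩, ht3⟩
      · intro i hi
        have := h4 i (by simpa [code] using hi)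
        simpa using this
  · intro a ha b hb hab
    simp only [Finset.coe_filter, Set.mem_ofPred_eq] at ha hb
    have hl : code m d a = code m d b := by
      apply List.ext_getElem
      · rw [len a ha.2, len b hb.2]
      · intro k h1 h2
        have := congrFun hab ⟨k, by rw [len a ha.2] at h1; exact h1⟩
        simpa [h1, h2] using this
    have := encc_inj _ _ (by simp only [List.length_ofFn]) _ _ _ _ (valid a ha.2)
      (valid b hb.2) hl
    obtain ⟨e1, e2, e3⟩ := this
    have e1' := List.ofFn_injective e1
    have e3' := List.ofFn_injective e3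
    funext i
    refine Fin.addCases (fun j => congrFun e1' j) (fun j => ?_) i
    refine Fin.cases e2 (fun j => congrFun e3' j) j

end Pool.Agent.KS.TaskN

namespace Pool.Agent.KS

open MvPolynomial

open Classical in
theorem cyclic_count (d n D : ℕ) (hn : d + 1 ≤ n) :
    ((Finset.piAntidiag (Finset.univ : Finset (Fin n)) D).filter (fun a => wt d a ≤ d)).card ≤
    ((Finset.piAntidiag (Finset.univ : Finset (Fin n)) D).filter
      (fun a => Finset.univ.filter (fun i => a i ≠ 0) ∈ (cyclicBoundary d n).faces)).card := by
  obtain ⟨m, rfl⟩ := Nat.exists_eq_add_of_le hn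
  rw [Nat.add_comm (d + 1) m]
  convert TaskN.main d m D _ ?_
  intro a
  rw [Finset.mem_filter]

end Pool.Agent.KS
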