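import Pool.Agent.MP_dd083e_co.TaskFAux
import Pool.Agent.MP_dd083e_co.TaskN

set_option autoImplicit false

/-! Task F: the final count for the cyclic polytope boundary. -/

universe u

namespace Pool.Agent.KS

open MvPolynomial

theorem gin_cyclic {n d : ℕ} (hn : d + 1 ≤ n) (k : Type u) [Field k] [CharZero k]
    (h : ∀ a : Fin n →₀ ℕ, d < wt d a → a ∈ ginExps ((cyclicBoundary d n).stanleyReisner k))
    (a : Fin n →₀ ℕ) (ha : a ∈ ginExps ((cyclicBoundary d n).stanleyReisner k)) :
    d < wt d a :=
  TaskF.gin_cyclic_of_count k (cyclicBoundary d n) (fun D => cyclic_count d n D hn) h a ha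

end Pool.Agent.KS
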