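import Pool.Agent.MP_dd083e_co.Defs2

set_option autoImplicit false

/-! Task G: from the spanning property to initial monomials. -/

universe u

namespace Pool.Agent.KS

open MvPolynomial

namespace TaskG

variable {n d : ℕ} {k : Type u} [Field k]

/-- the restriction homomorphism: kill the variables outside `σ` -/
noncomputable def res (n d : ℕ) (k : Type u) [Field k] :
    MvPolynomial (Fin n) k →ₐ[k] MvPolynomial {i : Fin n // (i : ℕ) + d < n} k :=
  aeval (fun i => if h : (i : ℕ) + d < n then X ⟨i, h⟩ else 0)

/-- extension by zero of exponents -/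
noncomputable def ext (c : {i : Fin n // (i : ℕ) + d < n} →₀ ℕ) : Fin n →₀ ℕ :=
  c.embDomain (Function.Embedding.subtype _)

lemma ext_apply_mem (c : {i : Fin n // (i : ℕ) + d < n} →₀ ℕ) (i : Fin n)
    (h : (i : ℕ) + d < n) : ext c i = c ⟨i, h⟩ := by
  have := Finsupp.embDomain_apply_self (Function.Embedding.subtype
    (fun i : Fin n => (i : ℕ) + d < n)) c ⟨i, h⟩
  simpa [ext] using this

lemma ext_apply_not_mem (c : {i : Fin n // (i : ℕ) + d < n} →₀ ℕ) (i : Fin n)
    (h : ¬ (i : ℕ) + d < n) : ext c i = 0 := by
  unfold ext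
  apply Finsupp.embDomain_of_notMem_range
  rintro ⟨j, hj⟩
  apply h
  rw [← hj]
  exact j.2

lemma ext_injective : Function.Injective
    (ext : ({i : Fin n // (i : ℕ) + d < n} →₀ ℕ) → (Fin n →₀ ℕ)) := by
  intro c c' h
  ext i
  have := DFunLike.congr_fun h i.1
  rwa [ext_apply_mem _ _ i.2, ext_apply_mem _ _ i.2] at this

lemma ext_degree (c : {i : Fin n // (i : ℕ) + d < n} →₀ ℕ) : (ext c).degree = c.degree := by
  rw [Finsupp.degree_apply, Finsupp.degree_apply, ext, Finsupp.support_embDomain, Finset.sum_map]
  exact Finset.sum_congr rfl fun i _ => Finsupp.embDomain_apply_self _ _ _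

/-- restriction of exponents -/
noncomputable def resExp (c : Fin n →₀ ℕ) : {i : Fin n // (i : ℕ) + d < n} →₀ ℕ :=
  Finsupp.equivFunOnFinite.symm (fun i => c i.1)

lemma ext_resExp (c : Fin n →₀ ℕ) (h : ∀ i : Fin n, ¬ (i : ℕ) + d < n → c i = 0) :
    ext (resExp (d := d) c) = c := by
  ext i
  by_cases hi : (i : ℕ) + d < n
  · rw [ext_apply_mem _ _ hi]; simp [resExp]
  · rw [ext_apply_not_mem _ _ hi, h i hi]

lemma res_monomial (c : Fin n →₀ ℕ) (r : k) :
    res n d k (monomial c r) =
      if (∀ i : Fin n, ¬ (i : ℕ) + d < n → c i = 0) then monomial (resExp (d := d) c) r else 0 := by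
  classical
  rw [res, aeval_monomial, Finsupp.prod_fintype _ _ (by simp)]
  split_ifs with h
  · have : ∏ i : Fin n, (if h : (i : ℕ) + d < n then (X ⟨i, h⟩ : MvPolynomial {i : Fin n //
        (i : ℕ) + d < n} k) else 0) ^ (c i) =
        ∏ i : {i : Fin n // (i : ℕ) + d < n}, (X i) ^ (c i.1) := by
      rw [← Finset.prod_filter_mul_prod_filter_not Finset.univ (fun i : Fin n => (i : ℕ) + d < n)]
      rw [Finset.prod_eq_one (s := Finset.univ.filter (fun i : Fin n => ¬ (i : ℕ) + d < n))]
      · rw [mul_one]
        rw [← Finset.prod_subtype_eq_prod_filter]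
        simp only [Finset.subtype_univ]
        refine Finset.prod_congr rfl fun i _ => ?_
        rw [dif_pos i.2]
      · intro i hi
        rw [Finset.mem_filter] at hi
        rw [h i hi.2, pow_zero]
    rw [this]
    rw [monomial_eq, Finsupp.prod_fintype _ _ (by simp)]
    simp [resExp, algebraMap_eq]
  · push Not at h
    obtain ⟨i, hi, hc⟩ := h
    rw [Finset.prod_eq_zero (Finset.mem_univ i), mul_zero]
    rw [dif_neg (by omega), zero_pow hc]

lemma coeff_res (f : MvPolynomial (Fin n) k) (c : {i : Fin n // (i : ℕ) + d < n} →₀ ℕ) :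
    coeff c (res n d k f) = coeff (ext c) f := by
  classical
  induction f using MvPolynomial.induction_on' with
  | monomial u r =>
    rw [res_monomial, coeff_monomial]
    split_ifs with h1 h2 h3
    · rw [coeff_monomial, if_pos]
      apply ext_injective
      rw [ext_resExp _ h1, h2]
    · rw [coeff_monomial, if_neg]
      intro h4
      apply h2
      rw [← h4, ext_resExp _ h1]
    · exfalso
      apply h1
      intro i hi
      rw [h3]
      exact ext_apply_not_mem _ _ hi
    · simp
  | add p q hp hq => rw [map_add, coeff_add, coeff_add, hp, hq]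

end TaskG

open TaskG in
theorem leading_of_spans {n d : ℕ} (hn : d + 1 ≤ n) (L : SComplex n) (k : Type u) [Field k]
    (g : Matrix (Fin n) (Fin n) k) (a : Fin n →₀ ℕ) (ha : d < wt d a)
    (h : ∀ D, d < 2 * D → D ≤ a.degree →
      Spans L d D (⟨⟨n - d - 1, by omega⟩, by simp only; omega⟩ : {i : Fin n // (i : ℕ) + d < n}) k
        (fun i v => g i.1 v)) :
    ∃ f ∈ (L.stanleyReisner k).map (linSubst g), IsLeading f a := by
  classical
  set o : {i : Fin n // (i : ℕ) + d < n} := ⟨⟨n - d - 1, by omega⟩, by simp only; omega⟩ with ho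
  set a1 : {i : Fin n // (i : ℕ) + d < n} →₀ ℕ := resExp (d := d) a with ha1
  set D := a1.degree with hD
  set a2 : Fin n →₀ ℕ := a - ext a1 with ha2
  have hle : ext a1 ≤ a := by
    intro i
    by_cases hi : (i : ℕ) + d < n
    · rw [ext_apply_mem _ _ hi]; simp [ha1, resExp]
    · rw [ext_apply_not_mem _ _ hi]; exact Nat.zero_le _
  have hadd : a2 + ext a1 = a := tsub_add_cancel_of_le hle
  have hDa : D ≤ a.degree := by
    rw [hD, ← ext_degree, ← hadd, map_add]
    exact Nat.le_add_left _ _
  have hwt : wt d a + a1 o = 2 * D := by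
    have h1 : a1 o = ∑ i : Fin n, a i * (if (i : ℕ) + d + 1 = n then 1 else 0) := by
      rw [Finset.sum_eq_single (⟨n - d - 1, by omega⟩ : Fin n)]
      · rw [if_pos (by simp only; omega), mul_one]; simp [ha1, resExp, ho]
      · intro b _ hb
        rw [if_neg, mul_zero]
        intro hb2
        apply hb
        ext
        simp only
        omega
      · intro h; exact absurd (Finset.mem_univ _) h
    have h2 : D = ∑ i : Fin n, a i * (if (i : ℕ) + d < n then 1 else 0) := by
      rw [hD, ← ext_degree, Finsupp.degree_eq_sum]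
      refine Finset.sum_congr rfl fun i _ => ?_
      by_cases hi : (i : ℕ) + d < n
      · rw [ext_apply_mem _ _ hi, if_pos hi, mul_one]; simp [ha1, resExp]
      · rw [ext_apply_not_mem _ _ hi, if_neg hi, mul_zero]
    rw [h1, h2, wt, ← Finset.sum_add_distrib, Finset.mul_sum]
    refine Finset.sum_congr rfl fun i _ => ?_
    split_ifs <;> omega
  have hDd : d < 2 * D := by omega
  have hao : a1 o < 2 * D - d := by omega
  have hsp := h D hDd hDa a1 hD.symm
  rw [Submodule.span_union, Submodule.mem_sup] at hsp
  obtain ⟨p1, hp1, p2, hp2, hp⟩ := hsp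
  -- lift of p1
  set I' := (L.stanleyReisner k).map (linSubst g) with hI'
  obtain ⟨f1, hf1I, hf1D, hf1p⟩ : ∃ f1 ∈ I', f1.IsHomogeneous D ∧ res n d k f1 = p1 := by
    have hle' : Submodule.span k {p : MvPolynomial {i : Fin n // (i : ℕ) + d < n} k |
        ∃ A : Finset (Fin n), A ∉ L.faces ∧ ∃ b : {i : Fin n // (i : ℕ) + d < n} →₀ ℕ,
        A.card + b.degree = D ∧
          p = (∏ v ∈ A, lform (fun i v => g i.1 v) v) * monomial b 1} ≤
        ((I'.restrictScalars k) ⊓ homogeneousSubmodule (Fin n) k D).map
          (res n d k).toLinearMap := by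
      rw [Submodule.span_le]
      rintro p ⟨A, hA, b, hAb, rfl⟩
      refine ⟨linSubst g (∏ v ∈ A, X v) * monomial (ext b) 1, ⟨?_, ?_⟩, ?_⟩
      · exact I'.mul_mem_right _ (Ideal.mem_map_of_mem _ (Ideal.subset_span ⟨A, hA, rfl⟩))
      · rw [SetLike.mem_coe, mem_homogeneousSubmodule, ← hAb, ← ext_degree]
        refine IsHomogeneous.mul ?_ (isHomogeneous_monomial _ rfl)
        rw [map_prod, Finset.card_eq_sum_ones]
        refine IsHomogeneous.prod _ _ _ fun v _ => ?_
        rw [linSubst, aeval_X]
        exact IsHomogeneous.sum _ _ _ fun i _ => isHomogeneous_C_mul_X _ _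
      · rw [AlgHom.toLinearMap_apply, map_mul, map_prod, map_prod]
        congr 1
        · refine Finset.prod_congr rfl fun v _ => ?_
          rw [linSubst, aeval_X, map_sum, lform]
          simp only [map_mul, algHom_C, res, aeval_X, algebraMap_eq]
          rw [← Finset.sum_filter_add_sum_filter_not Finset.univ
            (fun i : Fin n => (i : ℕ) + d < n)]
          rw [Finset.sum_eq_zero (s := Finset.univ.filter (fun i : Fin n => ¬ (i : ℕ) + d < n)),
            add_zero]
          · rw [← Finset.sum_subtype_eq_sum_filter]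
            simp only [Finset.subtype_univ]
            refine Finset.sum_congr rfl fun i _ => ?_
            rw [dif_pos i.2]
          · intro i hi
            rw [Finset.mem_filter] at hi
            rw [dif_neg hi.2, mul_zero]
        · rw [res_monomial, if_pos]
          · have hb : resExp (d := d) (ext b) = b := by
              apply ext_injective
              rw [ext_resExp]
              intro i hi
              exact ext_apply_not_mem _ _ hi
            rw [hb]
          · intro i hi
            exact ext_apply_not_mem _ _ hi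
    obtain ⟨f1, ⟨h1, h2⟩, h3⟩ := hle' hp1
    exact ⟨f1, h1, h2, h3⟩
  have hp2' : ∀ c : {i : Fin n // (i : ℕ) + d < n} →₀ ℕ, c o < 2 * D - d → coeff c p2 = 0 := by
    intro c hc
    clear hp
    induction hp2 using Submodule.span_induction with
    | mem x hx =>
      obtain ⟨b, _, rfl⟩ := hx
      rw [X_pow_eq_monomial, monomial_mul, coeff_monomial, if_neg]
      rintro rfl
      rw [Finsupp.add_apply, Finsupp.single_eq_same] at hc
      omega
    | zero => exact coeff_zero _
    | add x y _ _ hx hy => rw [coeff_add, hx, hy, add_zero]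
    | smul r x _ hx => rw [coeff_smul, hx, smul_zero]
  refine ⟨monomial a2 1 * f1, I'.mul_mem_left _ hf1I, ?_, ?_⟩
  · rw [mem_support_iff, ← hadd, coeff_monomial_mul, one_mul, ← coeff_res, hf1p,
      eq_sub_of_add_eq hp, coeff_sub, coeff_monomial, if_pos rfl, hp2' _ hao]
    simp
  · intro b hb hba
    rw [mem_support_iff, coeff_monomial_mul'] at hb
    split_ifs at hb with hab
    swap
    · exact absurd rfl hb
    rw [one_mul] at hb
    set c := b - a2 with hc
    have hbc : a2 + c = b := add_tsub_cancel_of_le hab
    have hcD : c.degree = D := by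
      by_contra hne
      exact hb (hf1D.coeff_eq_zero hne)
    have hdeg : b.degree = a.degree := by
      rw [← hbc, ← hadd, map_add, map_add, hcD, ext_degree]
    refine Or.inr ⟨hdeg, ?_⟩
    have key : ∃ i, ext a1 i < c i ∧ ∀ j, i < j → c j = ext a1 j := by
      by_cases hc1 : ∀ i : Fin n, ¬ (i : ℕ) + d < n → c i = 0
      · have hcc : ext (resExp (d := d) c) = c := ext_resExp _ hc1
        have hne : resExp (d := d) c ≠ a1 := by
          intro heq
          apply hba
          rw [← hbc, ← hadd, ← hcc, heq]
        rw [← hcc, ← coeff_res, hf1p, eq_sub_of_add_eq hp, coeff_sub, coeff_monomial,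
          if_neg hne.symm, zero_sub, neg_ne_zero] at hb
        have hge : 2 * D - d ≤ resExp (d := d) c o := by
          by_contra hlt
          exact hb (hp2' _ (by omega))
        refine ⟨o.1, ?_, ?_⟩
        · rw [ext_apply_mem _ _ o.2]
          have : resExp (d := d) c o = c o.1 := rfl
          rw [this] at hge
          exact lt_of_lt_of_le hao hge
        · intro j hj
          have hj' : ¬ (j : ℕ) + d < n := by
            have : (o.1 : ℕ) < j := hj
            simp only [ho] at this
            omega
          rw [hc1 j hj', ext_apply_not_mem _ _ hj']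
      · push Not at hc1
        obtain ⟨i0, hi0, hi0'⟩ := hc1
        obtain ⟨i, hi, himax⟩ := Finset.exists_max_image
          (Finset.univ.filter (fun i : Fin n => ¬ (i : ℕ) + d < n ∧ c i ≠ 0)) id
          ⟨i0, by simp only [Finset.mem_filter, Finset.mem_univ, true_and]; exact ⟨by omega, hi0'⟩⟩
        simp only [Finset.mem_filter, Finset.mem_univ, true_and, id] at hi himax
        refine ⟨i, ?_, ?_⟩
        · rw [ext_apply_not_mem _ _ hi.1]
          exact Nat.pos_of_ne_zero hi.2
        · intro j hj
          have hj' : ¬ (j : ℕ) + d < n := by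
            have : (i : ℕ) < j := hj
            omega
          rw [ext_apply_not_mem _ _ hj']
          by_contra hcj
          exact absurd (himax j ⟨hj', hcj⟩) (not_le.mpr hj)
    obtain ⟨i, hi1, hi2⟩ := key
    refine ⟨i, ?_, ?_⟩
    · rw [← hbc, ← hadd, Finsupp.add_apply, Finsupp.add_apply]
      exact Nat.add_lt_add_left hi1 _
    · intro j hj
      rw [← hbc, ← hadd, Finsupp.add_apply, Finsupp.add_apply, hi2 j hj]

end Pool.Agent.KS
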