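import Pool.Agent.MP_dd083e_co.TaskT3

/-!
Task T: an injective continuous map from the realization of `L` to the sphere `S^(d-1)` gives a
system on the deleted join vanishing in dimension `d`.
-/

set_option autoImplicit false

namespace Pool.Agent.KS

namespace TaskT

variable {n d : ℕ}

/-! ### vertex lists -/

/-- the vertices of the simplex `(A, B)` of the deleted join -/
noncomputable def vtx (A : Finset (Fin n)) (v : Fin n) : Fin n → ℝ :=
  if v ∈ A then Pi.single v 1 else - Pi.single v 1

/-- the list of the vertices of the simplex `(A, B)` -/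
noncomputable def verts (A B : Finset (Fin n)) : List (Fin n → ℝ) :=
  ((A ∪ B).sort (· ≤ ·)).map (vtx A)

lemma verts_empty : verts (∅ : Finset (Fin n)) ∅ = [] := by
  simp [verts]

lemma verts_length (A B : Finset (Fin n)) : (verts A B).length = (A ∪ B).card := by
  simp [verts]

lemma verts_swap {A B : Finset (Fin n)} (h : Disjoint A B) :
    verts B A = (verts A B).map (fun x => -x) := by
  unfold verts
  rw [List.map_map, Finset.union_comm B A]
  apply List.map_congr_left
  intro v hv
  rw [Finset.mem_sort, Finset.mem_union] at hv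
  simp only [Function.comp, vtx]
  rcases hv with hv | hv
  · have : v ∉ B := Finset.disjoint_left.mp h hv
    rw [if_neg this, if_pos hv]
  · have : v ∉ A := Finset.disjoint_right.mp h hv
    rw [if_pos hv, if_neg this, neg_neg]

lemma dl_map_nodup {E : Type*} (h : Fin n → E) (g : List E → ZMod 2) (l : List (Fin n))
    (hl : l.Nodup) : dl g (l.map h) = ∑ v ∈ l.toFinset, g ((l.erase v).map h) := by
  induction l generalizing g with
  | nil => simp
  | cons x l ih =>
    rw [List.nodup_cons] at hl
    have hx : x ∉ l.toFinset := by simpa using hl.1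
    rw [List.map_cons, dl_cons, List.toFinset_cons, Finset.sum_insert hx, List.erase_cons_head,
      ih (fun l' => g (h x :: l')) hl.2]
    congr 1
    apply Finset.sum_congr rfl
    intro v hv
    have hne : x ≠ v := by
      rintro rfl
      exact hx hv
    rw [List.erase_cons_tail (by simpa using hne), List.map_cons]

lemma sort_erase (S : Finset (Fin n)) (v : Fin n) :
    (S.sort (· ≤ ·)).erase v = (S.erase v).sort (· ≤ ·) := by
  have hn : ((S.sort (· ≤ ·)).erase v).Nodup := (Finset.sort_nodup S (· ≤ ·)).erase v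
  have hs : ((S.sort (· ≤ ·)).erase v).Pairwise (· ≤ ·) :=
    (Finset.pairwise_sort S (· ≤ ·)).sublist List.erase_sublist
  have h1 := (List.toFinset_sort (· ≤ ·) hn).mpr hs
  rw [← h1]
  congr 1
  ext x
  rw [List.mem_toFinset, (Finset.sort_nodup S (· ≤ ·)).mem_erase_iff, Finset.mem_sort,
    Finset.mem_erase]

lemma dl_verts (g : List (Fin n → ℝ) → ZMod 2) {A B : Finset (Fin n)} (h : Disjoint A B) :
    dl g (verts A B) = ∑ v ∈ A, g (verts (A.erase v) B) + ∑ v ∈ B, g (verts A (B.erase v)) := by
  unfold verts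
  rw [dl_map_nodup _ _ _ (Finset.sort_nodup _ _), Finset.sort_toFinset,
    Finset.sum_union h]
  congr 1
  · apply Finset.sum_congr rfl
    intro v hv
    have hvB : v ∉ B := Finset.disjoint_left.mp h hv
    have e : (A ∪ B).erase v = A.erase v ∪ B := by
      rw [Finset.erase_union_distrib, Finset.erase_eq_of_notMem hvB]
    rw [sort_erase, e]
    congr 1
    apply List.map_congr_left
    intro u hu
    rw [Finset.mem_sort, Finset.mem_union] at hu
    unfold vtx
    by_cases huA : u ∈ A
    · have huv : u ≠ v := by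
        rintro rfl
        rcases hu with hu | hu
        · exact (Finset.notMem_erase u A) hu
        · exact hvB hu
      rw [if_pos huA, if_pos (Finset.mem_erase.mpr ⟨huv, huA⟩)]
    · rw [if_neg huA, if_neg (fun hh => huA (Finset.mem_of_mem_erase hh))]
  · apply Finset.sum_congr rfl
    intro v hv
    have hvA : v ∉ A := Finset.disjoint_right.mp h hv
    have e : (A ∪ B).erase v = A ∪ B.erase v := by
      rw [Finset.erase_union_distrib, Finset.erase_eq_of_notMem hvA]
    rw [sort_erase, e]

lemma verts_mem_cell {A B : Finset (Fin n)} (h : Disjoint A B) :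
    ∀ p ∈ verts A B, p ∈ cell A B := by
  intro p hp
  unfold verts at hp
  rw [List.mem_map] at hp
  obtain ⟨v, hv, rfl⟩ := hp
  rw [Finset.mem_sort, Finset.mem_union] at hv
  unfold vtx
  split_ifs with hvA
  · refine ⟨?_, ?_, ?_, ?_⟩
    · intro i _
      by_cases hiv : i = v
      · subst hiv; simp
      · simp [hiv]
    · intro i hi
      have : i ≠ v := by
        rintro rfl
        exact (Finset.disjoint_left.mp h hvA) hi
      simp [this]
    · intro i hiA _
      have : i ≠ v := by
        rintro rfl
        exact hiA hvA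
      simp [this]
    · rw [Finset.sum_eq_single v]
      · simp
      · intro i _ hi
        simp [hi]
      · simp
  · have hvB : v ∈ B := by
      rcases hv with hv | hv
      · exact absurd hv hvA
      · exact hv
    refine ⟨?_, ?_, ?_, ?_⟩
    · intro i hi
      have : i ≠ v := by
        rintro rfl
        exact hvA hi
      simp [this]
    · intro i _
      by_cases hiv : i = v
      · subst hiv; simp
      · simp [hiv]
    · intro i _ hiB
      have : i ≠ v := by
        rintro rfl
        exact hiB hvB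
      simp [this]
    · rw [Finset.sum_eq_single v]
      · simp
      · intro i _ hi
        simp [hi]
      · simp

lemma dist_cell_le {A B : Finset (Fin n)} {p q : Fin n → ℝ} (hp : p ∈ cell A B)
    (hq : q ∈ cell A B) : dist p q ≤ 2 := by
  rw [dist_pi_le_iff (by norm_num)]
  intro i
  have h1 := abs_le_one hp.2.2.2 i
  have h2 := abs_le_one hq.2.2.2 i
  rw [Real.dist_eq]
  have := abs_sub (p i) (q i)
  calc |p i - q i| ≤ |p i| + |q i| := abs_sub _ _
    _ ≤ 2 := by linarith

/-! ### labels -/

open Classical in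
/-- an index of a large coordinate -/
noncomputable def bigIdx (hd : 0 < d) (η : ℝ) (u : Fin d → ℝ) : Fin d :=
  if h : ∃ i, η ≤ u i then h.choose else ⟨0, hd⟩

lemma bigIdx_spec (hd : 0 < d) (η : ℝ) (u : Fin d → ℝ) (h : ∃ i, η ≤ u i) :
    η ≤ u (bigIdx hd η u) := by
  unfold bigIdx
  rw [dif_pos h]
  exact h.choose_spec

open Classical in
/-- the label of a point: `2 * index + sign` -/
noncomputable def lab (hd : 0 < d) (η : ℝ) (w : Fin d → ℝ) : ℕ :=
  2 * (bigIdx hd η (fun i => |w i|) : ℕ) +
    (if 0 < w (bigIdx hd η (fun i => |w i|)) then 1 else 0)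

lemma lab_lt (hd : 0 < d) (η : ℝ) (w : Fin d → ℝ) : lab hd η w < 2 * d := by
  unfold lab
  have := (bigIdx hd η (fun i => |w i|)).2
  split_ifs <;> omega

lemma lab_neg (hd : 0 < d) {η : ℝ} (hη : 0 < η) (w : Fin d → ℝ) (h : ∃ i, η ≤ |w i|) :
    lab hd η (-w) = flip (lab hd η w) := by
  have hs := bigIdx_spec hd η (fun i => |w i|) h
  unfold lab
  simp only [Pi.neg_apply, abs_neg]
  set i := bigIdx hd η (fun i => |w i|) with hi
  unfold flip
  rcases lt_trichotomy (w i) 0 with hw | hw | hw
  · have e1 : (if 0 < -w i then 1 else 0) = 1 := if_pos (by linarith)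
    have e2 : (if 0 < w i then 1 else 0) = 0 := if_neg (by linarith)
    rw [e1, e2, add_zero, if_pos (even_two_mul _)]
  · rw [hw, abs_zero] at hs
    linarith
  · have e1 : (if 0 < -w i then 1 else 0) = 0 := if_neg (by linarith)
    have e2 : (if 0 < w i then 1 else 0) = 1 := if_pos hw
    have e3 : ¬ Even (2 * (i : ℕ) + 1) := by
      rw [Nat.not_even_iff_odd]
      exact odd_two_mul_add_one _
    rw [e1, e2, if_neg e3]
    omega

lemma lab_close (hd : 0 < d) {η : ℝ} (hη : 0 < η) (w w' : Fin d → ℝ) (h : ∃ i, η ≤ |w i|)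
    (h' : ∃ i, η ≤ |w' i|) (hc : dist w w' < η) : flip (lab hd η w) ≠ lab hd η w' := by
  intro heq
  rw [← lab_neg hd hη w h] at heq
  have hs := bigIdx_spec hd η (fun i => |w i|) h
  have hs' := bigIdx_spec hd η (fun i => |w' i|) h'
  unfold lab at heq
  simp only [Pi.neg_apply, abs_neg] at heq
  set i := bigIdx hd η (fun i => |w i|) with hi
  set j := bigIdx hd η (fun i => |w' i|) with hj
  have hij : i = j := by
    apply Fin.ext
    split_ifs at heq <;> omega
  rw [← hij] at heq hs'
  have h1 : dist (w i) (w' i) < η := lt_of_le_of_lt (dist_le_pi_dist w w' i) hc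
  rw [Real.dist_eq, abs_lt] at h1
  by_cases hw : 0 < w i
  · rw [if_neg (by linarith)] at heq
    have hw' : ¬ 0 < w' i := by
      intro hw'
      rw [if_pos hw'] at heq
      omega
    rw [abs_of_pos hw] at hs
    rw [abs_of_nonpos (by linarith)] at hs'
    linarith
  · have hw0 : w i < 0 := by
      rcases lt_trichotomy (w i) 0 with h2 | h2 | h2
      · exact h2
      · rw [h2, abs_zero] at hs
        linarith
      · exact absurd h2 hw
    rw [if_pos (by linarith)] at heq
    have hw' : 0 < w' i := by
      by_contra hw'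
      rw [if_neg hw'] at heq
      omega
    rw [abs_of_neg hw0] at hs
    rw [abs_of_pos hw'] at hs'
    linarith

/-! ### the general statement for odd nonvanishing maps -/

theorem indexLT_of_odd (hd : 0 < d) (L : SComplex n) (Ψ : (Fin n → ℝ) → (Fin d → ℝ))
    (hcont : ContinuousOn Ψ (delJoin L)) (hodd : ∀ z ∈ delJoin L, Ψ (-z) = - Ψ z)
    (hne : ∀ z ∈ delJoin L, Ψ z ≠ 0) : IndexLT L d := by
  have hcomp := delJoin_compact L
  -- a lower bound for the norm
  obtain ⟨η, hη, hlow⟩ : ∃ η : ℝ, 0 < η ∧ ∀ z ∈ delJoin L, ∃ i, η ≤ |Ψ z i| := by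
    by_cases hX : (delJoin L).Nonempty
    · obtain ⟨z0, hz0, hmin⟩ := hcomp.exists_isMinOn hX hcont.norm
      have hpos : 0 < ‖Ψ z0‖ := norm_pos_iff.mpr (hne z0 hz0)
      refine ⟨‖Ψ z0‖, hpos, fun z hz => ?_⟩
      by_contra hcon
      push Not at hcon
      have h1 : ‖Ψ z‖ < ‖Ψ z0‖ := by
        rw [pi_norm_lt_iff hpos]
        intro i
        rw [Real.norm_eq_abs]
        exact hcon i
      have h2 : ‖Ψ z0‖ ≤ ‖Ψ z‖ := hmin hz
      linarith
    · exact ⟨1, one_pos, fun z hz => absurd ⟨z, hz⟩ hX⟩
  -- uniform continuity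
  obtain ⟨δ, hδ, huc⟩ := Metric.uniformContinuousOn_iff.mp
    (hcomp.uniformContinuousOn_of_continuous hcont) η hη
  -- mesh
  set N : ℕ := n + 1 with hN
  obtain ⟨r, hr⟩ : ∃ r : ℕ, (1 - 1 / (N : ℝ)) ^ r * 2 < δ := by
    have h1 : (1 - 1 / (N : ℝ)) < 1 := by
      have : (0 : ℝ) < 1 / N := by rw [hN]; positivity
      linarith
    have h0 : 0 ≤ (1 - 1 / (N : ℝ)) := by
      have : (1 : ℝ) / N ≤ 1 := by
        rw [div_le_one (by rw [hN]; positivity)]
        rw [hN]; push_cast; linarith [(Nat.cast_nonneg n : (0 : ℝ) ≤ n)]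
      linarith
    obtain ⟨r, hr⟩ := exists_pow_lt_of_lt_one (show 0 < δ / 2 by linarith) h1
    exact ⟨r, by linarith⟩
  set Lb : (Fin n → ℝ) → ℕ := fun z => lab hd η (Ψ z) with hLb
  set F : List (Fin n → ℝ) → ZMod 2 := fun l => fan (l.map Lb) with hF
  -- properties of fine lists
  have hfine : ∀ l : List (Fin n → ℝ), (∀ p ∈ l, p ∈ delJoin L) →
      (∀ p ∈ l, ∀ q ∈ l, dist p q ≤ (1 - 1 / (N : ℝ)) ^ r * 2) →
      ∀ m ∈ l.map Lb, ∀ m' ∈ l.map Lb, flip m ≠ m' := by
    intro l hl hdist m hm m' hm'
    rw [List.mem_map] at hm hm'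
    obtain ⟨p, hp, rfl⟩ := hm
    obtain ⟨q, hq, rfl⟩ := hm'
    apply lab_close hd hη _ _ (hlow p (hl p hp)) (hlow q (hl q hq))
    exact huc p (hl p hp) q (hl q hq) (lt_of_le_of_lt (hdist p hp q hq) hr)
  have hneg : ∀ l : List (Fin n → ℝ), (∀ p ∈ l, p ∈ delJoin L) →
      (l.map (fun x => -x)).map Lb = (l.map Lb).map flip := by
    intro l hl
    rw [List.map_map, List.map_map]
    apply List.map_congr_left
    intro p hp
    simp only [Function.comp, hLb]
    rw [hodd p (hl p hp), lab_neg hd hη _ (hlow p (hl p hp))]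
  have hbneg : ∀ l : List (Fin n → ℝ), l ≠ [] →
      bary (l.map (fun x => -x)) = (fun x => -x) (bary l) := fun l _ => bary_map_neg l
  refine ⟨fun A B => (sd bary)^[r] F (verts A B), ⟨?_, ?_⟩, ?_⟩
  · simp only [verts_empty, sd_iter_nil]
    exact fan_nil
  · intro A hA B hB hAB hne'
    rw [← dl_verts _ hAB, ← sd_iter_dl, verts_swap hAB]
    have h1 := congrFun (sd_iter_map bary r (fun x => -x) hbneg F) (verts A B)
    rw [← h1]
    have h2 := congrFun (sd_iter_add bary r F (fun l' => F (l'.map (fun x => -x)))) (verts A B)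
    rw [← h2]
    have hlen : (verts A B).length ≤ N := by
      rw [verts_length, hN]
      have := Finset.card_le_univ (A ∪ B)
      rw [Fintype.card_fin] at this
      omega
    have hcell := verts_mem_cell hAB
    apply sd_iter_congr N (cell_convex A B) r (δ := 2) (by norm_num) (by omega) hlen hcell
      (fun p hp q hq => dist_cell_le (hcell p hp) (hcell q hq))
    intro l' hlen' hmem' hdist'
    have hmem'' : ∀ p ∈ l', p ∈ delJoin L := fun p hp => cell_subset L hA hB (hmem' p hp)
    have hl'ne : l' ≠ [] := by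
      intro h
      rw [h, verts_length] at hlen'
      simp only [List.length_nil] at hlen'
      have := Finset.card_pos.mpr hne'
      omega
    have h3 : dl F l' = dl fan (l'.map Lb) := dl_map Lb fan l'
    rw [h3, ← fan_rel (by simpa using hl'ne) (hfine l' hmem'' hdist'), ← hneg l' hmem'']
  · intro A hA B hB hAB hcard
    simp only
    have hlen0 : (verts A B).length = d + 1 := by
      rw [verts_length, Finset.card_union_of_disjoint hAB, hcard]
    have hlen : (verts A B).length ≤ N := by
      rw [verts_length, hN]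
      have := Finset.card_le_univ (A ∪ B)
      rw [Fintype.card_fin] at this
      omega
    have hcell := verts_mem_cell hAB
    have h1 : (sd bary)^[r] F (verts A B) = (sd bary)^[r] (fun _ => (0 : ZMod 2)) (verts A B) := by
      apply sd_iter_congr N (cell_convex A B) r (δ := 2) (by norm_num) (by omega) hlen hcell
        (fun p hp q hq => dist_cell_le (hcell p hp) (hcell q hq))
      intro l' hlen' hmem' hdist'
      have hmem'' : ∀ p ∈ l', p ∈ delJoin L := fun p hp => cell_subset L hA hB (hmem' p hp)
      apply fan_long (d := d)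
      · rw [List.length_map, hlen', hlen0]
      · intro m hm
        rw [List.mem_map] at hm
        obtain ⟨p, _, rfl⟩ := hm
        exact lab_lt hd η _
      · exact hfine l' hmem'' hdist'
    rw [h1, sd_iter_zero]

end TaskT

theorem indexLT_of_injective {n d : ℕ} (hd : 0 < d) (L : SComplex n)
    (f : L.realization → EuclideanSpace ℝ (Fin d)) (hf : Continuous f)
    (hinj : Function.Injective f) (hnorm : ∀ x, ‖f x‖ = 1) : IndexLT L d := by
  apply TaskT.indexLT_of_odd hd L (fun z i => TaskT.oddMap L f z i)
  · rw [continuousOn_pi]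
    intro i
    exact (EuclideanSpace.proj (𝕜 := ℝ) i).continuous.comp_continuousOn
      (TaskT.continuousOn_oddMap hf hnorm)
  · intro z _
    funext i
    rw [TaskT.oddMap_neg]
    rfl
  · intro z hz h
    apply TaskT.oddMap_ne_zero hinj hnorm hz
    ext i
    exact congrFun h i

end Pool.Agent.KS
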