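import Pool.Agent.MP_dd083e_co.EStep
import Pool.Agent.MP_dd083e_co.TaskG
import Pool.Agent.MP_dd083e_co.TaskE
import Pool.Agent.MP_dd083e_co.TaskN
import Pool.Agent.MP_dd083e_co.TaskT
import Pool.Agent.MP_dd083e_co.TaskF

set_option autoImplicit false

universe u

namespace Pool.Agent.KS

open MvPolynomial

theorem card_aux {n d : ℕ} (hn : d ≤ n) : Fintype.card {i : Fin n // (i : ℕ) + d < n} + d = n := by
  rw [Fintype.card_subtype]
  have : (Finset.univ.filter (fun i : Fin n => (i : ℕ) + d < n)).card = n - d := by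
    rw [← Finset.card_range (n - d)]
    refine Finset.card_bij (fun i _ => (i : ℕ)) ?_ ?_ ?_
    · intro i hi
      rw [Finset.mem_filter] at hi
      rw [Finset.mem_range]
      omega
    · intro i _ j _ h
      exact Fin.ext h
    · intro b hb
      rw [Finset.mem_range] at hb
      exact ⟨⟨b, by omega⟩, by rw [Finset.mem_filter]; exact ⟨Finset.mem_univ _, by simp only; omega⟩, rfl⟩
  rw [this]
  omega

theorem transfer_aux {n : ℕ} {k : Type u} [Field k] [CharZero k] {q : Fin n → Prop}
    (Δ : MvPolynomial ({i : Fin n // q i} × Fin n) ℤ) (hΔ : Δ ≠ 0) :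
    ∃ P : MvPolynomial (Fin n × Fin n) k, P ≠ 0 ∧ ∀ g : Matrix (Fin n) (Fin n) k,
      eval (fun q => g q.1 q.2) P = aeval (fun r : {i : Fin n // q i} × Fin n => g r.1.1 r.2) Δ := by
  refine ⟨rename (fun r : {i : Fin n // q i} × Fin n => (r.1.1, r.2)) (map (Int.castRingHom k) Δ),
    ?_, ?_⟩
  · intro h
    apply hΔ
    have hinj : Function.Injective (fun r : {i : Fin n // q i} × Fin n => (r.1.1, r.2)) := by
      rintro ⟨⟨a, ha⟩, b⟩ ⟨⟨a', ha'⟩, b'⟩ h
      simp only [Prod.mk.injEq] at h
      obtain ⟨rfl, rfl⟩ := h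
      rfl
    have h1 := rename_injective _ hinj (h.trans (map_zero _).symm)
    exact map_injective (Int.castRingHom k) (RingHom.injective_int _) (h1.trans (map_zero _).symm)
  · intro g
    rw [eval_rename, eval_map, aeval_def]
    rfl

/-! ### final theorem -/
theorem kalai_sarkaria : KalaiSarkaria.{u} := by
  intro k _ _ m n hn L hL
  have key : ∀ K : SComplex n, IndexLT K (m + 1) → ∀ a : Fin n →₀ ℕ, m + 1 < wt (m + 1) a →
      a ∈ ginExps (K.stanleyReisner k) := by
    intro K hK a ha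
    have hcard : Fintype.card {i : Fin n // (i : ℕ) + (m + 1) < n} + (m + 1) = n :=
      card_aux (by omega)
    have hD : ∀ D, ∃ P : MvPolynomial (Fin n × Fin n) k, P ≠ 0 ∧ (m + 1 < 2 * D →
        ∀ g : Matrix (Fin n) (Fin n) k, eval (fun q => g q.1 q.2) P ≠ 0 →
          Spans K (m + 1) D (⟨⟨n - (m + 1) - 1, by omega⟩, by simp only; omega⟩ :
            {i : Fin n // (i : ℕ) + (m + 1) < n}) k (fun i v => g i.1 v)) := by
      intro D
      by_cases hD : m + 1 < 2 * D
      · obtain ⟨Δ, hΔ, h⟩ := generic_spans K hK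
          (⟨⟨n - (m + 1) - 1, by omega⟩, by simp only; omega⟩ :
            {i : Fin n // (i : ℕ) + (m + 1) < n}) hcard D hD
        obtain ⟨P, hP, hP'⟩ := transfer_aux (k := k) Δ hΔ
        refine ⟨P, hP, fun _ g hg => h k (fun i v => g i.1 v) ?_⟩
        rw [hP' g] at hg
        exact hg
      · exact ⟨1, one_ne_zero, fun h => absurd h hD⟩
    choose P hP0 hP using hD
    refine ⟨∏ D ∈ Finset.range (a.degree + 1), P D, ?_, ?_⟩
    · exact Finset.prod_ne_zero_iff.mpr fun D _ => hP0 D
    · intro g hg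
      refine leading_of_spans (by omega) K k g a ha ?_
      intro D hD1 hD2
      refine hP D hD1 g ?_
      rw [map_prod] at hg
      exact Finset.prod_ne_zero_iff.mp hg D (Finset.mem_range.mpr (by omega))
  obtain ⟨f, hf, hnorm⟩ := hL
  have h1 : IndexLT L (m + 1) :=
    indexLT_of_injective (Nat.succ_pos m) L f hf.continuous hf.injective hnorm
  obtain ⟨fc, hc1, hc2, hc3⟩ := cyclic_sphere (m + 1) n (by omega) (by omega)
  have h2 : IndexLT (cyclicBoundary (m + 1) n) (m + 1) :=
    indexLT_of_injective (Nat.succ_pos m) _ fc hc1 hc2 hc3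
  rintro F ⟨a, ha, hF⟩
  refine ⟨a, ?_, hF⟩
  intro hcon
  exact ha (key L h1 a (gin_cyclic (by omega) k (key _ h2) a hcon))

end Pool.Agent.KS

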