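import Pool.Agent.MP_dd083e_co.Cyc

set_option autoImplicit false

namespace Pool.Agent.KS

/-- the 0-1 matrix of a coloring -/
def ind {σ : Type} [DecidableEq σ] {n : ℕ} (χ : Fin n → σ) (i : σ) (v : Fin n) : ZMod 2 :=
  if χ v = i then 1 else 0

end Pool.Agent.KS
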