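import Pool.Agent.MP_dd083e_co.Ind

set_option autoImplicit false

/-! The evaluation half of the extraction step: an additive operator, linear over squares, which
evaluates column-multilinear elements at the 0-1 matrix of a coloring. -/

namespace Pool.Agent.KS.P3eval

open MvPolynomial

/-! ### naturality of `Qf` -/

section nat

variable {σ : Type} [Fintype σ] [DecidableEq σ] {n : ℕ}
variable {R : Type} [CommRing R] {R' : Type} [CommRing R']

theorem map_lform (f : R →+* R') (g : σ → Fin n → R) (v : Fin n) :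
    map f (lform g v) = lform (fun i v => f (g i v)) v := by
  unfold lform
  rw [map_sum]
  refine Finset.sum_congr rfl fun i _ => ?_
  rw [map_mul, map_C, map_X]

theorem map_Lam (f : R →+* R') (o : σ) (g : σ → Fin n → R) (D : ℕ) (a : σ →₀ ℕ)
    (A : Finset (Fin n)) :
    f (Lam o g D (lcoeff R a) A) = Lam o (fun i v => f (g i v)) D (lcoeff R' a) A := by
  unfold Lam
  split_ifs
  · rw [lcoeff_apply, lcoeff_apply, ← coeff_map, map_mul, map_pow, map_X, map_prod]
    simp_rw [map_lform]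
  · exact map_zero f

theorem map_br (f : R →+* R') (o : σ) (g : σ → Fin n → R) (U : Finset (Fin n)) :
    f (br o g U) = br o (fun i v => f (g i v)) U := by
  unfold br
  rw [map_sum]
  refine Finset.sum_congr rfl fun τ _ => ?_
  split_ifs
  · rw [map_prod]
  · exact map_zero f

theorem map_cyc (f : R →+* R') (o : σ) (g : σ → Fin n → R) (d D : ℕ) (a b : σ →₀ ℕ)
    (A B : Finset (Fin n)) :
    f (cyc o g d D (lcoeff R a) (lcoeff R b) A B) =
      cyc o (fun i v => f (g i v)) d D (lcoeff R' a) (lcoeff R' b) A B := by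
  unfold cyc
  split_ifs
  · rw [map_mul, map_mul, map_br, map_Lam, map_Lam]
  · exact map_zero f

theorem map_Qf [Algebra (ZMod 2) R] [Algebra (ZMod 2) R'] (f : R →ₐ[ZMod 2] R') (o : σ)
    (g : σ → Fin n → R) (d D : ℕ) (a b : σ →₀ ℕ) :
    f (Qf o g d D (lcoeff R a) (lcoeff R b)) =
      Qf o (fun i v => f (g i v)) d D (lcoeff R' a) (lcoeff R' b) := by
  unfold Qf
  rw [map_sum]
  refine Finset.sum_congr rfl fun A _ => ?_
  rw [map_sum]
  refine Finset.sum_congr rfl fun B _ => ?_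
  rw [map_smul]
  congr 1
  exact map_cyc (f : R →+* R') o g d D a b A B

end nat

/-! ### the operators -/

section ops

variable {σ : Type} [Fintype σ] [DecidableEq σ] {n : ℕ}

/-- substitution of the coloring in the columns in `W` -/
noncomputable def sub (χ : Fin n → σ) (W : Finset (Fin n)) :
    MvPolynomial (σ × Fin n) (ZMod 2) →ₐ[ZMod 2] MvPolynomial (σ × Fin n) (ZMod 2) :=
  aeval (fun p : σ × Fin n => if p.2 ∈ W then C (ind χ p.1 p.2) else X p)

theorem sub_X (χ : Fin n → σ) (W : Finset (Fin n)) (p : σ × Fin n) :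
    sub χ W (X p) = if p.2 ∈ W then C (ind χ p.1 p.2) else X p := by
  unfold sub; rw [aeval_X]

theorem sub_C (χ : Fin n → σ) (W : Finset (Fin n)) (c : ZMod 2) :
    sub χ W (C c) = C c := by
  unfold sub; rw [aeval_C]; rfl

theorem pderiv_sub (χ : Fin n → σ) (W : Finset (Fin n)) (v : Fin n) (hv : v ∉ W)
    (P : MvPolynomial (σ × Fin n) (ZMod 2)) :
    pderiv (χ v, v) (sub χ W P) = sub χ W (pderiv (χ v, v) P) := by
  induction P using MvPolynomial.induction_on with
  | C c => rw [sub_C, pderiv_C, map_zero]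
  | add P Q hP hQ => rw [map_add, map_add, map_add, map_add, hP, hQ]
  | mul_X P p hP =>
    rw [map_mul, Derivation.leibniz, Derivation.leibniz, hP, map_add, smul_eq_mul, smul_eq_mul,
      smul_eq_mul, smul_eq_mul, map_mul, map_mul]
    congr 1
    rw [sub_X]
    congr 1
    split_ifs with h
    · rw [pderiv_C, pderiv_X_of_ne, map_zero]
      rintro rfl
      exact hv h
    · by_cases hp : p = (χ v, v)
      · subst hp
        rw [pderiv_X_self, map_one]
      · rw [pderiv_X_of_ne hp, map_zero]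

theorem sub_sub (χ : Fin n → σ) (W : Finset (Fin n)) (v : Fin n)
    (P : MvPolynomial (σ × Fin n) (ZMod 2)) :
    sub χ W (sub χ {v} P) = sub χ (insert v W) P := by
  have : (sub χ W).comp (sub χ {v}) = sub χ (insert v W) := by
    apply MvPolynomial.algHom_ext
    intro p
    rw [AlgHom.comp_apply, sub_X, sub_X]
    by_cases h1 : p.2 = v
    · rw [if_pos (by simp [h1]), if_pos (by simp [h1]), sub_C]
    · rw [if_neg (by simp [h1]), sub_X]
      simp [h1]
  rw [← this]; rfl

theorem sub_empty (χ : Fin n → σ) (P : MvPolynomial (σ × Fin n) (ZMod 2)) :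
    sub χ ∅ P = P := by
  have : sub χ ∅ = AlgHom.id (ZMod 2) (MvPolynomial (σ × Fin n) (ZMod 2)) := by
    apply MvPolynomial.algHom_ext
    intro p
    rw [sub_X]
    simp
  rw [this]; rfl

/-- degree 0 in the column `v` -/
def L0 (χ : Fin n → σ) (v : Fin n) (P : MvPolynomial (σ × Fin n) (ZMod 2)) : Prop :=
  pderiv (χ v, v) P = 0 ∧ sub χ {v} P = P

/-- degree 1 in the column `v` -/
def L1 (χ : Fin n → σ) (v : Fin n) (P : MvPolynomial (σ × Fin n) (ZMod 2)) : Prop :=
  pderiv (χ v, v) P = sub χ {v} P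

variable {χ : Fin n → σ} {v : Fin n}

theorem L0_C (c : ZMod 2) : L0 χ v (C c) := ⟨pderiv_C, sub_C _ _ _⟩

theorem L0_zero : L0 χ v 0 := ⟨map_zero _, map_zero _⟩

theorem L0_one : L0 χ v 1 := by
  have := L0_C (χ := χ) (v := v) 1
  rwa [C_1] at this

theorem L0_X (p : σ × Fin n) (hp : p.2 ≠ v) : L0 χ v (X p) := by
  refine ⟨pderiv_X_of_ne ?_, ?_⟩
  · rintro rfl; exact hp rfl
  · rw [sub_X, if_neg (by simpa using hp)]

theorem L1_X (i : σ) : L1 χ v (X (i, v)) := by
  unfold L1
  rw [sub_X, if_pos (by simp)]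
  unfold ind
  by_cases h : χ v = i
  · subst h
    rw [pderiv_X_self, if_pos rfl, C_1]
  · rw [pderiv_X_of_ne, if_neg h, C_0]
    intro h2
    exact h (congrArg Prod.fst h2).symm

theorem L0.add {P Q : MvPolynomial (σ × Fin n) (ZMod 2)} (hP : L0 χ v P) (hQ : L0 χ v Q) :
    L0 χ v (P + Q) := ⟨by rw [map_add, hP.1, hQ.1, add_zero], by rw [map_add, hP.2, hQ.2]⟩

theorem L0.mul {P Q : MvPolynomial (σ × Fin n) (ZMod 2)} (hP : L0 χ v P) (hQ : L0 χ v Q) :
    L0 χ v (P * Q) :=
  ⟨by rw [Derivation.leibniz, hP.1, hQ.1, smul_zero, smul_zero, add_zero],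
    by rw [map_mul, hP.2, hQ.2]⟩

theorem L1_zero : L1 χ v 0 := by unfold L1; rw [map_zero, map_zero]

theorem L1.add {P Q : MvPolynomial (σ × Fin n) (ZMod 2)} (hP : L1 χ v P) (hQ : L1 χ v Q) :
    L1 χ v (P + Q) := by
  unfold L1 at *
  rw [map_add, hP, hQ, map_add]

theorem L1.mul_left {P Q : MvPolynomial (σ × Fin n) (ZMod 2)} (hP : L0 χ v P) (hQ : L1 χ v Q) :
    L1 χ v (P * Q) := by
  unfold L1 at *
  rw [Derivation.leibniz, hP.1, hQ, smul_zero, add_zero, map_mul, hP.2, smul_eq_mul]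

theorem L1.mul_right {P Q : MvPolynomial (σ × Fin n) (ZMod 2)} (hP : L1 χ v P) (hQ : L0 χ v Q) :
    L1 χ v (P * Q) := by
  rw [mul_comm]; exact L1.mul_left hQ hP

theorem L0_sum {ι : Type*} (s : Finset ι) (f : ι → MvPolynomial (σ × Fin n) (ZMod 2))
    (h : ∀ i ∈ s, L0 χ v (f i)) : L0 χ v (∑ i ∈ s, f i) := by
  classical
  induction s using Finset.induction_on with
  | empty => exact L0_zero
  | insert a s ha ih =>
    rw [Finset.sum_insert ha]
    exact (h a (Finset.mem_insert_self _ _)).add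
      (ih fun i hi => h i (Finset.mem_insert_of_mem hi))

theorem L0_prod {ι : Type*} (s : Finset ι) (f : ι → MvPolynomial (σ × Fin n) (ZMod 2))
    (h : ∀ i ∈ s, L0 χ v (f i)) : L0 χ v (∏ i ∈ s, f i) := by
  classical
  induction s using Finset.induction_on with
  | empty => exact L0_one
  | insert a s ha ih =>
    rw [Finset.prod_insert ha]
    exact (h a (Finset.mem_insert_self _ _)).mul
      (ih fun i hi => h i (Finset.mem_insert_of_mem hi))

theorem L1_sum {ι : Type*} (s : Finset ι) (f : ι → MvPolynomial (σ × Fin n) (ZMod 2))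
    (h : ∀ i ∈ s, L1 χ v (f i)) : L1 χ v (∑ i ∈ s, f i) := by
  classical
  induction s using Finset.induction_on with
  | empty => exact L1_zero
  | insert a s ha ih =>
    rw [Finset.sum_insert ha]
    exact (h a (Finset.mem_insert_self _ _)).add
      (ih fun i hi => h i (Finset.mem_insert_of_mem hi))

theorem exists_op (χ : Fin n → σ) (W : Finset (Fin n)) :
    ∃ T : MvPolynomial (σ × Fin n) (ZMod 2) →+ MvPolynomial (σ × Fin n) (ZMod 2),
      (∀ s q, T (s * s * q) = s * s * T q) ∧ ∀ P, (∀ v, L1 χ v P) → T P = sub χ W P := by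
  induction W using Finset.induction_on with
  | empty => exact ⟨AddMonoidHom.id _, fun _ _ => rfl, fun P _ => (sub_empty χ P).symm⟩
  | insert v W hv ih =>
    obtain ⟨T, hT1, hT2⟩ := ih
    refine ⟨(pderiv (χ v, v)).toLinearMap.toAddMonoidHom.comp T, ?_, ?_⟩
    · intro s q
      change pderiv (χ v, v) (T (s * s * q)) = s * s * pderiv (χ v, v) (T q)
      rw [hT1, Derivation.leibniz, Derivation.leibniz]
      have : s • pderiv (χ v, v) s + s • pderiv (χ v, v) s = 0 := add_self_zmod2 _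
      rw [this, smul_zero, add_zero, smul_eq_mul]
    · intro P hP
      change pderiv (χ v, v) (T P) = _
      rw [hT2 P hP, pderiv_sub χ W v hv, hP v, sub_sub]

/-! ### column multilinearity of the chain -/

theorem L0_br (o : σ) (U : Finset (Fin n)) (hv : v ∉ U) :
    L0 χ v (br o (fun i w => (X (i, w) : MvPolynomial (σ × Fin n) (ZMod 2))) U) := by
  unfold br
  refine L0_sum _ _ fun τ _ => ?_
  split_ifs with h
  · refine L0_prod _ _ fun i _ => L0_X _ ?_
    rintro rfl
    apply hv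
    rw [← h.2]
    exact Finset.mem_image_of_mem _ (Finset.mem_univ _)
  · exact L0_zero

theorem L1_br (o : σ) (U : Finset (Fin n)) (hv : v ∈ U) :
    L1 χ v (br o (fun i w => (X (i, w) : MvPolynomial (σ × Fin n) (ZMod 2))) U) := by
  unfold br
  refine L1_sum _ _ fun τ _ => ?_
  split_ifs with h
  · have h2 : v ∈ Finset.univ.image τ := by rw [h.2]; exact hv
    obtain ⟨j, _, rfl⟩ := Finset.mem_image.mp h2
    rw [← Finset.mul_prod_erase Finset.univ _ (Finset.mem_univ j)]
    refine (L1_X j.1).mul_right (L0_prod _ _ fun i hi => L0_X _ ?_)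
    intro h3
    exact Finset.ne_of_mem_erase hi (h.1 h3)
  · exact L1_zero

/-- all coefficients have degree 0 in the column `v` -/
def P0 (χ : Fin n → σ) (v : Fin n)
    (P : MvPolynomial σ (MvPolynomial (σ × Fin n) (ZMod 2))) : Prop :=
  ∀ a, L0 χ v (coeff a P)

/-- all coefficients have degree 1 in the column `v` -/
def P1 (χ : Fin n → σ) (v : Fin n)
    (P : MvPolynomial σ (MvPolynomial (σ × Fin n) (ZMod 2))) : Prop :=
  ∀ a, L1 χ v (coeff a P)

theorem P0.mul {P Q : MvPolynomial σ (MvPolynomial (σ × Fin n) (ZMod 2))} (hP : P0 χ v P)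
    (hQ : P0 χ v Q) : P0 χ v (P * Q) := by
  intro a
  rw [coeff_mul]
  exact L0_sum _ _ fun x _ => (hP _).mul (hQ _)

theorem P1.mul_right {P Q : MvPolynomial σ (MvPolynomial (σ × Fin n) (ZMod 2))} (hP : P1 χ v P)
    (hQ : P0 χ v Q) : P1 χ v (P * Q) := by
  intro a
  rw [coeff_mul]
  exact L1_sum _ _ fun x _ => (hP _).mul_right (hQ _)

theorem P0_one : P0 χ v 1 := by
  intro a
  rw [coeff_one]
  split_ifs
  · exact L0_one
  · exact L0_zero

theorem P0_prod {ι : Type*} (s : Finset ι)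
    (f : ι → MvPolynomial σ (MvPolynomial (σ × Fin n) (ZMod 2)))
    (h : ∀ i ∈ s, P0 χ v (f i)) : P0 χ v (∏ i ∈ s, f i) := by
  classical
  induction s using Finset.induction_on with
  | empty => exact P0_one
  | insert a s ha ih =>
    rw [Finset.prod_insert ha]
    exact (h a (Finset.mem_insert_self _ _)).mul
      (ih fun i hi => h i (Finset.mem_insert_of_mem hi))

theorem P0_X_pow (o : σ) (m : ℕ) : P0 χ v (X o ^ m) := by
  intro a
  rw [coeff_X_pow]
  split_ifs
  · exact L0_one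
  · exact L0_zero

theorem P0_lform (w : Fin n) (hw : w ≠ v) :
    P0 χ v (lform (fun i w => (X (i, w) : MvPolynomial (σ × Fin n) (ZMod 2))) w) := by
  intro a
  unfold lform
  rw [coeff_sum]
  refine L0_sum _ _ fun i _ => ?_
  rw [coeff_C_mul, coeff_X']
  split_ifs
  · rw [mul_one]; exact L0_X _ hw
  · rw [mul_zero]; exact L0_zero

theorem P1_lform :
    P1 χ v (lform (fun i w => (X (i, w) : MvPolynomial (σ × Fin n) (ZMod 2))) v) := by
  intro a
  unfold lform
  rw [coeff_sum]
  refine L1_sum _ _ fun i _ => ?_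
  rw [coeff_C_mul, coeff_X']
  split_ifs
  · rw [mul_one]; exact L1_X _
  · rw [mul_zero]; exact L1_zero

theorem L0_Lam (o : σ) (D : ℕ) (a : σ →₀ ℕ) (A : Finset (Fin n)) (hv : v ∉ A) :
    L0 χ v (Lam o (fun i w => (X (i, w) : MvPolynomial (σ × Fin n) (ZMod 2))) D
      (lcoeff _ a) A) := by
  unfold Lam
  split_ifs
  · rw [lcoeff_apply]
    refine ((P0_X_pow _ _).mul (P0_prod _ _ fun w hw => P0_lform w ?_)) a
    rintro rfl
    exact hv hw
  · exact L0_zero

theorem L1_Lam (o : σ) (D : ℕ) (a : σ →₀ ℕ) (A : Finset (Fin n)) (hv : v ∈ A) :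
    L1 χ v (Lam o (fun i w => (X (i, w) : MvPolynomial (σ × Fin n) (ZMod 2))) D
      (lcoeff _ a) A) := by
  unfold Lam
  split_ifs
  · rw [lcoeff_apply, ← Finset.mul_prod_erase A _ hv,
      show ∀ P Q S : MvPolynomial σ (MvPolynomial (σ × Fin n) (ZMod 2)),
        P * (Q * S) = Q * (P * S) by intros; ring]
    refine (P1_lform.mul_right
      ((P0_X_pow _ _).mul (P0_prod _ _ fun w hw => P0_lform w ?_))) a
    exact Finset.ne_of_mem_erase hw
  · exact L1_zero

theorem L1_cyc (o : σ) (d D : ℕ) (a b : σ →₀ ℕ) (A B : Finset (Fin n)) :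
    L1 χ v (cyc o (fun i w => (X (i, w) : MvPolynomial (σ × Fin n) (ZMod 2))) d D
      (lcoeff _ a) (lcoeff _ b) A B) := by
  unfold cyc
  split_ifs with h
  · by_cases hA : v ∈ A
    · have hB : v ∉ B := Finset.disjoint_left.mp h.1 hA
      refine L1.mul_left (L0_br _ _ ?_) ((L1_Lam _ _ _ _ hA).mul_right (L0_Lam _ _ _ _ hB))
      simp [hA]
    · by_cases hB : v ∈ B
      · refine L1.mul_left (L0_br _ _ ?_) (L1.mul_left (L0_Lam _ _ _ _ hA) (L1_Lam _ _ _ _ hB))
        simp [hB]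
      · refine L1.mul_right (L1_br _ _ ?_) ((L0_Lam _ _ _ _ hA).mul (L0_Lam _ _ _ _ hB))
        simp [hA, hB]
  · exact L1_zero

theorem L1_Qf (o : σ) (d D : ℕ) (a b : σ →₀ ℕ) :
    L1 χ v (Qf o (fun i w => (X (i, w) : MvPolynomial (σ × Fin n) (ZMod 2))) d D
      (lcoeff _ a) (lcoeff _ b)) := by
  unfold Qf
  refine L1_sum _ _ fun A _ => L1_sum _ _ fun B _ => ?_
  rw [smul_eq_C_mul]
  exact L1.mul_left (L0_C _) (L1_cyc o d D a b A B)

theorem sub_univ_Qf (χ : Fin n → σ) (o : σ) (d D : ℕ) (a b : σ →₀ ℕ) :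
    sub χ Finset.univ (Qf o (fun i w => (X (i, w) : MvPolynomial (σ × Fin n) (ZMod 2))) d D
      (lcoeff _ a) (lcoeff _ b)) =
      C (Qf o (ind χ) d D (lcoeff (ZMod 2) a) (lcoeff (ZMod 2) b)) := by
  have h1 := map_Qf (sub χ Finset.univ) o
    (fun i w => (X (i, w) : MvPolynomial (σ × Fin n) (ZMod 2))) d D a b
  have h2 := map_Qf (Algebra.ofId (ZMod 2) (MvPolynomial (σ × Fin n) (ZMod 2))) o
    (ind χ) d D a b
  rw [h1]
  refine Eq.trans ?_ h2.symm
  congr 1
  funext i w
  rw [sub_X, if_pos (Finset.mem_univ _)]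
  rfl

end ops

/-- The extractor. -/
theorem exists_extractor {σ : Type} [Fintype σ] [DecidableEq σ] {n : ℕ} (o : σ)
    (χ : Fin n → σ) (d D : ℕ) :
    ∃ T : MvPolynomial (σ × Fin n) (ZMod 2) →+ MvPolynomial (σ × Fin n) (ZMod 2),
      (∀ s q, T (s * s * q) = s * s * T q) ∧
      ∀ a : σ →₀ ℕ, T (Qf o (fun i v => (X (i, v) : MvPolynomial (σ × Fin n) (ZMod 2))) d D
        (lcoeff _ a) (lcoeff _ a)) =
        C (Qf o (ind χ) d D (lcoeff (ZMod 2) a) (lcoeff (ZMod 2) a)) := by
  obtain ⟨T, hT1, hT2⟩ := exists_op χ Finset.univ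
  refine ⟨T, hT1, fun a => ?_⟩
  rw [hT2 _ fun v => L1_Qf o d D a a, sub_univ_Qf]

end Pool.Agent.KS.P3eval
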