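import Pool.Agent.MP_dd083e_co.Transfer

set_option autoImplicit false

/-! Section 4 of the proof: from `ω^(e-1) λ = 0` to `λ = 0`. -/

universe u

namespace Pool.Agent.KS.Section4

open MvPolynomial Pool.Agent.KS.Transfer

/-- the coefficient ring -/
abbrev Rg (σ : Type) (n : ℕ) : Type := MvPolynomial (σ × Fin n) (ZMod 2)

/-- `lam` kills the degree `D` part of `J`. -/
def KillsJ {n : ℕ} (L : SComplex n) {σ : Type} [Fintype σ] (D : ℕ)
    (lam : MvPolynomial σ (Rg σ n) →ₗ[Rg σ n] Rg σ n) : Prop :=
  ∀ A : Finset (Fin n), A ∉ L.faces → ∀ b : σ →₀ ℕ, A.card + b.degree = D →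
    lam ((∏ v ∈ A, lform (gmat σ n) v) * monomial b 1) = 0

/-- `lam` kills the degree `D` part of `(X_o^j)`. -/
def KillsO {n : ℕ} {σ : Type} [Fintype σ] (o : σ) (j D : ℕ)
    (lam : MvPolynomial σ (Rg σ n) →ₗ[Rg σ n] Rg σ n) : Prop :=
  ∀ b : σ →₀ ℕ, j + b.degree = D → lam (X o ^ j * monomial b 1) = 0

set_option linter.unusedSectionVars false

variable {n : ℕ} {σ : Type} [Fintype σ] [DecidableEq σ]

theorem killsO_iff (o : σ) (j D : ℕ) (lam : MvPolynomial σ (Rg σ n) →ₗ[Rg σ n] Rg σ n) :
    KillsO o j D lam ↔ ∀ a : σ →₀ ℕ, a.degree = D → j ≤ a o → lam (monomial a 1) = 0 := by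
  constructor
  · intro h a ha hj
    have h1 : a = Finsupp.single o j + (a - Finsupp.single o j) := by
      rw [add_tsub_cancel_of_le]
      rw [Finsupp.single_le_iff]
      exact hj
    have h2 : j + (a - Finsupp.single o j).degree = D := by
      rw [← ha]
      conv_rhs => rw [h1, map_add, Finsupp.degree_single]
    have h3 := h _ h2
    rwa [X_pow_eq_monomial, monomial_mul, ← h1, mul_one] at h3
  · intro h b hb
    rw [X_pow_eq_monomial, monomial_mul, mul_one]
    apply h
    · rw [map_add, Finsupp.degree_single, hb]
    · simp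

theorem killsO_mono (o : σ) (j j' D : ℕ) (hj : j ≤ j')
    (lam : MvPolynomial σ (Rg σ n) →ₗ[Rg σ n] Rg σ n) (h : KillsO o j D lam) :
    KillsO o j' D lam := by
  rw [killsO_iff] at h ⊢
  intro a ha hja
  exact h a ha (by omega)

/-- multiplication of a functional by a variable -/
noncomputable def ymul (i : σ) (lam : MvPolynomial σ (Rg σ n) →ₗ[Rg σ n] Rg σ n) :
    MvPolynomial σ (Rg σ n) →ₗ[Rg σ n] Rg σ n :=
  lam ∘ₗ LinearMap.mulLeft (Rg σ n) (X i)

theorem ymul_apply (i : σ) (lam : MvPolynomial σ (Rg σ n) →ₗ[Rg σ n] Rg σ n)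
    (h : MvPolynomial σ (Rg σ n)) : ymul i lam h = lam (X i * h) := rfl

theorem ymul_monomial (i : σ) (lam : MvPolynomial σ (Rg σ n) →ₗ[Rg σ n] Rg σ n)
    (a : σ →₀ ℕ) : ymul i lam (monomial a 1) = lam (monomial (Finsupp.single i 1 + a) 1) := by
  rw [ymul_apply, X, monomial_mul, mul_one]

theorem ymul_killsJ (L : SComplex n) (D : ℕ) (i : σ)
    (lam : MvPolynomial σ (Rg σ n) →ₗ[Rg σ n] Rg σ n) (h : KillsJ L (D + 1) lam) :
    KillsJ L D (ymul i lam) := by
  intro A hA b hb
  rw [ymul_apply]
  have h1 := h A hA (Finsupp.single i 1 + b) (by rw [map_add, Finsupp.degree_single]; omega)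
  have h2 : (monomial (Finsupp.single i 1 + b) (1 : Rg σ n)) = X i * monomial b 1 := by
    rw [X, monomial_mul, mul_one]
  rw [h2] at h1
  rw [mul_left_comm]
  exact h1

theorem ymul_killsO (o : σ) (j D : ℕ) (i : σ)
    (lam : MvPolynomial σ (Rg σ n) →ₗ[Rg σ n] Rg σ n) (h : KillsO o j (D + 1) lam) :
    KillsO o j D (ymul i lam) := by
  rw [killsO_iff] at h ⊢
  intro a ha hj
  rw [ymul_monomial]
  apply h
  · rw [map_add, Finsupp.degree_single]; omega
  · rw [Finsupp.add_apply]; omega

theorem ymul_killsO_self (o : σ) (j D : ℕ)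
    (lam : MvPolynomial σ (Rg σ n) →ₗ[Rg σ n] Rg σ n) (h : KillsO o (j + 1) (D + 1) lam) :
    KillsO o j D (ymul o lam) := by
  rw [killsO_iff] at h ⊢
  intro a ha hj
  rw [ymul_monomial]
  apply h
  · rw [map_add, Finsupp.degree_single]; omega
  · rw [Finsupp.add_apply, Finsupp.single_eq_same]; omega

/-! ### derivations -/

/-- a derivation of the coefficients, applied to all coefficients -/
noncomputable def cder (δ : Derivation (ZMod 2) (Rg σ n) (Rg σ n)) :
    MvPolynomial σ (Rg σ n) →+ MvPolynomial σ (Rg σ n) where
  toFun h := AddMonoidAlgebra.ofCoeff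
    (Finsupp.mapRange δ (map_zero δ) (AddMonoidAlgebra.coeff h))
  map_zero' := by
    apply MvPolynomial.ext
    intro m
    change δ 0 = 0
    exact map_zero δ
  map_add' := by
    intro f g
    apply MvPolynomial.ext
    intro m
    rw [coeff_add]
    change δ (coeff m (f + g)) = δ (coeff m f) + δ (coeff m g)
    rw [coeff_add, map_add]

theorem coeff_cder (δ : Derivation (ZMod 2) (Rg σ n) (Rg σ n)) (h : MvPolynomial σ (Rg σ n))
    (a : σ →₀ ℕ) : coeff a (cder δ h) = δ (coeff a h) := rfl

theorem cder_monomial (δ : Derivation (ZMod 2) (Rg σ n) (Rg σ n)) (a : σ →₀ ℕ) (c : Rg σ n) :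
    cder δ (monomial a c) = monomial a (δ c) := by
  apply MvPolynomial.ext
  intro m
  rw [coeff_cder, coeff_monomial, coeff_monomial]
  split_ifs
  · rfl
  · exact map_zero δ

theorem cder_mul (δ : Derivation (ZMod 2) (Rg σ n) (Rg σ n)) (f g : MvPolynomial σ (Rg σ n)) :
    cder δ (f * g) = cder δ f * g + f * cder δ g := by
  induction f using MvPolynomial.induction_on' with
  | monomial u a =>
    induction g using MvPolynomial.induction_on' with
    | monomial v b =>
      rw [monomial_mul, cder_monomial, cder_monomial, cder_monomial, monomial_mul, monomial_mul,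
        ← map_add, Derivation.leibniz]
      congr 1
      simp only [smul_eq_mul]
      ring
    | add p q hp hq =>
      rw [mul_add, map_add, hp, hq, map_add]
      ring
  | add p q hp hq =>
    rw [add_mul, map_add, hp, hq, map_add]
    ring

/-- the derivation `T = X_i ∂/∂X_o - δ`, with `δ g_iv = g_ov`. -/
noncomputable def dlt (o i : σ) : Derivation (ZMod 2) (Rg σ n) (Rg σ n) :=
  mkDerivation (ZMod 2) (fun q : σ × Fin n => if q.1 = i then X (o, q.2) else 0)

noncomputable def T (o i : σ) (h : MvPolynomial σ (Rg σ n)) : MvPolynomial σ (Rg σ n) :=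
  X i * pderiv o h - cder (dlt o i) h

theorem T_add (o i : σ) (f g : MvPolynomial σ (Rg σ n)) : T o i (f + g) = T o i f + T o i g := by
  simp only [T, map_add]
  ring

theorem T_mul (o i : σ) (f g : MvPolynomial σ (Rg σ n)) :
    T o i (f * g) = T o i f * g + f * T o i g := by
  simp only [T, Derivation.leibniz, cder_mul, smul_eq_mul]
  ring

theorem T_one (o i : σ) : T o i (1 : MvPolynomial σ (Rg σ n)) = 0 := by
  have h : (1 : MvPolynomial σ (Rg σ n)) = monomial 0 1 := rfl
  simp only [T]
  rw [h, cder_monomial]
  simp

theorem T_smul (o i : σ) (r : Rg σ n) (h : MvPolynomial σ (Rg σ n)) :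
    T o i (r • h) = r • T o i h - dlt o i r • h := by
  have h1 : cder (dlt o i) (r • h) = dlt o i r • h + r • cder (dlt o i) h := by
    rw [smul_eq_C_mul, cder_mul, smul_eq_C_mul, smul_eq_C_mul]
    congr 2
    exact cder_monomial _ _ _
  simp only [T]
  rw [h1, Derivation.map_smul, smul_sub, mul_smul_comm]
  abel

theorem T_monomial (o i : σ) (a : σ →₀ ℕ) :
    T o i (monomial a (1 : Rg σ n)) =
      monomial (a - Finsupp.single o 1 + Finsupp.single i 1) ((a o : ℕ) : Rg σ n) := by
  simp only [T]
  rw [cder_monomial, pderiv_monomial, X, monomial_mul, Derivation.map_one_eq_zero, map_zero,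
    sub_zero]
  congr 1
  · rw [add_comm]
  · simp

theorem T_lform (o i : σ) (hi : i ≠ o) (v : Fin n) : T o i (lform (gmat σ n) v) = 0 := by
  have h1 : pderiv o (lform (gmat σ n) v) = C (X (o, v)) := by
    simp only [lform, map_sum, Derivation.leibniz, pderiv_C, smul_zero, add_zero, pderiv_X]
    rw [Finset.sum_eq_single o]
    · simp [gmat]
    · intro b _ hb
      rw [Pi.single_eq_of_ne hb]
      simp
    · intro h
      exact absurd (Finset.mem_univ _) h
  have h2 : cder (dlt o i) (lform (gmat σ n) v) = C (X (o, v)) * X i := by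
    simp only [lform, map_sum]
    have h3 : ∀ j : σ, cder (dlt o i) (C (gmat σ n j v) * X j) =
        C (dlt o i (gmat σ n j v)) * X j := by
      intro j
      rw [C_mul_X_eq_monomial, cder_monomial, C_mul_X_eq_monomial]
    rw [Finset.sum_congr rfl fun j _ => h3 j, Finset.sum_eq_single i]
    · congr 2
      simp [dlt, gmat, mkDerivation_X]
    · intro b _ hb
      simp [dlt, gmat, mkDerivation_X, hb]
    · intro h
      exact absurd (Finset.mem_univ _) h
  simp only [T]
  rw [h1, h2]
  ring

theorem T_prod (o i : σ) (hi : i ≠ o) (A : Finset (Fin n)) :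
    T o i (∏ v ∈ A, lform (gmat σ n) v) = 0 := by
  classical
  induction A using Finset.induction_on with
  | empty => rw [Finset.prod_empty, T_one]
  | insert a s ha ih =>
    rw [Finset.prod_insert ha, T_mul, T_lform o i hi, ih]
    ring

/-- the functional `λ'(h) = δ(λ(h)) + λ(T h)` -/
noncomputable def lamT (o i : σ) (lam : MvPolynomial σ (Rg σ n) →ₗ[Rg σ n] Rg σ n) :
    MvPolynomial σ (Rg σ n) →ₗ[Rg σ n] Rg σ n where
  toFun h := dlt o i (lam h) + lam (T o i h)
  map_add' f g := by
    rw [map_add, map_add, T_add, map_add]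
    abel
  map_smul' r h := by
    rw [lam.map_smul, T_smul, map_sub, lam.map_smul, lam.map_smul, smul_eq_mul,
      Derivation.leibniz]
    simp only [smul_eq_mul, RingHom.id_apply]
    ring

theorem lamT_apply (o i : σ) (lam : MvPolynomial σ (Rg σ n) →ₗ[Rg σ n] Rg σ n)
    (h : MvPolynomial σ (Rg σ n)) : lamT o i lam h = dlt o i (lam h) + lam (T o i h) := rfl

theorem lamT_killsJ (L : SComplex n) (D : ℕ) (o i : σ) (hi : i ≠ o)
    (lam : MvPolynomial σ (Rg σ n) →ₗ[Rg σ n] Rg σ n) (h : KillsJ L D lam) :
    KillsJ L D (lamT o i lam) := by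
  intro A hA b hb
  rw [lamT_apply, h A hA b hb, map_zero, zero_add, T_mul, T_prod o i hi, zero_mul, zero_add,
    T_monomial]
  by_cases hbo : b o = 0
  · rw [hbo]; simp
  · have h1 : (monomial (b - Finsupp.single o 1 + Finsupp.single i 1) ((b o : ℕ) : Rg σ n)) =
        ((b o : ℕ) : Rg σ n) • monomial (b - Finsupp.single o 1 + Finsupp.single i 1) 1 := by
      rw [smul_monomial, smul_eq_mul, mul_one]
    rw [h1, mul_smul_comm, map_smul, h A hA, smul_zero]
    have h2 : b = Finsupp.single o 1 + (b - Finsupp.single o 1) := by
      rw [add_tsub_cancel_of_le]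
      rw [Finsupp.single_le_iff]
      omega
    have h3 : b.degree = 1 + (b - Finsupp.single o 1).degree := by
      conv_lhs => rw [h2, map_add, Finsupp.degree_single]
    rw [map_add, Finsupp.degree_single]
    omega

theorem dual_of_E {d : ℕ} (L : SComplex n) (o : σ)
    (hE : ∀ D, d < 2 * D → ∀ lam : MvPolynomial σ (Rg σ n) →ₗ[Rg σ n] Rg σ n,
      KillsJ L D lam → KillsO o (2 * D - d) D lam → KillsO o (2 * D - d - 1) D lam) :
    ∀ D, d < 2 * D → ∀ lam : MvPolynomial σ (Rg σ n) →ₗ[Rg σ n] Rg σ n,
      KillsJ L D lam → KillsO o (2 * D - d) D lam →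
      ∀ a : σ →₀ ℕ, a.degree = D → lam (monomial a 1) = 0 := by
  -- (i)
  have hi : ∀ D, d < 2 * D → ∀ lam : MvPolynomial σ (Rg σ n) →ₗ[Rg σ n] Rg σ n,
      KillsJ L D lam → KillsO o 1 D lam →
      ∀ a : σ →₀ ℕ, a.degree = D → lam (monomial a 1) = 0 := by
    intro D
    induction D with
    | zero => intro h; omega
    | succ D ih =>
      intro hD lam hJ hO a ha
      by_cases h1 : d < 2 * D
      · -- a has some positive coordinate
        obtain ⟨i, hi⟩ : ∃ i, a i ≠ 0 := by
          by_contra hcon
          push Not at hcon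
          have : a = 0 := by ext j; simp [hcon j]
          rw [this] at ha
          simp at ha
        have h2 : a = Finsupp.single i 1 + (a - Finsupp.single i 1) := by
          rw [add_tsub_cancel_of_le]
          rw [Finsupp.single_le_iff]
          omega
        have h3 := ih h1 (ymul i lam) (ymul_killsJ L D i lam hJ) (ymul_killsO o 1 D i lam hO)
          (a - Finsupp.single i 1) (by
            have h4 : a.degree = 1 + (a - Finsupp.single i 1).degree := by
              conv_lhs => rw [h2, map_add, Finsupp.degree_single]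
            omega)
        rwa [ymul_monomial, ← h2] at h3
      · by_cases h2 : 2 * (D + 1) - d = 1
        · have h3 := hE (D + 1) hD lam hJ (by rw [h2]; exact hO)
          rw [h2, killsO_iff] at h3
          exact h3 a ha (by omega)
        · have h2' : 2 * (D + 1) - d = 2 := by omega
          by_cases hao : a o = 0
          · obtain ⟨i, hi⟩ : ∃ i, a i ≠ 0 := by
              by_contra hcon
              push Not at hcon
              have : a = 0 := by ext j; simp [hcon j]
              rw [this] at ha
              simp at ha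
            have hio : i ≠ o := by
              rintro rfl
              exact hi hao
            have h3 : a = Finsupp.single i 1 + (a - Finsupp.single i 1) := by
              rw [add_tsub_cancel_of_le]
              rw [Finsupp.single_le_iff]
              omega
            have h4 := hE (D + 1) hD (lamT o i lam) (lamT_killsJ L (D + 1) o i hio lam hJ) (by
              rw [h2', killsO_iff]
              intro c hc hc2
              rw [killsO_iff] at hO
              rw [lamT_apply, hO c hc (by omega), map_zero, zero_add, T_monomial]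
              have h5 : (monomial (c - Finsupp.single o 1 + Finsupp.single i 1)
                  ((c o : ℕ) : Rg σ n)) = ((c o : ℕ) : Rg σ n) •
                  monomial (c - Finsupp.single o 1 + Finsupp.single i 1) 1 := by
                rw [smul_monomial, smul_eq_mul, mul_one]
              rw [h5, map_smul, hO, smul_zero]
              · have h6 : c = Finsupp.single o 1 + (c - Finsupp.single o 1) := by
                  rw [add_tsub_cancel_of_le]
                  rw [Finsupp.single_le_iff]
                  omega
                have h7 : c.degree = 1 + (c - Finsupp.single o 1).degree := by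
                  conv_lhs => rw [h6, map_add, Finsupp.degree_single]
                rw [map_add, Finsupp.degree_single]
                omega
              · simp only [Finsupp.add_apply, Finsupp.tsub_apply, Finsupp.single_eq_same]
                omega)
            rw [h2', killsO_iff] at h4
            have h5 := h4 (Finsupp.single o 1 + (a - Finsupp.single i 1)) (by
              have h7 : a.degree = 1 + (a - Finsupp.single i 1).degree := by
                conv_lhs => rw [h3, map_add, Finsupp.degree_single]
              rw [map_add, Finsupp.degree_single]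
              omega) (by simp)
            rw [killsO_iff] at hO
            rw [lamT_apply, hO _ (by
              have h7 : a.degree = 1 + (a - Finsupp.single i 1).degree := by
                conv_lhs => rw [h3, map_add, Finsupp.degree_single]
              rw [map_add, Finsupp.degree_single]
              omega) (by simp), map_zero, zero_add, T_monomial] at h5
            have h8 : (Finsupp.single o 1 + (a - Finsupp.single i 1)) - Finsupp.single o 1 +
                Finsupp.single i 1 = a := by
              rw [add_tsub_cancel_left, add_comm, ← h3]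
            have h9 : ((Finsupp.single o 1 + (a - Finsupp.single i 1) : σ →₀ ℕ)) o = 1 := by
              simp [hao]
            rw [h8, h9, Nat.cast_one] at h5
            exact h5
          · rw [killsO_iff] at hO
            exact hO a ha (by omega)
  intro D
  induction D with
  | zero => intro h; omega
  | succ D ih =>
    intro hD lam hJ hO
    have h1 := hE (D + 1) hD lam hJ hO
    by_cases h2 : 2 * (D + 1) - d = 1
    · intro a ha
      rw [h2, killsO_iff] at h1
      exact h1 a ha (by omega)
    by_cases h3 : 2 * (D + 1) - d = 2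
    · rw [h3] at h1
      exact hi (D + 1) hD lam hJ h1
    · apply hi (D + 1) hD lam hJ
      have h4 := ih (by omega) (ymul o lam) (ymul_killsJ L D o lam hJ) (by
        apply ymul_killsO_self
        have h5 : 2 * D - d + 1 = 2 * (D + 1) - d - 1 := by omega
        rw [h5]
        exact h1)
      rw [killsO_iff]
      intro a ha hao
      have h6 : a = Finsupp.single o 1 + (a - Finsupp.single o 1) := by
        rw [add_tsub_cancel_of_le]
        rw [Finsupp.single_le_iff]
        omega
      have h7 := h4 (a - Finsupp.single o 1) (by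
        have h4 : a.degree = 1 + (a - Finsupp.single o 1).degree := by
          conv_lhs => rw [h6, map_add, Finsupp.degree_single]
        omega)
      rwa [ymul_monomial, ← h6] at h7

/-- `generic_spans` from (E). -/
theorem spans_of_E {d : ℕ} (L : SComplex n) (o : σ)
    (hE : ∀ D, d < 2 * D → ∀ lam : MvPolynomial σ (Rg σ n) →ₗ[Rg σ n] Rg σ n,
      KillsJ L D lam → KillsO o (2 * D - d) D lam → KillsO o (2 * D - d - 1) D lam)
    (D : ℕ) (hD : d < 2 * D) :
    ∃ Δ : MvPolynomial (σ × Fin n) ℤ, Δ ≠ 0 ∧ ∀ (k : Type u) [Field k] (g : σ → Fin n → k),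
      aeval (fun q : σ × Fin n => g q.1 q.2) Δ ≠ 0 → Spans L d D o k g :=
  transfer L o D (fun lam hJ hO => dual_of_E L o hE D hD lam hJ hO)

end Pool.Agent.KS.Section4
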