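import Pool.Agent.MP_dd083e_co.Defs2
import Pool.Agent.MP_dd083e_co.Fan

set_option autoImplicit false

/-! Comparison of systems on symmetric cycles, and the canonical alternating system. -/

namespace Pool.Agent.KS

theorem sum_erase_insert {α M : Type*} [Fintype α] [DecidableEq α] [AddCommMonoid M]
    (F : Finset α → Finset α → M) :
    ∑ A : Finset α, ∑ v ∈ A, F (A.erase v) A = ∑ A : Finset α, ∑ v ∈ Aᶜ, F A (insert v A) := by
  rw [Finset.sum_sigma', Finset.sum_sigma']
  refine Finset.sum_bij' (fun x _ => ⟨x.1.erase x.2, x.2⟩) (fun x _ => ⟨insert x.2 x.1, x.2⟩)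
    ?_ ?_ ?_ ?_ ?_
  · rintro ⟨A, v⟩ hx
    simp only [Finset.mem_sigma, Finset.mem_univ, true_and] at hx
    simp
  · rintro ⟨A, v⟩ hx
    simp
  · rintro ⟨A, v⟩ hx
    simp only [Finset.mem_sigma, Finset.mem_univ, true_and] at hx
    simp [Finset.insert_erase hx]
  · rintro ⟨A, v⟩ hx
    simp only [Finset.mem_sigma, Finset.mem_univ, true_and, Finset.mem_compl] at hx
    simp [Finset.erase_insert hx]
  · rintro ⟨A, v⟩ hx
    simp only [Finset.mem_sigma, Finset.mem_univ, true_and] at hx
    simp [Finset.insert_erase hx]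

/-- the boundary operator on functions of pairs -/
def bdry {n : ℕ} {V : Type*} [AddCommGroup V] (h : Finset (Fin n) → Finset (Fin n) → V)
    (A B : Finset (Fin n)) : V :=
  ∑ v ∈ (A ∪ B)ᶜ, (h (insert v A) B + h A (insert v B))

theorem sum_smul_bdry {n : ℕ} {V : Type*} [AddCommGroup V] [Module (ZMod 2) V]
    (β : Finset (Fin n) → Finset (Fin n) → ZMod 2)
    (h : Finset (Fin n) → Finset (Fin n) → V) (hh : ∀ A B, ¬ Disjoint A B → h A B = 0) :
    ∑ A, ∑ B, (∑ v ∈ A, β (A.erase v) B + ∑ v ∈ B, β A (B.erase v)) • h A B =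
      ∑ A, ∑ B, β A B • bdry h A B := by
  have e1 : ∑ A, ∑ B, (∑ v ∈ A, β (A.erase v) B + ∑ v ∈ B, β A (B.erase v)) • h A B =
      (∑ B, ∑ A, ∑ v ∈ A, β (A.erase v) B • h A B) +
      ∑ A, ∑ B, ∑ v ∈ B, β A (B.erase v) • h A B := by
    rw [Finset.sum_comm (s := Finset.univ) (t := Finset.univ)
      (f := fun B A => ∑ v ∈ A, β (A.erase v) B • h A B)]
    rw [← Finset.sum_add_distrib]
    refine Finset.sum_congr rfl fun A _ => ?_
    rw [← Finset.sum_add_distrib]
    refine Finset.sum_congr rfl fun B _ => ?_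
    rw [add_smul, Finset.sum_smul, Finset.sum_smul]
  have e2 : (∑ B, ∑ A, ∑ v ∈ A, β (A.erase v) B • h A B) =
      ∑ A, ∑ B, β A B • ∑ v ∈ (A ∪ B)ᶜ, h (insert v A) B := by
    rw [Finset.sum_comm (s := Finset.univ) (t := Finset.univ)
      (f := fun A B => β A B • ∑ v ∈ (A ∪ B)ᶜ, h (insert v A) B)]
    refine Finset.sum_congr rfl fun B _ => ?_
    rw [sum_erase_insert (fun A' A => β A' B • h A B)]
    refine Finset.sum_congr rfl fun A _ => ?_
    rw [Finset.smul_sum]
    symm
    refine Finset.sum_subset ?_ ?_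
    · intro v hv
      simp only [Finset.mem_compl, Finset.mem_union, not_or] at hv ⊢
      exact hv.1
    · intro v hv hv'
      simp only [Finset.mem_compl, Finset.mem_union, not_or, not_and, not_not] at hv hv'
      rw [hh, smul_zero]
      rw [Finset.not_disjoint_iff]
      exact ⟨v, Finset.mem_insert_self v A, hv' hv⟩
  have e3 : (∑ A, ∑ B, ∑ v ∈ B, β A (B.erase v) • h A B) =
      ∑ A, ∑ B, β A B • ∑ v ∈ (A ∪ B)ᶜ, h A (insert v B) := by
    refine Finset.sum_congr rfl fun A _ => ?_
    rw [sum_erase_insert (fun B' B => β A B' • h A B)]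
    refine Finset.sum_congr rfl fun B _ => ?_
    rw [Finset.smul_sum]
    symm
    refine Finset.sum_subset ?_ ?_
    · intro v hv
      simp only [Finset.mem_compl, Finset.mem_union, not_or] at hv ⊢
      exact hv.2
    · intro v hv hv'
      simp only [Finset.mem_compl, Finset.mem_union, not_or] at hv hv'
      rw [hh, smul_zero]
      rw [Finset.not_disjoint_iff]
      refine ⟨v, ?_, Finset.mem_insert_self v B⟩
      by_contra hcon
      exact hv' ⟨hcon, hv⟩
  rw [e1, e2, e3, ← Finset.sum_add_distrib]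
  refine Finset.sum_congr rfl fun A _ => ?_
  rw [← Finset.sum_add_distrib]
  refine Finset.sum_congr rfl fun B _ => ?_
  rw [← smul_add, ← Finset.sum_add_distrib]
  rfl

theorem add_self_zmod2 {V : Type*} [AddCommGroup V] [Module (ZMod 2) V] (x : V) : x + x = 0 := by
  have : (2 : ZMod 2) • x = 0 := by
    rw [show (2 : ZMod 2) = 0 from by decide, zero_smul]
  rwa [two_smul] at this

theorem eq_of_add_eq_zero_zmod2 {V : Type*} [AddCommGroup V] [Module (ZMod 2) V] {x y : V}
    (h : x + y = 0) : x = y := by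
  have h2 := add_self_zmod2 y
  have : x + y = y + y := by rw [h, h2]
  exact add_right_cancel this

theorem bdry_bdry {n : ℕ} {V : Type*} [AddCommGroup V] [Module (ZMod 2) V]
    (h : Finset (Fin n) → Finset (Fin n) → V) (A B : Finset (Fin n)) :
    bdry (bdry h) A B = 0 := by
  unfold bdry
  have e : ∀ v ∈ (A ∪ B)ᶜ,
      (∑ w ∈ (insert v A ∪ B)ᶜ, (h (insert w (insert v A)) B + h (insert v A) (insert w B)) +
        ∑ w ∈ (A ∪ insert v B)ᶜ, (h (insert w A) (insert v B) + h A (insert w (insert v B)))) =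
      ∑ w ∈ ((A ∪ B)ᶜ).erase v, ((h (insert w (insert v A)) B + h A (insert w (insert v B))) +
        (h (insert v A) (insert w B) + h (insert w A) (insert v B))) := by
    intro v _
    have e1 : (insert v A ∪ B)ᶜ = ((A ∪ B)ᶜ).erase v := by
      ext w
      simp only [Finset.mem_compl, Finset.mem_union, Finset.mem_insert, Finset.mem_erase]
      tauto
    have e2 : (A ∪ insert v B)ᶜ = ((A ∪ B)ᶜ).erase v := by
      ext w
      simp only [Finset.mem_compl, Finset.mem_union, Finset.mem_insert, Finset.mem_erase]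
      tauto
    rw [e1, e2, ← Finset.sum_add_distrib]
    refine Finset.sum_congr rfl fun w _ => ?_
    abel
  rw [Finset.sum_congr rfl e, Finset.sum_sigma']
  refine Finset.sum_involution (fun x _ => ⟨x.2, x.1⟩) ?_ ?_ ?_ ?_
  · rintro ⟨v, w⟩ hx
    simp only
    rw [Finset.insert_comm w v A, Finset.insert_comm w v B]
    have e3 : ∀ a b c : V, (a + (b + c)) + (a + (c + b)) = 0 := by
      intro a b c
      rw [add_comm c b]
      exact add_self_zmod2 _
    exact e3 _ _ _
  · rintro ⟨v, w⟩ hx _ hcon
    simp only [Finset.mem_sigma, Finset.mem_erase] at hx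
    have : w = v := congrArg Sigma.fst hcon
    exact hx.2.1 this
  · rintro ⟨v, w⟩ hx
    simp only [Finset.mem_sigma, Finset.mem_erase] at hx ⊢
    exact ⟨hx.2.2, hx.2.1.symm, hx.1⟩
  · rintro ⟨v, w⟩ hx
    rfl

open Classical in
/-- half of a symmetric chain -/
noncomputable def half {n : ℕ} {V : Type*} [AddCommGroup V]
    (c : Finset (Fin n) → Finset (Fin n) → V) (A B : Finset (Fin n)) : V :=
  if ∃ v ∈ A, ∀ w ∈ B, v < w then c A B else 0

theorem half_xor {n : ℕ} (A B : Finset (Fin n)) (hd : Disjoint A B) (hne : (A ∪ B).Nonempty) :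
    (∃ v ∈ A, ∀ w ∈ B, v < w) ↔ ¬ ∃ v ∈ B, ∀ w ∈ A, v < w := by
  constructor
  · rintro ⟨v, hv, h1⟩ ⟨w, hw, h2⟩
    exact absurd (lt_trans (h1 w hw) (h2 v hv)) (lt_irrefl _)
  · intro h
    set m := (A ∪ B).min' hne
    have hm : m ∈ A ∪ B := Finset.min'_mem _ _
    have hmin : ∀ w ∈ A ∪ B, m ≤ w := fun w hw => Finset.min'_le _ _ hw
    rcases Finset.mem_union.mp hm with hmA | hmB
    · refine ⟨m, hmA, fun w hw => ?_⟩
      refine lt_of_le_of_ne (hmin w (Finset.mem_union_right _ hw)) ?_
      rintro rfl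
      exact Finset.disjoint_left.mp hd hmA hw
    · exfalso
      apply h
      refine ⟨m, hmB, fun w hw => ?_⟩
      refine lt_of_le_of_ne (hmin w (Finset.mem_union_left _ hw)) ?_
      rintro rfl
      exact Finset.disjoint_left.mp hd hw hmB

theorem half_add {n : ℕ} {V : Type*} [AddCommGroup V]
    (c : Finset (Fin n) → Finset (Fin n) → V)
    (hsupp : ∀ A B, c A B ≠ 0 → Disjoint A B ∧ (A ∪ B).Nonempty)
    (hsymm : ∀ A B, c A B = c B A) (A B : Finset (Fin n)) :
    half c A B + half c B A = c A B := by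
  by_cases h0 : c A B = 0
  · have h0' : c B A = 0 := by rw [hsymm, h0]
    unfold half
    simp [h0, h0']
  · obtain ⟨hd, hne⟩ := hsupp A B h0
    have hx := half_xor A B hd hne
    unfold half
    by_cases h1 : ∃ v ∈ A, ∀ w ∈ B, v < w
    · have h2 := hx.mp h1
      rw [if_pos h1, if_neg h2, add_zero]
    · have h2 : ∃ v ∈ B, ∀ w ∈ A, v < w := by
        by_contra hcon
        exact h1 (hx.mpr hcon)
      rw [if_neg h1, if_pos h2, zero_add, hsymm]

theorem half_ne_zero {n : ℕ} {V : Type*} [AddCommGroup V]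
    (c : Finset (Fin n) → Finset (Fin n) → V) (A B : Finset (Fin n)) (h : half c A B ≠ 0) :
    c A B ≠ 0 := by
  unfold half at h
  split_ifs at h with h1
  · exact h
  · exact absurd rfl h

theorem sum_sys_eq {n : ℕ} {V : Type*} [AddCommGroup V] [Module (ZMod 2) V] (L : SComplex n)
    {β : Finset (Fin n) → Finset (Fin n) → ZMod 2} (hβ : IsSystem L β)
    (N : ℕ) (hN : 1 ≤ N) (c : Finset (Fin n) → Finset (Fin n) → V)
    (hsupp : ∀ A B, c A B ≠ 0 → A ∈ L.faces ∧ B ∈ L.faces ∧ Disjoint A B ∧ A.card + B.card = N)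
    (hsymm : ∀ A B, c A B = c B A) :
    ∑ A, ∑ B, β A B • c A B = ∑ A, ∑ B, β A B • bdry (half c) A B := by
  have hne : ∀ A B : Finset (Fin n), A.card + B.card = N → (A ∪ B).Nonempty := by
    intro A B h
    rw [Finset.nonempty_iff_ne_empty]
    intro hcon
    rw [Finset.union_eq_empty] at hcon
    rw [hcon.1, hcon.2] at h
    simp at h
    omega
  have hadd := half_add c (fun A B h => ⟨(hsupp A B h).2.2.1, hne A B (hsupp A B h).2.2.2⟩) hsymm
  have e1 : ∑ A, ∑ B, β A B • c A B = ∑ A, ∑ B, (β A B + β B A) • half c A B := by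
    have : ∑ A, ∑ B, β A B • half c B A = ∑ A, ∑ B, β B A • half c A B := by
      rw [Finset.sum_comm]
    calc ∑ A, ∑ B, β A B • c A B
        = ∑ A, ∑ B, (β A B • half c A B + β A B • half c B A) := by
          refine Finset.sum_congr rfl fun A _ => Finset.sum_congr rfl fun B _ => ?_
          rw [← smul_add, hadd]
      _ = ∑ A, ∑ B, β A B • half c A B + ∑ A, ∑ B, β A B • half c B A := by
          rw [← Finset.sum_add_distrib]
          refine Finset.sum_congr rfl fun A _ => ?_
          rw [← Finset.sum_add_distrib]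
      _ = _ := by
          rw [this, ← Finset.sum_add_distrib]
          refine Finset.sum_congr rfl fun A _ => ?_
          rw [← Finset.sum_add_distrib]
          refine Finset.sum_congr rfl fun B _ => ?_
          rw [add_smul]
  rw [e1, ← sum_smul_bdry β (half c)]
  · refine Finset.sum_congr rfl fun A _ => Finset.sum_congr rfl fun B _ => ?_
    by_cases h0 : half c A B = 0
    · rw [h0, smul_zero, smul_zero]
    · obtain ⟨hA, hB, hd, hcard⟩ := hsupp A B (half_ne_zero c A B h0)
      rw [hβ.rel A hA B hB hd (hne A B hcard)]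
  · intro A B hd
    by_contra hcon
    exact hd (hsupp A B (half_ne_zero c A B hcon)).2.2.1

theorem bdry_half_supp {n : ℕ} {V : Type*} [AddCommGroup V] (L : SComplex n)
    (N : ℕ) (c : Finset (Fin n) → Finset (Fin n) → V)
    (hsupp : ∀ A B, c A B ≠ 0 → A ∈ L.faces ∧ B ∈ L.faces ∧ Disjoint A B ∧ A.card + B.card = N + 1)
    (A B : Finset (Fin n)) (h : bdry (half c) A B ≠ 0) :
    A ∈ L.faces ∧ B ∈ L.faces ∧ Disjoint A B ∧ A.card + B.card = N := by
  unfold bdry at h
  obtain ⟨v, hv, hv'⟩ := Finset.exists_ne_zero_of_sum_ne_zero h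
  simp only [Finset.mem_compl, Finset.mem_union, not_or] at hv
  have : half c (insert v A) B ≠ 0 ∨ half c A (insert v B) ≠ 0 := by
    by_contra hcon
    push Not at hcon
    rw [hcon.1, hcon.2, add_zero] at hv'
    exact hv' rfl
  rcases this with h1 | h1
  · obtain ⟨hA, hB, hd, hcard⟩ := hsupp _ _ (half_ne_zero c _ _ h1)
    refine ⟨L.down_closed _ hA _ (Finset.subset_insert _ _), hB,
      Finset.disjoint_of_subset_left (Finset.subset_insert _ _) hd, ?_⟩
    rw [Finset.card_insert_of_notMem hv.1] at hcard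
    omega
  · obtain ⟨hA, hB, hd, hcard⟩ := hsupp _ _ (half_ne_zero c _ _ h1)
    refine ⟨hA, L.down_closed _ hB _ (Finset.subset_insert _ _),
      Finset.disjoint_of_subset_right (Finset.subset_insert _ _) hd, ?_⟩
    rw [Finset.card_insert_of_notMem hv.2] at hcard
    omega

/-- Two systems agree on symmetric cycles. -/
theorem sys_compare {n : ℕ} {V : Type*} [AddCommGroup V] [Module (ZMod 2) V] (L : SComplex n)
    {β β' : Finset (Fin n) → Finset (Fin n) → ZMod 2} (hβ : IsSystem L β) (hβ' : IsSystem L β')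
    (N : ℕ) (hN : 1 ≤ N) (c : Finset (Fin n) → Finset (Fin n) → V)
    (hsupp : ∀ A B, c A B ≠ 0 → A ∈ L.faces ∧ B ∈ L.faces ∧ Disjoint A B ∧ A.card + B.card = N)
    (hsymm : ∀ A B, c A B = c B A)
    (hcyc : ∀ A B, Disjoint A B → A.card + B.card + 1 = N → bdry c A B = 0) :
    ∑ A, ∑ B, β A B • c A B = ∑ A, ∑ B, β' A B • c A B := by
  classical
  induction N, hN using Nat.le_induction generalizing c with
  | base =>
    rw [sum_sys_eq L hβ 1 le_rfl c hsupp hsymm, sum_sys_eq L hβ' 1 le_rfl c hsupp hsymm]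
    refine Finset.sum_congr rfl fun A _ => Finset.sum_congr rfl fun B _ => ?_
    by_cases h0 : bdry (half c) A B = 0
    · rw [h0, smul_zero, smul_zero]
    · obtain ⟨_, _, _, hcard⟩ := bdry_half_supp L 0 c hsupp A B h0
      have hA : A = ∅ := Finset.card_eq_zero.mp (by omega)
      have hB : B = ∅ := Finset.card_eq_zero.mp (by omega)
      rw [hA, hB, hβ.empty, hβ'.empty]
  | succ N hN ih =>
    rw [sum_sys_eq L hβ (N + 1) (by omega) c hsupp hsymm,
      sum_sys_eq L hβ' (N + 1) (by omega) c hsupp hsymm]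
    apply ih (bdry (half c))
    · exact bdry_half_supp L N c hsupp
    · -- symmetry
      have hsupp' := bdry_half_supp L N c hsupp
      have hne : ∀ A B, c A B ≠ 0 → Disjoint A B ∧ (A ∪ B).Nonempty := by
        intro A B h
        obtain ⟨_, _, hd, hcard⟩ := hsupp A B h
        refine ⟨hd, ?_⟩
        rw [Finset.nonempty_iff_ne_empty]
        intro hcon
        rw [Finset.union_eq_empty] at hcon
        rw [hcon.1, hcon.2] at hcard
        simp at hcard
      have hadd := half_add c hne hsymm
      have hkey : ∀ A B, bdry (half c) A B + bdry (half c) B A = bdry c A B := by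
        intro A B
        unfold bdry
        rw [Finset.union_comm B A, ← Finset.sum_add_distrib]
        refine Finset.sum_congr rfl fun v _ => ?_
        rw [← hadd (insert v A) B, ← hadd A (insert v B)]
        abel
      intro A B
      by_cases h0 : bdry (half c) A B = 0
      · by_cases h1 : bdry (half c) B A = 0
        · rw [h0, h1]
        · obtain ⟨_, _, hd, hcard⟩ := hsupp' B A h1
          have h2 := hkey B A
          rw [hcyc B A hd (by omega)] at h2
          exact (eq_of_add_eq_zero_zmod2 h2).symm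
      · obtain ⟨_, _, hd, hcard⟩ := hsupp' A B h0
        have h2 := hkey A B
        rw [hcyc A B hd (by omega)] at h2
        exact eq_of_add_eq_zero_zmod2 h2
    · intro A B _ _
      exact bdry_bdry (half c) A B

/-! ### the alternating system -/

/-- the canonical alternating cochain on pairs -/
noncomputable def altSys {n : ℕ} (A B : Finset (Fin n)) : ZMod 2 :=
  alt (fun v : Fin n => v) (fun v => v ∈ A) (A ∪ B)

theorem alt_congr {E ι : Type*} [LinearOrder ι] (idx : E → ι) (sg sg' : E → Prop)
    (P : Finset E) (h : ∀ w ∈ P, (sg w ↔ sg' w)) : alt idx sg P = alt idx sg' P := by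
  unfold alt
  apply bit_congr
  constructor
  · intro h1 w hw
    rw [← h w hw]; exact h1 w hw
  · intro h1 w hw
    rw [h w hw]; exact h1 w hw

theorem altSys_rel {n : ℕ} (A B : Finset (Fin n)) (hd : Disjoint A B) (hne : (A ∪ B).Nonempty) :
    altSys A B + altSys B A = ∑ v ∈ A, altSys (A.erase v) B + ∑ v ∈ B, altSys A (B.erase v) := by
  have h1 : altSys B A = alt (fun v : Fin n => v) (fun v => ¬ v ∈ A) (A ∪ B) := by
    unfold altSys
    rw [Finset.union_comm B A]
    apply alt_congr
    intro w hw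
    rw [Finset.mem_union] at hw
    constructor
    · intro h2 h3
      exact Finset.disjoint_left.mp hd h3 h2
    · intro h2
      tauto
  rw [h1]
  have h2 := fan_lemma (fun v : Fin n => v) (fun v => v ∈ A) (A ∪ B) hne
    (fun _ _ _ _ h => h)
  unfold altSys
  rw [h2, Finset.sum_union hd]
  congr 1
  · refine Finset.sum_congr rfl fun v hv => ?_
    have hvB : v ∉ B := Finset.disjoint_left.mp hd hv
    have e : (A ∪ B).erase v = A.erase v ∪ B := by
      ext w
      simp only [Finset.mem_erase, Finset.mem_union]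
      constructor
      · tauto
      · rintro (h | h)
        · tauto
        · exact ⟨fun h' => hvB (h' ▸ h), Or.inr h⟩
    rw [e]
    apply alt_congr
    intro w hw
    simp only [Finset.mem_union, Finset.mem_erase] at hw ⊢
    constructor
    · intro h3
      refine ⟨?_, h3⟩
      rintro rfl
      rcases hw with h4 | h4
      · exact h4.1 rfl
      · exact hvB h4
    · tauto
  · refine Finset.sum_congr rfl fun v hv => ?_
    have hvA : v ∉ A := Finset.disjoint_right.mp hd hv
    have e : (A ∪ B).erase v = A ∪ B.erase v := by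
      ext w
      simp only [Finset.mem_erase, Finset.mem_union]
      constructor
      · tauto
      · rintro (h | h)
        · exact ⟨fun h' => hvA (h' ▸ h), Or.inl h⟩
        · tauto
    rw [e]

theorem altSys_isSystem {n : ℕ} (L : SComplex n) : IsSystem L (altSys (n := n)) where
  empty := by
    unfold altSys
    simp [alt_empty]
  rel := fun A _ B _ hd hne => altSys_rel A B hd hne

/-- The corollary used in the algebra: if the index of `L` is less than `d` then symmetric
`d`-cycles have zero alternating sum. -/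
theorem alt_sum_eq_zero {n d : ℕ} {V : Type*} [AddCommGroup V] [Module (ZMod 2) V]
    (L : SComplex n) (hL : IndexLT L d) (c : Finset (Fin n) → Finset (Fin n) → V)
    (hsupp : ∀ A B, c A B ≠ 0 →
      A ∈ L.faces ∧ B ∈ L.faces ∧ Disjoint A B ∧ A.card + B.card = d + 1)
    (hsymm : ∀ A B, c A B = c B A)
    (hcyc : ∀ A B, Disjoint A B → A.card + B.card = d → bdry c A B = 0) :
    ∑ A, ∑ B, altSys A B • c A B = 0 := by
  obtain ⟨β, hβ, hβ0⟩ := hL
  rw [sys_compare L (altSys_isSystem L) hβ (d + 1) (by omega) c hsupp hsymm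
    (fun A B h1 h2 => hcyc A B h1 (by omega))]
  refine Finset.sum_eq_zero fun A _ => Finset.sum_eq_zero fun B _ => ?_
  by_cases h0 : c A B = 0
  · rw [h0, smul_zero]
  · obtain ⟨hA, hB, hd, hcard⟩ := hsupp A B h0
    rw [hβ0 A hA B hB hd hcard, zero_smul]

end Pool.Agent.KS
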