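import Pool.Agent.MP_dd083e_co.Defs2

set_option autoImplicit false

universe u

namespace Pool.Agent.KS

open MvPolynomial

namespace TaskF

variable {n : ℕ}

theorem revLexLT_irrefl (a : Fin n →₀ ℕ) : ¬ RevLexLT a a := by
  rintro (h | ⟨-, i, h, -⟩)
  · exact lt_irrefl _ h
  · exact lt_irrefl _ h

theorem revLexLT_trans {a b c : Fin n →₀ ℕ} (h1 : RevLexLT a b) (h2 : RevLexLT b c) :
    RevLexLT a c := by
  rcases h1 with h1 | ⟨h1, i, hi, hi'⟩
  · rcases h2 with h2 | ⟨h2, j, hj, hj'⟩
    · exact Or.inl (h1.trans h2)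
    · exact Or.inl (h2 ▸ h1)
  · rcases h2 with h2 | ⟨h2, j, hj, hj'⟩
    · exact Or.inl (h1 ▸ h2)
    · refine Or.inr ⟨h1.trans h2, ?_⟩
      rcases lt_trichotomy i j with hij | hij | hij
      · refine ⟨j, ?_, ?_⟩
        · rw [hi' j hij]; exact hj
        · intro l hl
          rw [hi' l (hij.trans hl), hj' l hl]
      · subst hij
        exact ⟨i, hj.trans hi, fun l hl => by rw [hi' l hl, hj' l hl]⟩
      · refine ⟨i, ?_, ?_⟩
        · rw [← hj' i hij]; exact hi
        · intro l hl
          rw [hi' l hl, hj' l (hij.trans hl)]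

theorem linearIndependent_of_leading {k : Type u} [Field k] (E : Finset (Fin n →₀ ℕ))
    (f : E → MvPolynomial (Fin n) k) (hf : ∀ b : E, IsLeading (f b) b) :
    LinearIndependent k f := by
  classical
  rw [Fintype.linearIndependent_iff]
  intro c hc
  by_contra hne
  push Not at hne
  obtain ⟨b1, hb1⟩ := hne
  let r : E → E → Prop := fun x y => RevLexLT (y : Fin n →₀ ℕ) x
  have : IsTrans E r := ⟨fun x y z h1 h2 => revLexLT_trans h2 h1⟩
  have : Std.Irrefl r := ⟨fun x h => revLexLT_irrefl _ h⟩
  have hwf : WellFounded r := Finite.wellFounded_of_trans_of_irrefl r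
  obtain ⟨m, hm1, hm2⟩ := hwf.has_min {b : E | c b ≠ 0} ⟨b1, hb1⟩
  have h0 := congrArg (coeff (m : Fin n →₀ ℕ)) hc
  rw [coeff_sum, coeff_zero] at h0
  rw [Finset.sum_eq_single m] at h0
  · rw [coeff_smul, smul_eq_mul] at h0
    rcases mul_eq_zero.mp h0 with h0 | h0
    · exact hm1 h0
    · exact (mem_support_iff.mp (hf m).1) h0
  · intro b _ hb
    rw [coeff_smul, smul_eq_mul]
    by_contra hcon
    have hb1 : c b ≠ 0 := fun h => hcon (by rw [h, zero_mul])
    have hb2 : coeff (m : Fin n →₀ ℕ) (f b) ≠ 0 := fun h => hcon (by rw [h, mul_zero])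
    have hb3 := (hf b).2 m (mem_support_iff.mpr hb2) (fun h => hb (Subtype.ext h.symm))
    exact hm2 b hb1 hb3
  · intro h
    exact absurd (Finset.mem_univ m) h

theorem linSubst_isHomogeneous {k : Type u} [Field k] (g : Matrix (Fin n) (Fin n) k)
    {p : MvPolynomial (Fin n) k} {m : ℕ} (hp : p.IsHomogeneous m) :
    (linSubst g p).IsHomogeneous m := by
  have h := hp.aeval (fun j => ∑ i, MvPolynomial.C (g i j) * MvPolynomial.X i) (n := 1)
    (fun j => by
      refine IsHomogeneous.sum _ _ _ (fun i _ => ?_)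
      have := (isHomogeneous_C (Fin n) (g i j)).mul (isHomogeneous_X k i)
      simpa using this)
  simpa [linSubst] using h

theorem homogeneousComponent_linSubst {k : Type u} [Field k] (g : Matrix (Fin n) (Fin n) k)
    (p : MvPolynomial (Fin n) k) (D : ℕ) :
    homogeneousComponent D (linSubst g p) = linSubst g (homogeneousComponent D p) := by
  induction p using MvPolynomial.induction_on' with
  | monomial u a =>
    have h1 : (monomial u a : MvPolynomial (Fin n) k) ∈ homogeneousSubmodule (Fin n) k u.degree :=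
      isHomogeneous_monomial a rfl
    have h2 : linSubst g (monomial u a) ∈ homogeneousSubmodule (Fin n) k u.degree :=
      linSubst_isHomogeneous g h1
    rw [homogeneousComponent_of_mem h1, homogeneousComponent_of_mem h2]
    split_ifs
    · rfl
    · simp
  | add p q hp hq =>
    rw [map_add, map_add, map_add, map_add, hp, hq]

theorem linSubst_surjective {k : Type u} [Field k] (g : Matrix (Fin n) (Fin n) k)
    (hg : g.det ≠ 0) : Function.Surjective (linSubst g) := by
  classical
  rw [← AlgHom.range_eq_top, eq_top_iff, ← MvPolynomial.adjoin_range_X]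
  rw [Algebra.adjoin_le_iff]
  rintro _ ⟨l, rfl⟩
  have hinv : g * g⁻¹ = 1 := Matrix.mul_nonsing_inv g (isUnit_iff_ne_zero.mpr hg)
  refine ⟨∑ j, MvPolynomial.C (g⁻¹ j l) * MvPolynomial.X j, ?_⟩
  show linSubst g (∑ j, MvPolynomial.C (g⁻¹ j l) * MvPolynomial.X j) = X l
  have h1 : ∀ j, linSubst g (MvPolynomial.C (g⁻¹ j l) * MvPolynomial.X j) =
      ∑ i, MvPolynomial.C (g i j * g⁻¹ j l) * MvPolynomial.X i := by
    intro j
    rw [map_mul]
    have h2 : linSubst g (MvPolynomial.C (g⁻¹ j l)) = MvPolynomial.C (g⁻¹ j l) := by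
      simp [linSubst]
    have h3 : linSubst g (MvPolynomial.X j) =
      ∑ i, MvPolynomial.C (g i j) * MvPolynomial.X i := by
      simp [linSubst]
    rw [h2, h3, Finset.mul_sum]
    refine Finset.sum_congr rfl fun i _ => ?_
    rw [C_mul]; ring
  rw [map_sum, Finset.sum_congr rfl (fun j _ => h1 j), Finset.sum_comm]
  have h4 : ∀ i, ∑ j, MvPolynomial.C (g i j * g⁻¹ j l) * (MvPolynomial.X i : MvPolynomial (Fin n) k)
      = MvPolynomial.C (if i = l then 1 else 0) * MvPolynomial.X i := by
    intro i
    rw [← Finset.sum_mul, ← map_sum]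
    congr 2
    have := congrFun (congrFun hinv i) l
    rw [Matrix.mul_apply, Matrix.one_apply] at this
    exact this
  rw [Finset.sum_congr rfl (fun i _ => h4 i)]
  rw [Finset.sum_eq_single l]
  · simp
  · intro i _ hi
    simp [hi]
  · intro h
    exact absurd (Finset.mem_univ l) h

theorem support_of_mem_sr (L : SComplex n) {k : Type u} [Field k] {p : MvPolynomial (Fin n) k}
    (hp : p ∈ L.stanleyReisner k) : ∀ c ∈ p.support,
      Finset.univ.filter (fun i => c i ≠ 0) ∉ L.faces := by
  classical
  unfold SComplex.stanleyReisner at hp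
  induction hp using Submodule.span_induction with
  | mem x hx =>
    obtain ⟨A, hA, rfl⟩ := hx
    intro c hc hcon
    have h1 : (∏ i ∈ A, X i : MvPolynomial (Fin n) k) = monomial (∑ i ∈ A, Finsupp.single i 1) 1 := by
      rw [monomial_sum_one]
      rfl
    rw [h1] at hc
    have h2 := support_monomial_subset hc
    rw [Finset.mem_singleton] at h2
    subst h2
    refine hA (L.down_closed _ hcon _ ?_)
    intro i hi
    rw [Finset.mem_filter]
    refine ⟨Finset.mem_univ _, ?_⟩
    rw [Finsupp.finsetSum_apply]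
    have h3 : (1 : ℕ) ≤ ∑ j ∈ A, (Finsupp.single j 1 : Fin n →₀ ℕ) i := by
      refine le_trans ?_ (Finset.single_le_sum (f := fun j => (Finsupp.single j 1 : Fin n →₀ ℕ) i)
        (fun j _ => Nat.zero_le _) hi)
      simp
    omega
  | zero => intro c hc; simp at hc
  | add x y _ _ hx hy =>
    intro c hc
    have := MvPolynomial.support_add hc
    rcases Finset.mem_union.mp this with h | h
    · exact hx c h
    · exact hy c h
  | smul q x _ hx =>
    intro c hc hcon
    rw [smul_eq_mul] at hc
    have := MvPolynomial.support_mul q x hc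
    obtain ⟨c1, hc1, c2, hc2, rfl⟩ := Finset.mem_add.mp this
    refine hx c2 hc2 (L.down_closed _ hcon _ ?_)
    intro i hi
    rw [Finset.mem_filter] at hi ⊢
    refine ⟨Finset.mem_univ _, ?_⟩
    rw [Finsupp.add_apply]
    omega

theorem card_le (L : SComplex n) {k : Type u} [Field k] (g : Matrix (Fin n) (Fin n) k)
    (hg : g.det ≠ 0) (D : ℕ) (E N : Finset (Fin n →₀ ℕ))
    (hE : ∀ b ∈ E, b.degree = D ∧
      ∃ f ∈ (L.stanleyReisner k).map (linSubst g), IsLeading f b)
    (hN : ∀ c : Fin n →₀ ℕ, c.degree = D →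
      Finset.univ.filter (fun i => c i ≠ 0) ∉ L.faces → c ∈ N) : E.card ≤ N.card := by
  classical
  have h1 : ∀ b : E, ∃ p : MvPolynomial (Fin n) k, p ∈ L.stanleyReisner k ∧
      IsLeading (linSubst g (homogeneousComponent D p)) (b : Fin n →₀ ℕ) := by
    rintro ⟨b, hb⟩
    obtain ⟨hb1, f, hf1, hf2⟩ := hE b hb
    rw [Ideal.mem_map_iff_of_surjective (linSubst g) (linSubst_surjective g hg)] at hf1
    obtain ⟨p, hp, rfl⟩ := hf1
    refine ⟨p, hp, ?_⟩
    rw [← homogeneousComponent_linSubst]
    refine ⟨?_, ?_⟩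
    · rw [mem_support_iff, coeff_homogeneousComponent, if_pos hb1]
      exact mem_support_iff.mp hf2.1
    · intro c hc hcb
      refine hf2.2 c ?_ hcb
      rw [mem_support_iff, coeff_homogeneousComponent] at hc
      rw [mem_support_iff]
      intro h
      apply hc
      rw [h, ite_self]
  choose p hp1 hp2 using h1
  have hli := linearIndependent_of_leading E
    (fun b => linSubst g (homogeneousComponent D (p b))) hp2
  set W : Submodule k (MvPolynomial (Fin n) k) :=
    Submodule.span k (Set.range (fun c : N => linSubst g (monomial (c : Fin n →₀ ℕ) (1 : k)))) with hW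
  have hmem : ∀ b : E, linSubst g (homogeneousComponent D (p b)) ∈ W := by
    intro b
    rw [homogeneousComponent_apply, map_sum]
    refine Submodule.sum_mem _ (fun c hc => ?_)
    rw [Finset.mem_filter] at hc
    have hcN : c ∈ N := hN c hc.2 (support_of_mem_sr L (hp1 b) c hc.1)
    have h2 : (monomial c (coeff c (p b)) : MvPolynomial (Fin n) k) =
        (coeff c (p b)) • monomial c 1 := by
      rw [smul_monomial, smul_eq_mul, mul_one]
    rw [h2, map_smul]
    exact Submodule.smul_mem _ _ (Submodule.subset_span ⟨⟨c, hcN⟩, rfl⟩)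
  have : FiniteDimensional k W := FiniteDimensional.span_of_finite k (Set.finite_range _)
  calc E.card = Fintype.card E := (Fintype.card_coe E).symm
    _ = Module.finrank k (Submodule.span k (Set.range
          (fun b : E => linSubst g (homogeneousComponent D (p b))))) :=
        (finrank_span_eq_card hli).symm
    _ ≤ Module.finrank k W := by
        refine Submodule.finrank_mono ?_
        rw [Submodule.span_le]
        rintro _ ⟨b, rfl⟩
        exact hmem b
    _ ≤ Fintype.card N := finrank_range_le_card _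
    _ = N.card := Fintype.card_coe N

open Classical in
/-- the final count, with the counting inequality as a hypothesis -/
theorem gin_cyclic_of_count {n d : ℕ} (k : Type u) [Field k] [CharZero k] (L : SComplex n)
    (hcount : ∀ D : ℕ,
      ((Finset.piAntidiag (Finset.univ : Finset (Fin n)) D).filter (fun a => wt d a ≤ d)).card ≤
      ((Finset.piAntidiag (Finset.univ : Finset (Fin n)) D).filter
        (fun a => Finset.univ.filter (fun i => a i ≠ 0) ∈ L.faces)).card)
    (h : ∀ a : Fin n →₀ ℕ, d < wt d a → a ∈ ginExps (L.stanleyReisner k))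
    (a : Fin n →₀ ℕ) (ha : a ∈ ginExps (L.stanleyReisner k)) :
    d < wt d a := by
  by_contra hwa
  push Not at hwa
  set D := a.degree with hD
  set T : Finset (Fin n → ℕ) := Finset.piAntidiag (Finset.univ : Finset (Fin n)) D with hT
  have hmemT : ∀ b : Fin n → ℕ, b ∈ T ↔ ∑ i, b i = D := by
    intro b
    rw [hT, Finset.mem_piAntidiag]
    simp
  let e : (Fin n → ℕ) ↪ (Fin n →₀ ℕ) := Finsupp.equivFunOnFinite.symm.toEmbedding
  have he : ∀ b : Fin n → ℕ, ∀ i, e b i = b i := fun b i => rfl
  have hdeg : ∀ b : Fin n → ℕ, (e b).degree = ∑ i, b i := by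
    intro b
    rw [Finsupp.degree_eq_sum]
    rfl
  set E1 : Finset (Fin n →₀ ℕ) := (T.filter (fun b => ¬ wt d b ≤ d)).map e with hE1
  set N1 : Finset (Fin n →₀ ℕ) := (T.filter
    (fun b => ¬ Finset.univ.filter (fun i => b i ≠ 0) ∈ L.faces)).map e with hN1
  -- the polynomials
  have hP : ∀ b : Fin n →₀ ℕ, ∃ P : MvPolynomial (Fin n × Fin n) k, P ≠ 0 ∧
      (b ∈ insert a E1 → ∀ g : Matrix (Fin n) (Fin n) k,
        MvPolynomial.eval (fun q => g q.1 q.2) P ≠ 0 →
        ∃ f ∈ (L.stanleyReisner k).map (linSubst g), IsLeading f b) := by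
    intro b
    by_cases hb : b ∈ insert a E1
    · have hbg : b ∈ ginExps (L.stanleyReisner k) := by
        rcases Finset.mem_insert.mp hb with rfl | hb
        · exact ha
        · rw [hE1, Finset.mem_map] at hb
          obtain ⟨b', hb', rfl⟩ := hb
          rw [Finset.mem_filter] at hb'
          refine h _ ?_
          exact not_le.mp hb'.2
      obtain ⟨P, hP0, hP1⟩ := hbg
      exact ⟨P, hP0, fun _ => hP1⟩
    · exact ⟨1, one_ne_zero, fun hb' => absurd hb' hb⟩
  choose P hP0 hP1 using hP
  have hQ : (Matrix.det (Matrix.mvPolynomialX (Fin n) (Fin n) k)) *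
      ∏ b ∈ insert a E1, P b ≠ 0 := by
    refine mul_ne_zero (Matrix.det_mvPolynomialX_ne_zero (Fin n) k) ?_
    exact Finset.prod_ne_zero_iff.mpr (fun b _ => hP0 b)
  obtain ⟨x, hx⟩ : ∃ x : Fin n × Fin n → k, MvPolynomial.eval x
      ((Matrix.det (Matrix.mvPolynomialX (Fin n) (Fin n) k)) * ∏ b ∈ insert a E1, P b) ≠ 0 := by
    by_contra hcon
    push Not at hcon
    apply hQ
    apply MvPolynomial.funext
    intro x
    rw [hcon x, map_zero]
  set g : Matrix (Fin n) (Fin n) k := fun i j => x (i, j) with hg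
  have hxg : x = fun q => g q.1 q.2 := rfl
  rw [map_mul, map_prod, hxg] at hx
  have hdet : g.det ≠ 0 := by
    have h1 := left_ne_zero_of_mul hx
    rw [RingHom.map_det, Matrix.mvPolynomialX_mapMatrix_eval] at h1
    exact h1
  have hPg : ∀ b ∈ insert a E1, MvPolynomial.eval (fun q => g q.1 q.2) (P b) ≠ 0 :=
    Finset.prod_ne_zero_iff.mp (right_ne_zero_of_mul hx)
  have haE : a ∉ E1 := by
    intro hcon
    rw [hE1, Finset.mem_map] at hcon
    obtain ⟨b', hb', rfl⟩ := hcon
    rw [Finset.mem_filter] at hb'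
    exact hb'.2 hwa
  have key := card_le L g hdet D (insert a E1) N1 ?_ ?_
  · rw [Finset.card_insert_of_notMem haE, hE1, hN1, Finset.card_map, Finset.card_map] at key
    have h1 := Finset.card_filter_add_card_filter_not (s := T) (fun b => wt d b ≤ d)
    have h2 := Finset.card_filter_add_card_filter_not (s := T)
      (fun b => Finset.univ.filter (fun i => b i ≠ 0) ∈ L.faces)
    have h3 := hcount D
    rw [← hT] at h3
    omega
  · intro b hb
    refine ⟨?_, hP1 b hb g (hPg b hb)⟩
    rcases Finset.mem_insert.mp hb with rfl | hb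
    · rfl
    · rw [hE1, Finset.mem_map] at hb
      obtain ⟨b', hb', rfl⟩ := hb
      rw [Finset.mem_filter] at hb'
      rw [hdeg]
      exact (hmemT _).mp hb'.1
  · intro c hc hcf
    rw [hN1, Finset.mem_map]
    refine ⟨c, ?_, ?_⟩
    · rw [Finset.mem_filter]
      refine ⟨?_, hcf⟩
      rw [hmemT, ← hc, Finsupp.degree_eq_sum]
    · ext i; rfl

end TaskF

end Pool.Agent.KS
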