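import Mathlib

/-!
Mod 2 cochains on lists: coboundary and barycentric subdivision, written dually
(as operators on functions `List E → ZMod 2`); the Fan cochain on lists of labels.
-/

set_option autoImplicit false

namespace Pool.Agent.KS.TaskT

variable {E : Type*}

lemma z2add (x : ZMod 2) : x + x = 0 := CharTwo.add_self_eq_zero x

/-- The (augmented) coboundary of a cochain on lists. -/
def dl : (List E → ZMod 2) → List E → ZMod 2
  | _, [] => 0
  | a, x :: l => a l + dl (fun l' => a (x :: l')) l

@[simp] lemma dl_nil (a : List E → ZMod 2) : dl a [] = 0 := rfl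

@[simp] lemma dl_cons (a : List E → ZMod 2) (x : E) (l : List E) :
    dl a (x :: l) = a l + dl (fun l' => a (x :: l')) l := rfl

lemma dl_add (a b : List E → ZMod 2) (l : List E) :
    dl (fun l' => a l' + b l') l = dl a l + dl b l := by
  induction l generalizing a b with
  | nil => simp
  | cons x l ih =>
    simp only [dl_cons]
    rw [ih]
    ring

lemma dl_smul (c : ZMod 2) (a : List E → ZMod 2) (l : List E) :
    dl (fun l' => c * a l') l = c * dl a l := by
  induction l generalizing a with
  | nil => simp
  | cons x l ih =>
    simp only [dl_cons]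
    rw [ih]
    ring

lemma dl_zero (l : List E) : dl (fun _ => (0 : ZMod 2)) l = 0 := by
  induction l with
  | nil => rfl
  | cons x l ih => simp only [dl_cons, zero_add]; exact ih

/-- congruence: the coboundary at `l` only sees the faces of `l`. -/
lemma dl_congr {a b : List E → ZMod 2} {l : List E}
    (h : ∀ l', l'.Sublist l → l'.length + 1 = l.length → a l' = b l') : dl a l = dl b l := by
  induction l generalizing a b with
  | nil => rfl
  | cons x l ih =>
    simp only [dl_cons]
    rw [h l (List.sublist_cons_self x l) (by simp)]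
    congr 1
    apply ih
    intro l' hl' hlen
    exact h _ (hl'.cons_cons x) (by simp [hlen])

lemma dl_dl (a : List E → ZMod 2) (l : List E) : dl (dl a) l = 0 := by
  induction l generalizing a with
  | nil => rfl
  | cons x l ih =>
    have h1 : dl (fun l' => dl a (x :: l')) l
        = dl (fun l' => a l' + dl (fun l'' => a (x :: l'')) l') l := rfl
    rw [dl_cons, h1, dl_add, ih (fun l'' => a (x :: l'')), add_zero]
    exact z2add _

lemma dl_map {F : Type*} (f : E → F) (a : List F → ZMod 2) (l : List E) :
    dl (fun l' => a (l'.map f)) l = dl a (l.map f) := by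
  induction l generalizing a with
  | nil => rfl
  | cons x l ih =>
    simp only [dl_cons, List.map_cons]
    rw [ih (fun l'' => a (f x :: l''))]

/-- for permutation invariant cochains the coboundary is permutation invariant -/
lemma dl_perm {l l' : List E} (hl : l.Perm l') (a : List E → ZMod 2)
    (ha : ∀ m m' : List E, m.Perm m' → a m = a m') : dl a l = dl a l' := by
  induction hl generalizing a with
  | nil => rfl
  | cons x h ih =>
    rename_i l₁ l₂
    simp only [dl_cons]
    rw [ha _ _ h, ih (fun l' => a (x :: l')) (fun m m' hm => ha _ _ (hm.cons x))]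
  | swap x y l =>
    simp only [dl_cons]
    have : dl (fun l' => a (y :: x :: l')) l = dl (fun l' => a (x :: y :: l')) l :=
      dl_congr fun m _ _ => ha _ _ (List.Perm.swap x y m)
    rw [this]
    ring
  | trans _ _ ih1 ih2 => rw [ih1 a ha, ih2 a ha]

/-! ### subdivision -/

section Sd

variable (bary : List E → E)

/-- Barycentric subdivision on cochains, with fuel. -/
def sdc : ℕ → (List E → ZMod 2) → List E → ZMod 2
  | 0, a, l => a l
  | n + 1, a, l => dl (sdc n (fun l' => a (bary l :: l'))) l

/-- Barycentric subdivision on cochains. -/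
def sd (a : List E → ZMod 2) (l : List E) : ZMod 2 := sdc bary l.length a l

@[simp] lemma sd_nil (a : List E → ZMod 2) : sd bary a [] = a [] := rfl

lemma sd_ne (a : List E → ZMod 2) {l : List E} (hl : l ≠ []) :
    sd bary a l = dl (sd bary (fun l' => a (bary l :: l'))) l := by
  obtain ⟨n, hn⟩ : ∃ n, l.length = n + 1 := by
    cases l with
    | nil => exact absurd rfl hl
    | cons x l => exact ⟨l.length, rfl⟩
  rw [sd, hn, sdc]
  apply dl_congr
  intro l' _ hlen
  rw [sd]
  congr 1
  omega

lemma sd_add (a b : List E → ZMod 2) (l : List E) :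
    sd bary (fun l' => a l' + b l') l = sd bary a l + sd bary b l := by
  induction hn : l.length using Nat.strong_induction_on generalizing a b l with
  | _ n ih =>
    by_cases hl : l = []
    · subst hl; simp
    · rw [sd_ne _ _ hl, sd_ne _ _ hl, sd_ne _ _ hl, ← dl_add]
      apply dl_congr
      intro l' _ hlen
      exact ih l'.length (by omega) _ _ _ rfl

/-- Subdivision is a chain map. -/
lemma sd_dl (a : List E → ZMod 2) (l : List E) : sd bary (dl a) l = dl (sd bary a) l := by
  induction hn : l.length using Nat.strong_induction_on generalizing a l with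
  | _ n ih =>
    by_cases hl : l = []
    · subst hl; simp
    · rw [sd_ne _ _ hl]
      have h1 : ∀ l', sd bary (fun l'' => dl a (bary l :: l'')) l'
          = sd bary a l' + sd bary (dl (fun l'' => a (bary l :: l''))) l' := by
        intro l'
        rw [← sd_add]
        rfl
      have h2 : dl (sd bary (fun l'' => dl a (bary l :: l''))) l
          = dl (fun l' => sd bary a l' + dl (sd bary (fun l'' => a (bary l :: l''))) l') l := by
        apply dl_congr
        intro l' _ hlen
        rw [h1, ih l'.length (by omega) _ _ rfl]
      rw [h2, dl_add, dl_dl, add_zero]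

/-- compatibility with a map commuting with barycentres -/
lemma sd_map (f : E → E) (hf : ∀ l : List E, l ≠ [] → bary (l.map f) = f (bary l))
    (a : List E → ZMod 2) (l : List E) :
    sd bary (fun l' => a (l'.map f)) l = sd bary a (l.map f) := by
  induction hn : l.length using Nat.strong_induction_on generalizing a l with
  | _ n ih =>
    by_cases hl : l = []
    · subst hl; simp
    · rw [sd_ne _ _ hl, sd_ne _ _ (by simpa using hl), ← dl_map f, hf l hl]
      apply dl_congr
      intro l' _ hlen
      exact ih l'.length (by omega) (fun l'' => a (f (bary l) :: l'')) l' rfl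

/-- iterated versions -/
lemma sd_iter_nil (r : ℕ) (a : List E → ZMod 2) : (sd bary)^[r] a [] = a [] := by
  induction r generalizing a with
  | zero => rfl
  | succ r ih => rw [Function.iterate_succ_apply, ih, sd_nil]

lemma sd_iter_add (r : ℕ) (a b : List E → ZMod 2) :
    (sd bary)^[r] (fun l' => a l' + b l')
      = fun l => (sd bary)^[r] a l + (sd bary)^[r] b l := by
  induction r generalizing a b with
  | zero => rfl
  | succ r ih =>
    rw [Function.iterate_succ_apply, Function.iterate_succ_apply, Function.iterate_succ_apply,
      ← ih]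
    congr 1
    funext l
    exact sd_add bary a b l

lemma sd_iter_dl (r : ℕ) (a : List E → ZMod 2) :
    (sd bary)^[r] (dl a) = dl ((sd bary)^[r] a) := by
  induction r generalizing a with
  | zero => rfl
  | succ r ih =>
    rw [Function.iterate_succ_apply, Function.iterate_succ_apply, ← ih]
    congr 1
    funext l
    exact sd_dl bary a l

lemma sd_iter_map (r : ℕ) (f : E → E) (hf : ∀ l : List E, l ≠ [] → bary (l.map f) = f (bary l))
    (a : List E → ZMod 2) :
    (sd bary)^[r] (fun l' => a (l'.map f)) = fun l => (sd bary)^[r] a (l.map f) := by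
  induction r generalizing a with
  | zero => rfl
  | succ r ih =>
    rw [Function.iterate_succ_apply, Function.iterate_succ_apply, ← ih]
    congr 1
    funext l
    exact sd_map bary f hf a l

end Sd

/-! ### the Fan cochain on lists of labels (natural numbers: `2 * index + sign`) -/

/-- alternation of signs along a list; the first sign has to be `s + 1` -/
def altl : ZMod 2 → List ℕ → ZMod 2
  | _, [] => 1
  | s, m :: l => ((m : ZMod 2) + s) * altl (s + 1) l

lemma z2two (s : ZMod 2) : s + 1 + 1 = s := by
  revert s; decide

lemma dl_altl (s : ZMod 2) (l : List ℕ) (hl : l ≠ []) :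
    dl (altl s) l = altl s l + altl (s + 1) l := by
  induction l generalizing s with
  | nil => exact absurd rfl hl
  | cons m l ih =>
    have h1 : dl (fun l' => altl s (m :: l')) l = ((m : ZMod 2) + s) * dl (altl (s + 1)) l := by
      rw [← dl_smul]
      rfl
    rw [dl_cons, h1]
    by_cases h : l = []
    · subst h
      simp only [altl, dl_nil, mul_zero, add_zero, mul_one]
      have h1 := z2add ((m : ZMod 2) + s)
      linear_combination (-1 : ZMod 2) * h1
    · rw [ih (s + 1) h, z2two]
      simp only [altl, z2two]
      ring

/-- change of the sign bit -/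
def flip (m : ℕ) : ℕ := if Even m then m + 1 else m - 1

lemma flip_cast (m : ℕ) : ((flip m : ℕ) : ZMod 2) = (m : ZMod 2) + 1 := by
  unfold flip
  split_ifs with h
  · push_cast; rfl
  · have h' : Odd m := Nat.not_even_iff_odd.mp h
    obtain ⟨k, hk⟩ := h'
    subst hk
    have h2 : (2 : ZMod 2) = 0 := rfl
    rw [Nat.add_sub_cancel]
    push_cast
    linear_combination (-1 : ZMod 2) * h2

lemma altl_flip (s : ZMod 2) (l : List ℕ) : altl s (l.map flip) = altl (s + 1) l := by
  induction l generalizing s with
  | nil => rfl
  | cons m l ih =>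
    simp only [List.map_cons, altl]
    rw [ih, flip_cast]
    ring

lemma flip_lt {m m' : ℕ} (h : m < m') (h' : flip m ≠ m') : flip m < flip m' := by
  have e : ∀ k : ℕ, flip k = if k % 2 = 0 then k + 1 else k - 1 := by
    intro k
    unfold flip
    simp only [Nat.even_iff]
  rw [e] at h'
  rw [e, e]
  split_ifs at h' ⊢ <;> omega

/-- symmetrisation -/
def sym (g : List ℕ → ZMod 2) (l : List ℕ) : ZMod 2 :=
  if l.Nodup then g (l.toFinset.sort (· ≤ ·)) else 0

lemma sym_perm (g : List ℕ → ZMod 2) {m m' : List ℕ} (h : m.Perm m') : sym g m = sym g m' := by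
  unfold sym
  rw [List.toFinset_eq_of_perm _ _ h]
  by_cases hm : m.Nodup
  · rw [if_pos hm, if_pos (h.nodup_iff.mp hm)]
  · rw [if_neg hm, if_neg (fun h' => hm (h.nodup_iff.mpr h'))]

lemma sym_sorted (g : List ℕ → ZMod 2) {l : List ℕ} (h : l.Pairwise (· ≤ ·)) (hn : l.Nodup) :
    sym g l = g l := by
  unfold sym
  rw [if_pos hn, (List.toFinset_sort (· ≤ ·) hn).mpr h]

lemma dl_sym (g : List ℕ → ZMod 2) (l : List ℕ) : dl (sym g) l = sym (dl g) l := by
  by_cases hn : l.Nodup
  · set l' := l.toFinset.sort (· ≤ ·) with hl'
    have hs : l'.Pairwise (· ≤ ·) := Finset.pairwise_sort _ _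
    have hn' : l'.Nodup := Finset.sort_nodup _ _
    have hp : l.Perm l' := by
      have := Finset.sort_toFinset l.toFinset (· ≤ ·)
      apply List.perm_of_nodup_nodup_toFinset_eq hn hn'
      rw [hl', this]
    rw [dl_perm hp (sym g) (fun m m' h => sym_perm g h), sym_perm (dl g) hp,
      sym_sorted (dl g) hs hn']
    apply dl_congr
    intro m hm _
    exact sym_sorted g (hs.sublist hm) (hn'.sublist hm)
  · have : sym (dl g) l = 0 := by unfold sym; rw [if_neg hn]
    rw [this]
    obtain ⟨x, hx⟩ : ∃ x, l.Duplicate x := by
      by_contra hcon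
      push Not at hcon
      exact hn (List.nodup_iff_forall_not_duplicate.mpr hcon)
    have h2 : [x, x].Sublist l := List.duplicate_iff_sublist.mp hx
    obtain ⟨m, hm⟩ := h2.exists_perm_append
    rw [dl_perm hm (sym g) (fun m m' h => sym_perm g h)]
    simp only [List.cons_append, List.nil_append, dl_cons]
    have h3 : dl (fun l' => sym g (x :: x :: l')) m = 0 := by
      rw [← dl_zero m]
      apply dl_congr
      intro l' _ _
      unfold sym
      rw [if_neg (by simp)]
    rw [h3, add_zero]
    exact z2add _

/-- the Fan cochain -/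
def fan (l : List ℕ) : ZMod 2 := sym (altl 0) l

lemma fan_nil : fan [] = 1 := by
  unfold fan sym
  simp [altl]

/-- The key relation (Fan): for lists of labels without complementary labels. -/
lemma fan_rel {l : List ℕ} (hl : l ≠ []) (hc : ∀ m ∈ l, ∀ m' ∈ l, flip m ≠ m') :
    fan l + fan (l.map flip) = dl fan l := by
  have h0 : dl fan l = sym (dl (altl 0)) l := dl_sym _ _
  rw [h0]
  by_cases hn : l.Nodup
  · set l' := l.toFinset.sort (· ≤ ·) with hl'
    have hs : l'.Pairwise (· ≤ ·) := Finset.pairwise_sort _ _
    have hn' : l'.Nodup := Finset.sort_nodup _ _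
    have hp : l.Perm l' := by
      have := Finset.sort_toFinset l.toFinset (· ≤ ·)
      apply List.perm_of_nodup_nodup_toFinset_eq hn hn'
      rw [hl', this]
    have hl0 : l' ≠ [] := by
      intro h
      rw [h] at hp
      exact hl (List.perm_nil.mp hp)
    have hlt : l'.Pairwise (· < ·) := by
      have := hs.and hn'
      exact this.imp fun ⟨h1, h2⟩ => lt_of_le_of_ne h1 h2
    have hflt : (l'.map flip).Pairwise (· < ·) := by
      rw [List.pairwise_map]
      apply List.Pairwise.imp_of_mem _ hlt
      intro a b ha hb hab
      exact flip_lt hab (hc a (hp.mem_iff.mpr ha) b (hp.mem_iff.mpr hb))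
    have e1 : fan l = altl 0 l' := by
      unfold fan
      rw [sym_perm _ hp, sym_sorted _ hs hn']
    have e2 : fan (l.map flip) = altl 0 (l'.map flip) := by
      unfold fan
      rw [sym_perm _ (hp.map flip), sym_sorted _ (hflt.imp fun h => h.le)
        (hflt.imp fun h => h.ne)]
    have e3 : sym (dl (altl 0)) l = dl (altl 0) l' := by
      rw [sym_perm _ hp, sym_sorted _ hs hn']
    rw [e1, e2, e3, altl_flip, dl_altl _ _ hl0]
  · have hn2 : ¬ (l.map flip).Nodup := by
      intro h
      exact hn (List.Nodup.of_map _ h)
    have e1 : fan l = 0 := by unfold fan sym; rw [if_neg hn]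
    have e2 : fan (l.map flip) = 0 := by unfold fan sym; rw [if_neg hn2]
    have e3 : sym (dl (altl 0)) l = 0 := by unfold sym; rw [if_neg hn]
    rw [e1, e2, e3, add_zero]

/-- too many labels -/
lemma fan_long {d : ℕ} {l : List ℕ} (hlen : l.length = d + 1) (hlt : ∀ m ∈ l, m < 2 * d)
    (hc : ∀ m ∈ l, ∀ m' ∈ l, flip m ≠ m') : fan l = 0 := by
  unfold fan sym
  rw [if_neg]
  intro hn
  have h1 : (l.toFinset.image (fun m => m / 2)).card = l.toFinset.card := by
    apply Finset.card_image_of_injOn
    intro m hm m' hm' hmm
    simp only [Finset.mem_coe, List.mem_toFinset] at hm hm'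
    simp only at hmm
    by_contra hne
    have a1 := hc m hm m' hm'
    unfold flip at a1
    split_ifs at a1 with h
    · obtain ⟨k, hk⟩ := h
      omega
    · have h' : Odd m := Nat.not_even_iff_odd.mp h
      obtain ⟨k, hk⟩ := h'
      omega
  have h2 : (l.toFinset.image (fun m => m / 2)) ⊆ Finset.range d := by
    intro x hx
    simp only [Finset.mem_image, List.mem_toFinset] at hx
    obtain ⟨m, hm, rfl⟩ := hx
    have := hlt m hm
    simp only [Finset.mem_range]
    omega
  have h3 := Finset.card_le_card h2
  rw [h1, Finset.card_range, List.toFinset_card_of_nodup hn] at h3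
  omega

end Pool.Agent.KS.TaskT
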