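import Pool.Agent.MP_dd083e_co.TaskT1

/-!
Locality of the iterated barycentric subdivision (mesh estimate).
-/

set_option autoImplicit false

namespace Pool.Agent.KS.TaskT

variable {V : Type*} [NormedAddCommGroup V] [NormedSpace ℝ V]

/-- barycentre of a list of points -/
noncomputable def bary (l : List V) : V := (l.length : ℝ)⁻¹ • l.sum

omit [NormedSpace ℝ V] in
lemma sum_map_neg' (l : List V) : (l.map (fun x => -x)).sum = - l.sum := by
  induction l with
  | nil => simp
  | cons x l ih => simp only [List.map_cons, List.sum_cons, ih]; abel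

lemma bary_map_neg (l : List V) : bary (l.map (fun x => -x)) = - bary l := by
  unfold bary
  rw [sum_map_neg', List.length_map, smul_neg]

lemma sum_map_sub (v : V) (l : List V) :
    (l.map (fun x => x - v)).sum = l.sum - (l.length : ℝ) • v := by
  induction l with
  | nil => simp
  | cons x l ih =>
    simp only [List.map_cons, List.sum_cons, ih, List.length_cons]
    push_cast
    rw [add_smul, one_smul]
    abel

omit [NormedSpace ℝ V] in
lemma norm_sum_le (l : List V) (δ : ℝ) (h : ∀ x ∈ l, ‖x‖ ≤ δ) : ‖l.sum‖ ≤ l.length * δ := by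
  induction l with
  | nil => simp
  | cons x l ih =>
    simp only [List.sum_cons, List.length_cons]
    have h1 := h x (by simp)
    have h2 := ih (fun y hy => h y (by simp [hy]))
    have h3 := norm_add_le x l.sum
    push_cast
    linarith

lemma dist_bary_le {l : List V} {δ : ℝ} (h : ∀ p ∈ l, ∀ q ∈ l, dist p q ≤ δ) {v : V}
    (hv : v ∈ l) : dist (bary l) v ≤ (1 - 1 / (l.length : ℝ)) * δ := by
  obtain ⟨l1, l2, rfl⟩ := List.append_of_mem hv
  set l := l1 ++ v :: l2 with hl
  have hlen : (l.length : ℝ) = l1.length + l2.length + 1 := by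
    rw [hl]
    simp only [List.length_append, List.length_cons]
    push_cast
    ring
  have hpos : (0 : ℝ) < l.length := by rw [hlen]; positivity
  have h1 : bary l - v = (l.length : ℝ)⁻¹ • (l.map (fun x => x - v)).sum := by
    rw [sum_map_sub, smul_sub, smul_smul, inv_mul_cancel₀ hpos.ne', one_smul]
    rfl
  have h2 : (l.map (fun x => x - v)).sum
      = (l1.map (fun x => x - v)).sum + (l2.map (fun x => x - v)).sum := by
    rw [hl]
    simp
  have h3 : ‖(l1.map (fun x => x - v)).sum‖ ≤ l1.length * δ := by
    have := norm_sum_le (l1.map (fun x => x - v)) δ ?_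
    · simpa using this
    · intro x hx
      rw [List.mem_map] at hx
      obtain ⟨y, hy, rfl⟩ := hx
      rw [← dist_eq_norm]
      exact h y (by simp [hl, hy]) v hv
  have h4 : ‖(l2.map (fun x => x - v)).sum‖ ≤ l2.length * δ := by
    have := norm_sum_le (l2.map (fun x => x - v)) δ ?_
    · simpa using this
    · intro x hx
      rw [List.mem_map] at hx
      obtain ⟨y, hy, rfl⟩ := hx
      rw [← dist_eq_norm]
      exact h y (by simp [hl, hy]) v hv
  rw [dist_eq_norm, h1, h2, norm_smul, Real.norm_of_nonneg (by positivity)]
  have h5 := norm_add_le (l1.map (fun x => x - v)).sum (l2.map (fun x => x - v)).sum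
  have h6 : (1 - 1 / (l.length : ℝ)) * δ = (l.length : ℝ)⁻¹ * ((l1.length + l2.length) * δ) := by
    have : (l1.length : ℝ) + l2.length = l.length - 1 := by rw [hlen]; ring
    rw [this]
    field_simp
  rw [h6]
  apply mul_le_mul_of_nonneg_left _ (by positivity)
  linarith

lemma dist_bary_hull {l : List V} {δ : ℝ} (h : ∀ p ∈ l, ∀ q ∈ l, dist p q ≤ δ) {q : V}
    (hq : q ∈ convexHull ℝ {x | x ∈ l}) : dist (bary l) q ≤ (1 - 1 / (l.length : ℝ)) * δ := by
  have h1 : convexHull ℝ {x | x ∈ l}
      ⊆ Metric.closedBall (bary l) ((1 - 1 / (l.length : ℝ)) * δ) := by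
    apply convexHull_min _ (convex_closedBall _ _)
    intro v hv
    rw [Metric.mem_closedBall, dist_comm]
    exact dist_bary_le h hv
  have := h1 hq
  rwa [Metric.mem_closedBall, dist_comm] at this

lemma bary_mem {K : Set V} (hK : Convex ℝ K) (l : List V) (hl : l ≠ []) (h : ∀ p ∈ l, p ∈ K) :
    bary l ∈ K := by
  induction l with
  | nil => exact absurd rfl hl
  | cons x l ih =>
    by_cases h0 : l = []
    · subst h0
      have : bary [x] = x := by simp [bary]
      rw [this]
      exact h x (by simp)
    · have h1 := ih h0 (fun p hp => h p (by simp [hp]))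
      have hx := h x (by simp)
      have hpos : (0 : ℝ) < l.length := by
        have : 0 < l.length := List.length_pos_iff.mpr h0
        exact_mod_cast this
      have h2 : bary (x :: l) = (1 / ((l.length : ℝ) + 1)) • x
          + ((l.length : ℝ) / (l.length + 1)) • bary l := by
        unfold bary
        simp only [List.length_cons, List.sum_cons]
        rw [smul_smul, smul_add]
        push_cast
        congr 2
        · rw [one_div]
        · field_simp
      rw [h2]
      apply hK hx h1
      · positivity
      · positivity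
      · field_simp
        ring

/-- one step locality -/
lemma sd_congr1 (N : ℕ) {a a' : List V → ZMod 2} {l : List V} {δ : ℝ} (hδ : 0 ≤ δ)
    (hN : l.length ≤ N) (hd : ∀ p ∈ l, ∀ q ∈ l, dist p q ≤ δ)
    (h : ∀ l' : List V, l'.length = l.length → (∀ p ∈ l', p ∈ convexHull ℝ {x | x ∈ l}) →
      (∀ p ∈ l', ∀ q ∈ l', dist p q ≤ (1 - 1 / (N : ℝ)) * δ) → a l' = a' l') :
    sd bary a l = sd bary a' l := by
  induction hn : l.length using Nat.strong_induction_on generalizing a a' l with
  | _ m ih =>
    by_cases hl : l = []
    · subst hl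
      rw [sd_nil, sd_nil]
      exact h [] rfl (by simp) (by simp)
    · have hlpos : 0 < l.length := List.length_pos_iff.mpr hl
      have hmono : (1 - 1 / (l.length : ℝ)) * δ ≤ (1 - 1 / (N : ℝ)) * δ := by
        apply mul_le_mul_of_nonneg_right _ hδ
        have : (1 : ℝ) / N ≤ 1 / l.length := by
          apply one_div_le_one_div_of_le
          · exact_mod_cast hlpos
          · exact_mod_cast hN
        linarith
      have hrho : 0 ≤ (1 - 1 / (l.length : ℝ)) * δ := by
        apply mul_nonneg _ hδ
        have h1 : (1 : ℝ) ≤ l.length := by exact_mod_cast hlpos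
        have : (1 : ℝ) / l.length ≤ 1 := by
          rw [div_le_one (by linarith)]
          exact h1
        linarith
      rw [sd_ne _ _ hl, sd_ne _ _ hl]
      apply dl_congr
      intro l0 hsub hlen0
      have hsubset : ∀ x ∈ l0, x ∈ l := fun x hx => hsub.subset hx
      have hhull : convexHull ℝ {x | x ∈ l0} ⊆ convexHull ℝ {x | x ∈ l} :=
        convexHull_mono (fun x hx => hsubset x hx)
      apply ih l0.length (by omega) (by omega)
        (fun p hp q hq => hd p (hsubset p hp) q (hsubset q hq)) _ rfl
      intro l' hlen' hmem hdist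
      apply h
      · simp only [List.length_cons]; omega
      · intro p hp
        rw [List.mem_cons] at hp
        rcases hp with rfl | hp
        · exact bary_mem (convex_convexHull ℝ _) l hl (fun q hq => subset_convexHull ℝ _ hq)
        · exact hhull (hmem p hp)
      · intro p hp q hq
        rw [List.mem_cons] at hp hq
        rcases hp with rfl | hp <;> rcases hq with rfl | hq
        · rw [dist_self]; linarith
        · exact le_trans (dist_bary_hull hd (hhull (hmem q hq))) hmono
        · rw [dist_comm]
          exact le_trans (dist_bary_hull hd (hhull (hmem p hp))) hmono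
        · exact hdist p hp q hq

/-- locality of the iterated subdivision -/
lemma sd_iter_congr (N : ℕ) {K : Set V} (hK : Convex ℝ K) (r : ℕ) {a a' : List V → ZMod 2}
    {l : List V} {δ : ℝ} (hδ : 0 ≤ δ) (hN0 : 0 < N)
    (hN : l.length ≤ N) (hlK : ∀ p ∈ l, p ∈ K) (hd : ∀ p ∈ l, ∀ q ∈ l, dist p q ≤ δ)
    (h : ∀ l' : List V, l'.length = l.length → (∀ p ∈ l', p ∈ K) →
      (∀ p ∈ l', ∀ q ∈ l', dist p q ≤ (1 - 1 / (N : ℝ)) ^ r * δ) → a l' = a' l') :
    (sd bary)^[r] a l = (sd bary)^[r] a' l := by
  induction r generalizing l δ with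
  | zero => exact h l rfl hlK (by simpa using hd)
  | succ r ih =>
    rw [Function.iterate_succ_apply', Function.iterate_succ_apply']
    apply sd_congr1 N hδ hN hd
    intro l' hlen' hmem hdist
    have hrho : 0 ≤ (1 - 1 / (N : ℝ)) := by
      have h1 : (1 : ℝ) ≤ N := by exact_mod_cast hN0
      have : (1 : ℝ) / N ≤ 1 := by
        rw [div_le_one (by linarith)]
        exact h1
      linarith
    apply ih (δ := (1 - 1 / (N : ℝ)) * δ) (mul_nonneg hrho hδ) (by omega) _ hdist
    · intro l'' hlen'' hmem'' hdist''
      apply h l'' (by omega) hmem''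
      intro p hp q hq
      have := hdist'' p hp q hq
      rw [pow_succ, mul_assoc]
      exact this
    · intro p hp
      exact convexHull_min (fun x hx => hlK x hx) hK (hmem p hp)

lemma sd_iter_zero (r : ℕ) (bar : List V → V) :
    (sd bar)^[r] (fun _ => (0 : ZMod 2)) = fun _ => 0 := by
  have h : sd bar (fun _ => (0 : ZMod 2)) = fun _ => 0 := by
    funext l
    induction hn : l.length using Nat.strong_induction_on generalizing l with
    | _ m ih =>
      by_cases hl : l = []
      · subst hl; rfl
      · have h2 : dl (sd bar (fun _ => (0 : ZMod 2))) l = dl (fun _ => (0 : ZMod 2)) l := by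
          apply dl_congr
          intro l' _ hlen
          exact ih l'.length (by omega) l' rfl
        rw [sd_ne _ _ hl, h2, dl_zero]
  induction r with
  | zero => rfl
  | succ r ih => rw [Function.iterate_succ_apply, h, ih]

end Pool.Agent.KS.TaskT
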