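import Pool.Agent.MP_dd083e_co.TaskT2
import Pool.Agent.MP_dd083e_co.Defs2

/-!
The deleted join as a subset of the cross-polytope, the odd map defined by an injective map to
the sphere, and the labels.
-/

set_option autoImplicit false

namespace Pool.Agent.KS.TaskT

variable {n d : ℕ}

/-- positive part -/
def posp (z : Fin n → ℝ) : Fin n → ℝ := fun i => max (z i) 0

lemma posp_nonneg (z : Fin n → ℝ) (i : Fin n) : 0 ≤ posp z i := le_max_right _ _

lemma posp_sub (z : Fin n → ℝ) (i : Fin n) : posp z i - posp (-z) i = z i := by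
  simp only [posp, Pi.neg_apply]
  rcases le_total 0 (z i) with h | h
  · rw [max_eq_left h, max_eq_right (by linarith)]; ring
  · rw [max_eq_right h, max_eq_left (by linarith)]; ring

lemma posp_add (z : Fin n → ℝ) (i : Fin n) : posp z i + posp (-z) i = |z i| := by
  simp only [posp, Pi.neg_apply]
  rcases le_total 0 (z i) with h | h
  · rw [max_eq_left h, max_eq_right (by linarith), abs_of_nonneg h]; ring
  · rw [max_eq_right h, max_eq_left (by linarith), abs_of_nonpos h]; ring

lemma posp_mul (z : Fin n → ℝ) (i : Fin n) : posp z i * posp (-z) i = 0 := by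
  simp only [posp, Pi.neg_apply]
  rcases le_total 0 (z i) with h | h
  · rw [max_eq_right (show - z i ≤ 0 by linarith)]; ring
  · rw [max_eq_right h]; ring

lemma continuous_posp : Continuous (posp : (Fin n → ℝ) → (Fin n → ℝ)) := by
  unfold posp
  fun_prop

/-- support -/
noncomputable def supp (x : Fin n → ℝ) : Finset (Fin n) := Finset.univ.filter (fun i => x i ≠ 0)

/-- the cone over the realization -/
def coneSet (L : SComplex n) : Set (Fin n → ℝ) :=
  {x | (∀ i, 0 ≤ x i) ∧ supp x ∈ L.faces}

/-- the deleted join inside the boundary of the cross-polytope -/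
def delJoin (L : SComplex n) : Set (Fin n → ℝ) :=
  {z | ∑ i, |z i| = 1 ∧ supp (posp z) ∈ L.faces ∧ supp (posp (-z)) ∈ L.faces}

/-- a simplex of the deleted join -/
def cell (A B : Finset (Fin n)) : Set (Fin n → ℝ) :=
  {z | (∀ i ∈ A, 0 ≤ z i) ∧ (∀ i ∈ B, z i ≤ 0) ∧ (∀ i, i ∉ A → i ∉ B → z i = 0) ∧
    ∑ i, |z i| = 1}

lemma cell_subset (L : SComplex n) {A B : Finset (Fin n)} (hA : A ∈ L.faces) (hB : B ∈ L.faces) :
    cell A B ⊆ delJoin L := by
  rintro z ⟨h1, h2, h3, h4⟩
  refine ⟨h4, ?_, ?_⟩
  · apply L.down_closed A hA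
    intro i hi
    simp only [supp, Finset.mem_filter, Finset.mem_univ, true_and] at hi
    by_contra hiA
    apply hi
    by_cases hiB : i ∈ B
    · simp only [posp]
      exact max_eq_right (h2 i hiB)
    · simp only [posp]
      rw [h3 i hiA hiB]
      simp
  · apply L.down_closed B hB
    intro i hi
    simp only [supp, Finset.mem_filter, Finset.mem_univ, true_and] at hi
    by_contra hiB
    apply hi
    by_cases hiA : i ∈ A
    · simp only [posp, Pi.neg_apply]
      exact max_eq_right (by linarith [h1 i hiA])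
    · simp only [posp, Pi.neg_apply]
      rw [h3 i hiA hiB]
      simp

lemma cell_closed (A B : Finset (Fin n)) : IsClosed (cell A B) := by
  unfold cell
  simp only [Set.ofPred_and]
  refine IsClosed.inter ?_ (IsClosed.inter ?_ (IsClosed.inter ?_ ?_))
  · simp only [Set.ofPred_forall]
    exact isClosed_iInter fun i => isClosed_iInter fun _ =>
      isClosed_le continuous_const (continuous_apply i)
  · simp only [Set.ofPred_forall]
    exact isClosed_iInter fun i => isClosed_iInter fun _ =>
      isClosed_le (continuous_apply i) continuous_const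
  · simp only [Set.ofPred_forall]
    exact isClosed_iInter fun i => isClosed_iInter fun _ => isClosed_iInter fun _ =>
      isClosed_eq (continuous_apply i) continuous_const
  · apply isClosed_eq _ continuous_const
    fun_prop

lemma cell_convex (A B : Finset (Fin n)) : Convex ℝ (cell A B) := by
  rintro z ⟨h1, h2, h3, h4⟩ w ⟨g1, g2, g3, g4⟩ a b ha hb hab
  refine ⟨?_, ?_, ?_, ?_⟩
  · intro i hi
    simp only [Pi.add_apply, Pi.smul_apply, smul_eq_mul]
    have := mul_nonneg ha (h1 i hi)
    have := mul_nonneg hb (g1 i hi)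
    linarith
  · intro i hi
    simp only [Pi.add_apply, Pi.smul_apply, smul_eq_mul]
    have := mul_nonneg ha (neg_nonneg.mpr (h2 i hi))
    have := mul_nonneg hb (neg_nonneg.mpr (g2 i hi))
    linarith
  · intro i hiA hiB
    simp only [Pi.add_apply, Pi.smul_apply, smul_eq_mul]
    rw [h3 i hiA hiB, g3 i hiA hiB]
    ring
  · have key : ∀ i, |(a • z + b • w) i| = a * |z i| + b * |w i| := by
      intro i
      simp only [Pi.add_apply, Pi.smul_apply, smul_eq_mul]
      by_cases hiA : i ∈ A
      · have e1 := h1 i hiA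
        have e2 := g1 i hiA
        rw [abs_of_nonneg e1, abs_of_nonneg e2, abs_of_nonneg (by positivity)]
      · by_cases hiB : i ∈ B
        · have e1 := h2 i hiB
          have e2 := g2 i hiB
          rw [abs_of_nonpos e1, abs_of_nonpos e2, abs_of_nonpos]
          · ring
          · have := mul_nonneg ha (neg_nonneg.mpr e1)
            have := mul_nonneg hb (neg_nonneg.mpr e2)
            linarith
        · rw [h3 i hiA hiB, g3 i hiA hiB]
          simp
    simp only [key]
    rw [Finset.sum_add_distrib, ← Finset.mul_sum, ← Finset.mul_sum, h4, g4]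
    linarith

lemma mem_cell_self (L : SComplex n) {z : Fin n → ℝ} (hz : z ∈ delJoin L) :
    z ∈ cell (supp (posp z)) (supp (posp (-z))) := by
  refine ⟨?_, ?_, ?_, hz.1⟩
  · intro i hi
    simp only [supp, Finset.mem_filter, Finset.mem_univ, true_and] at hi
    by_contra h
    apply hi
    simp only [posp]
    exact max_eq_right (by linarith)
  · intro i hi
    simp only [supp, Finset.mem_filter, Finset.mem_univ, true_and] at hi
    by_contra h
    apply hi
    simp only [posp, Pi.neg_apply]
    exact max_eq_right (by linarith)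
  · intro i hi1 hi2
    simp only [supp, Finset.mem_filter, Finset.mem_univ, true_and, not_not] at hi1 hi2
    rw [← posp_sub z i, hi1, hi2, sub_zero]

lemma abs_le_one {z : Fin n → ℝ} (h : ∑ i, |z i| = 1) (i : Fin n) : |z i| ≤ 1 := by
  rw [← h]
  exact Finset.single_le_sum (f := fun i => |z i|) (fun j _ => abs_nonneg _) (Finset.mem_univ i)

lemma delJoin_compact (L : SComplex n) : IsCompact (delJoin L) := by
  apply Metric.isCompact_of_isClosed_isBounded
  · have h : delJoin L = ⋃ p ∈ {p : Finset (Fin n) × Finset (Fin n) | p.1 ∈ L.faces ∧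
        p.2 ∈ L.faces}, cell p.1 p.2 := by
      ext z
      simp only [Set.mem_iUnion, Set.mem_ofPred_eq, exists_prop]
      constructor
      · intro hz
        exact ⟨(supp (posp z), supp (posp (-z))), ⟨hz.2.1, hz.2.2⟩, mem_cell_self L hz⟩
      · rintro ⟨p, ⟨h1, h2⟩, h3⟩
        exact cell_subset L h1 h2 h3
    rw [h]
    exact (Set.toFinite _).isClosed_biUnion fun p _ => cell_closed p.1 p.2
  · rw [Metric.isBounded_iff_subset_closedBall 0]
    refine ⟨1, fun z hz => ?_⟩
    rw [Metric.mem_closedBall, dist_zero_right]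
    rw [pi_norm_le_iff_of_nonneg (by norm_num)]
    intro i
    rw [Real.norm_eq_abs]
    exact abs_le_one hz.1 i

lemma neg_mem_delJoin (L : SComplex n) {z : Fin n → ℝ} (hz : z ∈ delJoin L) :
    -z ∈ delJoin L := by
  obtain ⟨h1, h2, h3⟩ := hz
  refine ⟨?_, h3, ?_⟩
  · simpa using h1
  · rw [neg_neg]; exact h2

section Map

variable (L : SComplex n) (f : L.realization → EuclideanSpace ℝ (Fin d))

open Classical in
/-- extension of `f` by zero -/
noncomputable def ext0 (x : Fin n → ℝ) : EuclideanSpace ℝ (Fin d) :=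
  if h : x ∈ L.realization then f ⟨x, h⟩ else 0

/-- homogeneous extension -/
noncomputable def homog (x : Fin n → ℝ) : EuclideanSpace ℝ (Fin d) :=
  (∑ i, x i) • ext0 L f ((∑ i, x i)⁻¹ • x)

/-- the odd map -/
noncomputable def oddMap (z : Fin n → ℝ) : EuclideanSpace ℝ (Fin d) :=
  homog L f (posp z) - homog L f (posp (-z))

lemma oddMap_neg (z : Fin n → ℝ) : oddMap L f (-z) = - oddMap L f z := by
  unfold oddMap
  rw [neg_neg, neg_sub]

variable {L f}

lemma scale_mem {x : Fin n → ℝ} (hx : x ∈ coneSet L) (hs : 0 < ∑ i, x i) :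
    (∑ i, x i)⁻¹ • x ∈ L.realization := by
  obtain ⟨h1, h2⟩ := hx
  refine ⟨?_, ?_, ?_⟩
  · intro i
    simp only [Pi.smul_apply, smul_eq_mul]
    exact mul_nonneg (by positivity) (h1 i)
  · simp only [Pi.smul_apply, smul_eq_mul]
    rw [← Finset.mul_sum]
    exact inv_mul_cancel₀ hs.ne'
  · have : Finset.univ.filter (fun i => ((∑ i, x i)⁻¹ • x) i ≠ 0) = supp x := by
      unfold supp
      apply Finset.filter_congr
      intro i _
      simp only [Pi.smul_apply, smul_eq_mul, ne_eq, mul_eq_zero, inv_eq_zero, hs.ne', false_or]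
    rw [this]
    exact h2

lemma homog_eq {x : Fin n → ℝ} (hx : x ∈ coneSet L) (hs : 0 < ∑ i, x i) :
    homog L f x = (∑ i, x i) • f ⟨(∑ i, x i)⁻¹ • x, scale_mem hx hs⟩ := by
  unfold homog ext0
  rw [dif_pos (scale_mem hx hs)]

lemma norm_homog (hnorm : ∀ x, ‖f x‖ = 1) {x : Fin n → ℝ} (hx : x ∈ coneSet L) :
    ‖homog L f x‖ = ∑ i, x i := by
  have h0 : 0 ≤ ∑ i, x i := Finset.sum_nonneg fun i _ => hx.1 i
  rcases h0.eq_or_lt with h | h
  · unfold homog
    rw [← h]
    simp
  · rw [homog_eq hx h, norm_smul, hnorm, mul_one, Real.norm_of_nonneg h.le]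

lemma norm_homog_le (hnorm : ∀ x, ‖f x‖ = 1) (x : Fin n → ℝ) :
    ‖homog L f x‖ ≤ |∑ i, x i| := by
  unfold homog
  rw [norm_smul, Real.norm_eq_abs]
  have : ‖ext0 L f ((∑ i, x i)⁻¹ • x)‖ ≤ 1 := by
    unfold ext0
    split_ifs with h
    · exact (hnorm _).le
    · simp
  calc |∑ i, x i| * ‖ext0 L f ((∑ i, x i)⁻¹ • x)‖ ≤ |∑ i, x i| * 1 :=
        mul_le_mul_of_nonneg_left this (abs_nonneg _)
    _ = |∑ i, x i| := mul_one _

lemma continuousOn_homog (hf : Continuous f) (hnorm : ∀ x, ‖f x‖ = 1) :
    ContinuousOn (homog L f) (coneSet L) := by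
  have hsum : Continuous (fun x : Fin n → ℝ => ∑ i, x i) := by fun_prop
  have hg : ContinuousOn (ext0 L f) L.realization := by
    rw [continuousOn_iff_continuous_domRestrict]
    have : L.realization.domRestrict (ext0 L f) = f := by
      funext x
      rw [Set.domRestrict_apply]
      unfold ext0
      rw [dif_pos x.2]
    rw [this]
    exact hf
  intro x hx
  have h0 : 0 ≤ ∑ i, x i := Finset.sum_nonneg fun i _ => hx.1 i
  rcases h0.eq_or_lt with h | h
  · have hx0 : homog L f x = 0 := by
      unfold homog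
      rw [← h]
      simp
    unfold ContinuousWithinAt
    rw [hx0]
    apply squeeze_zero_norm (a := fun y => |∑ i, y i|) (norm_homog_le hnorm)
    have : Filter.Tendsto (fun y : Fin n → ℝ => |∑ i, y i|) (nhds x) (nhds |∑ i, x i|) :=
      (hsum.abs).tendsto x
    rw [← h, abs_zero] at this
    exact this.mono_left nhdsWithin_le_nhds
  · have hs : Filter.Tendsto (fun y : Fin n → ℝ => (∑ i, y i)⁻¹ • y) (nhdsWithin x (coneSet L))
        (nhdsWithin ((∑ i, x i)⁻¹ • x) L.realization) := by
      rw [tendsto_nhdsWithin_iff]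
      constructor
      · have : ContinuousAt (fun y : Fin n → ℝ => (∑ i, y i)⁻¹ • y) x :=
          (hsum.continuousAt.inv₀ h.ne').smul continuousAt_id
        exact this.tendsto.mono_left nhdsWithin_le_nhds
      · have h1 : ∀ᶠ y in nhdsWithin x (coneSet L), 0 < ∑ i, y i :=
          (hsum.tendsto x).mono_left nhdsWithin_le_nhds |>.eventually_const_lt h
        filter_upwards [h1, self_mem_nhdsWithin] with y hy1 hy2
        exact scale_mem hy2 hy1
    have h2 := (hg _ (scale_mem hx h)).tendsto.comp hs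
    have h3 : Filter.Tendsto (fun y : Fin n → ℝ => ∑ i, y i) (nhdsWithin x (coneSet L))
        (nhds (∑ i, x i)) := (hsum.tendsto x).mono_left nhdsWithin_le_nhds
    exact h3.smul h2

lemma posp_mem_cone {z : Fin n → ℝ} (hz : z ∈ delJoin L) : posp z ∈ coneSet L :=
  ⟨posp_nonneg z, hz.2.1⟩

lemma posn_mem_cone {z : Fin n → ℝ} (hz : z ∈ delJoin L) : posp (-z) ∈ coneSet L :=
  ⟨posp_nonneg (-z), hz.2.2⟩

lemma continuousOn_oddMap (hf : Continuous f) (hnorm : ∀ x, ‖f x‖ = 1) :
    ContinuousOn (oddMap L f) (delJoin L) := by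
  apply ContinuousOn.sub
  · exact (continuousOn_homog hf hnorm).comp continuous_posp.continuousOn
      (fun z hz => posp_mem_cone hz)
  · exact (continuousOn_homog hf hnorm).comp
      (continuous_posp.comp continuous_neg).continuousOn (fun z hz => posn_mem_cone hz)

lemma homog_half {x : Fin n → ℝ} (hx : x ∈ coneSet L) (hs : ∑ i, x i = 1 / 2) :
    ∃ h : (2 : ℝ) • x ∈ L.realization, homog L f x = (1 / 2 : ℝ) • f ⟨(2 : ℝ) • x, h⟩ := by
  have h1 := scale_mem hx (by rw [hs]; norm_num)
  have h2 : (∑ i, x i)⁻¹ • x = (2 : ℝ) • x := by rw [hs]; norm_num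
  rw [h2] at h1
  refine ⟨h1, ?_⟩
  unfold homog ext0
  rw [h2, hs, dif_pos h1]

lemma oddMap_ne_zero (hinj : Function.Injective f) (hnorm : ∀ x, ‖f x‖ = 1) {z : Fin n → ℝ}
    (hz : z ∈ delJoin L) : oddMap L f z ≠ 0 := by
  intro h
  have h1 : homog L f (posp z) = homog L f (posp (-z)) := sub_eq_zero.mp h
  have h2 := norm_homog hnorm (posp_mem_cone hz)
  have h3 := norm_homog hnorm (posn_mem_cone hz)
  rw [h1, h3] at h2
  have h4 : ∑ i, posp z i + ∑ i, posp (-z) i = 1 := by
    rw [← Finset.sum_add_distrib, ← hz.1]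
    exact Finset.sum_congr rfl fun i _ => posp_add z i
  have h5 : ∑ i, posp z i = 1 / 2 := by linarith
  have h6 : ∑ i, posp (-z) i = 1 / 2 := by linarith
  obtain ⟨m1, e1⟩ := homog_half (f := f) (posp_mem_cone hz) h5
  obtain ⟨m2, e2⟩ := homog_half (f := f) (posn_mem_cone hz) h6
  rw [e1, e2] at h1
  have h7 := smul_right_injective (EuclideanSpace ℝ (Fin d)) (by norm_num : (1 / 2 : ℝ) ≠ 0) h1
  have h8 := congrArg Subtype.val (hinj h7)
  have h9 : posp z = posp (-z) :=
    smul_right_injective (Fin n → ℝ) (by norm_num : (2 : ℝ) ≠ 0) h8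
  have h10 : ∀ i, posp z i = 0 := by
    intro i
    have := posp_mul z i
    rw [← h9] at this
    exact mul_self_eq_zero.mp this
  have h11 : ∑ i, posp z i = 0 := Finset.sum_eq_zero fun i _ => h10 i
  rw [h11] at h5
  norm_num at h5

end Map

end Pool.Agent.KS.TaskT
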