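import Pool.Agent.MP_dd083e_co.Defs2

set_option autoImplicit false

/-! Transfer of the spanning property from characteristic 2 to arbitrary fields. -/

universe u

namespace Pool.Agent.KS.Transfer

open MvPolynomial

/-- If a matrix over an integral domain has injective `mulVec` then some maximal minor is
nonzero. -/
theorem exists_minor {R : Type*} [CommRing R] [IsDomain R] {ι κ : Type*} [Fintype ι] [Fintype κ]
    [DecidableEq κ] (M : Matrix ι κ R) (h : ∀ x : κ → R, M.mulVec x = 0 → x = 0) :
    ∃ r : κ → ι, (M.submatrix r id).det ≠ 0 := by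
  classical
  let K := FractionRing R
  let N : Matrix ι κ K := M.map (algebraMap R K)
  have hN : ∀ x : κ → K, N.mulVec x = 0 → x = 0 := by
    intro x hx
    obtain ⟨b, hb⟩ := IsLocalization.exist_integer_multiples_of_finset (nonZeroDivisors R)
      (Finset.univ.image x)
    have hb' : ∀ j, ∃ y : R, algebraMap R K y = (b : R) • x j := by
      intro j
      exact hb (x j) (Finset.mem_image_of_mem _ (Finset.mem_univ j))
    choose y hy using hb'
    have hb0 : (algebraMap R K (b : R)) ≠ 0 := by
      have : (b : R) ≠ 0 := nonZeroDivisors.ne_zero b.2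
      exact (map_ne_zero_iff _ (IsFractionRing.injective R K)).mpr this
    have hy0 : y = 0 := by
      apply h
      funext i
      apply IsFractionRing.injective R K
      have h1 := congrFun hx i
      simp only [Matrix.mulVec, dotProduct, Pi.zero_apply, map_sum, map_mul, map_zero] at h1 ⊢
      calc ∑ j, algebraMap R K (M i j) * algebraMap R K (y j)
          = algebraMap R K (b : R) * ∑ j, N i j * x j := by
            rw [Finset.mul_sum]
            refine Finset.sum_congr rfl fun j _ => ?_
            rw [hy j, Algebra.smul_def]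
            simp only [N, Matrix.map_apply]
            ring
        _ = 0 := by rw [h1, mul_zero]
    funext j
    have h2 := hy j
    rw [hy0, Pi.zero_apply, map_zero, Algebra.smul_def] at h2
    have := mul_eq_zero.mp h2.symm
    rcases this with h3 | h3
    · exact absurd h3 hb0
    · simpa using h3
  -- rows of N span
  have hinj : Function.Injective N.mulVecLin := by
    rw [← LinearMap.ker_eq_bot, LinearMap.ker_eq_bot']
    intro x hx
    exact hN x (by simpa using hx)
  have hrank : N.rank = Fintype.card κ := by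
    rw [Matrix.rank, LinearMap.finrank_range_of_inj hinj, Module.finrank_fintype_fun_eq_card]
  have hspan : Submodule.span K (Set.range N.row) = ⊤ := by
    apply Submodule.eq_top_of_finrank_eq
    rw [← Matrix.rank_eq_finrank_span_row, hrank, Module.finrank_fintype_fun_eq_card]
  obtain ⟨s, hs1, hs2, hs3⟩ : ∃ s : Set (κ → K), s ⊆ Set.range N.row ∧
      Submodule.span K s = ⊤ ∧ LinearIndependent K ((↑) : s → (κ → K)) := by
    obtain ⟨b, hb1, hb2, hb3⟩ := exists_linearIndependent K (Set.range N.row)
    exact ⟨b, hb1, by rw [hb2, hspan], hb3⟩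
  let bs : Module.Basis s K (κ → K) := Module.Basis.mk hs3 (by
    rw [Subtype.range_coe_subtype]; simp [hs2])
  have : Fintype s := FiniteDimensional.fintypeBasisIndex bs
  have hcard : Fintype.card s = Fintype.card κ := by
    rw [← Module.finrank_eq_card_basis bs, Module.finrank_fintype_fun_eq_card]
  let e : κ ≃ s := (Fintype.equivOfCardEq hcard.symm)
  have hr : ∀ j : κ, ∃ i : ι, N.row i = (e j : κ → K) := fun j => hs1 (e j).2
  choose r hr using hr
  refine ⟨r, ?_⟩
  have hdet : (N.submatrix r id).det ≠ 0 := by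
    have hli : LinearIndependent K (N.submatrix r id).row := by
      have : (N.submatrix r id).row = fun j => ((e j : s) : κ → K) := by
        funext j
        rw [← hr j]
        rfl
      rw [this]
      exact hs3.comp e e.injective
    have hu : IsUnit (N.submatrix r id) := Matrix.linearIndependent_rows_iff_isUnit.mp hli
    exact ((Matrix.isUnit_iff_isUnit_det _).mp hu).ne_zero
  intro h0
  apply hdet
  have : (N.submatrix r id) = (algebraMap R K).mapMatrix (M.submatrix r id) := by
    ext i j; rfl
  rw [this, ← RingHom.map_det, h0, map_zero]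


/-- The generic matrix over `F_2`. -/
noncomputable def gmat (σ : Type) (n : ℕ) : σ → Fin n → MvPolynomial (σ × Fin n) (ZMod 2) :=
  fun i v => MvPolynomial.X (i, v)

section gen

universe v w

variable {n : ℕ} {σ : Type} [Fintype σ] [DecidableEq σ]

/-- the exponents of degree `D` -/
abbrev Kap (σ : Type) [Fintype σ] [DecidableEq σ] (D : ℕ) : Type :=
  {a : σ →₀ ℕ // a ∈ (Finset.univ : Finset σ).finsuppAntidiag D}

/-- the exponents of degree at most `D` -/
def Bs (σ : Type) [Fintype σ] [DecidableEq σ] (D : ℕ) : Finset (σ →₀ ℕ) :=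
  (Finset.range (D + 1)).biUnion (fun m => (Finset.univ : Finset σ).finsuppAntidiag m)

abbrev I1 (L : SComplex n) (σ : Type) [Fintype σ] [DecidableEq σ] (D : ℕ) : Type :=
  {q : Finset (Fin n) × {b : σ →₀ ℕ // b ∈ Bs σ D} //
    q.1 ∉ L.faces ∧ q.1.card + q.2.1.degree = D}

abbrev I2 (σ : Type) [Fintype σ] [DecidableEq σ] (d D : ℕ) : Type :=
  {b : {b : σ →₀ ℕ // b ∈ Bs σ D} // (2 * D - d) + b.1.degree = D}

/-- the generators over any ring -/
noncomputable def gen (L : SComplex n) (o : σ) (d D : ℕ) (R : Type v) [CommRing R]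
    (g : σ → Fin n → R) : (I1 L σ D ⊕ I2 σ d D) → MvPolynomial σ R :=
  Sum.elim
    (fun q => (∏ v ∈ q.1.1, lform g v) * monomial q.1.2.1 1)
    (fun b => X o ^ (2 * D - d) * monomial b.1.1 1)

/-- the coefficient matrix of the generators -/
noncomputable def mat (L : SComplex n) (o : σ) (d D : ℕ) (R : Type v) [CommRing R]
    (g : σ → Fin n → R) : Matrix (I1 L σ D ⊕ I2 σ d D) (Kap σ D) R :=
  fun i a => coeff a.1 (gen L o d D R g i)

omit [DecidableEq σ] in
theorem map_lform (R : Type v) (S : Type w) [CommRing R] [CommRing S] (f : R →+* S)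
    (g : σ → Fin n → R) (v : Fin n) :
    MvPolynomial.map f (lform g v) = lform (fun i v => f (g i v)) v := by
  simp [lform]

theorem map_gen (L : SComplex n) (o : σ) (d D : ℕ) (R : Type v) (S : Type w) [CommRing R]
    [CommRing S] (f : R →+* S) (g : σ → Fin n → R) (i : I1 L σ D ⊕ I2 σ d D) :
    MvPolynomial.map f (gen L o d D R g i) = gen L o d D S (fun i v => f (g i v)) i := by
  rcases i with q | b
  · simp only [gen, Sum.elim_inl, map_mul, map_prod, map_lform, map_monomial, map_one]
  · simp only [gen, Sum.elim_inr, map_mul, map_pow, map_X, map_monomial, map_one]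

theorem mat_map (L : SComplex n) (o : σ) (d D : ℕ) (R : Type v) (S : Type w) [CommRing R]
    [CommRing S] (f : R →+* S) (g : σ → Fin n → R) :
    mat L o d D S (fun i v => f (g i v)) = (mat L o d D R g).map f := by
  ext i a
  change coeff a.1 (gen L o d D S (fun i v => f (g i v)) i) = f (coeff a.1 (gen L o d D R g i))
  rw [← map_gen L o d D R S f g i, coeff_map]

theorem gen_hom (L : SComplex n) (o : σ) (d D : ℕ) (R : Type v) [CommRing R]
    (g : σ → Fin n → R) (i : I1 L σ D ⊕ I2 σ d D) : (gen L o d D R g i).IsHomogeneous D := by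
  rcases i with q | b
  · simp only [gen, Sum.elim_inl]
    have h1 : (∏ v ∈ q.1.1, lform g v).IsHomogeneous q.1.1.card := by
      have := IsHomogeneous.prod q.1.1 (fun v => lform g v) (fun _ => 1) (by
        intro v _
        unfold lform
        apply IsHomogeneous.sum
        intro i _
        simpa using (isHomogeneous_C σ (g i v)).mul (isHomogeneous_X R i))
      simpa using this
    have h2 := h1.mul (isHomogeneous_monomial (R := R) (σ := σ) (1 : R) (d := q.1.2.1) rfl)
    have h3 := q.2.2
    rw [h3] at h2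
    exact h2
  · simp only [gen, Sum.elim_inr]
    have h2 := ((isHomogeneous_X R o).pow (2 * D - d)).mul
      (isHomogeneous_monomial (R := R) (σ := σ) (1 : R) (d := b.1.1) rfl)
    have h3 := b.2
    rw [one_mul, h3] at h2
    exact h2

theorem gen_exp (L : SComplex n) (o : σ) (d D : ℕ) (R : Type v) [CommRing R]
    (g : σ → Fin n → R) (i : I1 L σ D ⊕ I2 σ d D) :
    gen L o d D R g i = ∑ a : Kap σ D, mat L o d D R g i a • monomial a.1 (1 : R) := by
  have hκ : ∀ a : σ →₀ ℕ, a ∈ (Finset.univ : Finset σ).finsuppAntidiag D ↔ a.degree = D := by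
    intro a
    rw [Finset.mem_finsuppAntidiag]
    constructor
    · rintro ⟨h, -⟩
      rw [← h, Finsupp.degree_eq_sum]
    · intro h
      exact ⟨by rw [← h, Finsupp.degree_eq_sum], Finset.subset_univ _⟩
  ext c
  simp only [coeff_sum, coeff_smul, coeff_monomial, smul_eq_mul, mul_ite, mul_one, mul_zero]
  by_cases hc : c.degree = D
  · rw [Finset.sum_eq_single (⟨c, (hκ c).mpr hc⟩ : Kap σ D)]
    · simp [mat]
    · intro b _ hb
      rw [if_neg]
      intro h
      exact hb (Subtype.ext h)
    · intro h
      exact absurd (Finset.mem_univ _) h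
  · rw [Finset.sum_eq_zero]
    · by_contra h
      have h0 := gen_hom L o d D R g i
      have h1 := h0 h
      rw [Finsupp.weight_apply] at h1
      apply hc
      rw [Finsupp.degree_eq_sum]
      rw [Finsupp.sum_fintype _ _ (by simp)] at h1
      simpa using h1
    · intro b _
      rw [if_neg]
      intro h
      exact hc (by rw [← h]; exact (hκ _).mp b.2)

end gen

/-- Transfer: if over `F_2[g_iv]` every linear functional killing the degree `D` part of
`J + (X_o^(2D-d))` vanishes in degree `D`, then the spanning property holds over every field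
outside the zero set of a nonzero integer polynomial. -/
theorem transfer {n d : ℕ} (L : SComplex n) {σ : Type} [Fintype σ] [DecidableEq σ] (o : σ) (D : ℕ)
    (hdual : ∀ lam : MvPolynomial σ (MvPolynomial (σ × Fin n) (ZMod 2)) →ₗ[
        MvPolynomial (σ × Fin n) (ZMod 2)] MvPolynomial (σ × Fin n) (ZMod 2),
      (∀ A : Finset (Fin n), A ∉ L.faces → ∀ b : σ →₀ ℕ, A.card + b.degree = D →
        lam ((∏ v ∈ A, lform (gmat σ n) v) * monomial b 1) = 0) →
      (∀ b : σ →₀ ℕ, (2 * D - d) + b.degree = D →
        lam (X o ^ (2 * D - d) * monomial b 1) = 0) →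
      ∀ a : σ →₀ ℕ, a.degree = D → lam (monomial a 1) = 0) :
    ∃ Δ : MvPolynomial (σ × Fin n) ℤ, Δ ≠ 0 ∧ ∀ (k : Type u) [Field k] (g : σ → Fin n → k),
      aeval (fun q : σ × Fin n => g q.1 q.2) Δ ≠ 0 → Spans L d D o k g := by
  classical
  -- finite index types
  let κ : Type := Kap σ D
  have hκ : ∀ a : σ →₀ ℕ, a ∈ (Finset.univ : Finset σ).finsuppAntidiag D ↔ a.degree = D := by
    intro a
    rw [Finset.mem_finsuppAntidiag]
    constructor
    · rintro ⟨h, -⟩
      rw [← h, Finsupp.degree_eq_sum]
    · intro h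
      exact ⟨by rw [← h, Finsupp.degree_eq_sum], Finset.subset_univ _⟩
  let B : Finset (σ →₀ ℕ) := Bs σ D
  have hB : ∀ b : σ →₀ ℕ, b.degree ≤ D → b ∈ B := by
    intro b hb
    change b ∈ (Finset.range (D + 1)).biUnion _
    rw [Finset.mem_biUnion]
    refine ⟨b.degree, Finset.mem_range.mpr (by omega), ?_⟩
    rw [Finset.mem_finsuppAntidiag]
    exact ⟨by rw [Finsupp.degree_eq_sum], Finset.subset_univ _⟩
  let ι1 : Type := I1 L σ D
  let ι2 : Type := I2 σ d D
  have : Fintype ι1 := Fintype.ofFinite _
  have : Fintype ι2 := Fintype.ofFinite _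
  -- the dual condition
  obtain ⟨r, hr⟩ := exists_minor (mat L o d D _ (gmat σ n)) (by
    intro x hx
    let lam := (basisMonomials σ (MvPolynomial (σ × Fin n) (ZMod 2))).constr
      (MvPolynomial (σ × Fin n) (ZMod 2))
      (fun a : σ →₀ ℕ => if h : a ∈ (Finset.univ : Finset σ).finsuppAntidiag D then
        x ⟨a, h⟩ else 0)
    have hlam : ∀ a : κ, lam (monomial a.1 1) = x a := by
      intro a
      have := (basisMonomials σ (MvPolynomial (σ × Fin n) (ZMod 2))).constr_basis
        (MvPolynomial (σ × Fin n) (ZMod 2))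
        (fun a : σ →₀ ℕ => if h : a ∈ (Finset.univ : Finset σ).finsuppAntidiag D then
          x ⟨a, h⟩ else 0) a.1
      rw [coe_basisMonomials] at this
      rw [this, dif_pos a.2]
    have hkill : ∀ i, lam (gen L o d D _ (gmat σ n) i) = 0 := by
      intro i
      rw [gen_exp, map_sum]
      have h1 := congrFun hx i
      simp only [Matrix.mulVec, dotProduct, Pi.zero_apply] at h1
      rw [← h1]
      refine Finset.sum_congr rfl fun a _ => ?_
      rw [map_smul, hlam, smul_eq_mul]
    have hfin := hdual lam
      (by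
        intro A hA b hb
        exact hkill (Sum.inl ⟨(A, ⟨b, hB b (by omega)⟩), hA, hb⟩))
      (by
        intro b hb
        exact hkill (Sum.inr ⟨⟨b, hB b (by omega)⟩, hb⟩))
    funext a
    rw [← hlam a, hfin a.1 ((hκ _).mp a.2)]
    rfl)
  let Δ : MvPolynomial (σ × Fin n) ℤ :=
    ((mat L o d D (MvPolynomial (σ × Fin n) ℤ) (fun i v => X (i, v))).submatrix r id).det
  refine ⟨Δ, ?_, ?_⟩
  · intro h0
    apply hr
    have h1 : gmat σ n = fun i v => MvPolynomial.map (Int.castRingHom (ZMod 2)) (X (i, v)) := by
      funext i v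
      simp [gmat]
    rw [h1, mat_map L o d D (MvPolynomial (σ × Fin n) ℤ) _ (MvPolynomial.map (Int.castRingHom (ZMod 2)))
      (fun i v => X (i, v)), Matrix.submatrix_map, ← RingHom.mapMatrix_apply, ← RingHom.map_det]
    change (MvPolynomial.map (Int.castRingHom (ZMod 2))) Δ = 0
    rw [h0, map_zero]
  · intro k _ g hg
    have hdet : ((mat L o d D k g).submatrix r id).det ≠ 0 := by
      have h1 : g = fun i v => (aeval (fun q : σ × Fin n => g q.1 q.2) :
          MvPolynomial (σ × Fin n) ℤ →ₐ[ℤ] k).toRingHom (X (i, v)) := by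
        funext i v
        simp
      have h2 := mat_map L o d D (MvPolynomial (σ × Fin n) ℤ) k
        (aeval (fun q : σ × Fin n => g q.1 q.2) : MvPolynomial (σ × Fin n) ℤ →ₐ[ℤ] k).toRingHom
        (fun i v => X (i, v))
      rw [← h1] at h2
      rw [h2, Matrix.submatrix_map, ← RingHom.mapMatrix_apply, ← RingHom.map_det]
      exact hg
    intro a ha
    set P := (mat L o d D k g).submatrix r id with hP
    have hu : IsUnit P.det := isUnit_iff_ne_zero.mpr hdet
    have hmem : ∀ j : κ, gen L o d D k g (r j) ∈ Submodule.span k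
      ({p : MvPolynomial σ k | ∃ A : Finset (Fin n), A ∉ L.faces ∧ ∃ b : σ →₀ ℕ,
          A.card + b.degree = D ∧ p = (∏ v ∈ A, lform g v) * MvPolynomial.monomial b 1} ∪
       {p : MvPolynomial σ k | ∃ b : σ →₀ ℕ, (2 * D - d) + b.degree = D ∧
          p = MvPolynomial.X o ^ (2 * D - d) * MvPolynomial.monomial b 1}) := by
      intro j
      apply Submodule.subset_span
      rcases hj : r j with q | b
      · left
        exact ⟨q.1.1, q.2.1, q.1.2.1, q.2.2, rfl⟩
      · right
        exact ⟨b.1.1, b.2, rfl⟩
    have hcomb : (monomial a (1 : k)) = ∑ j : κ, P⁻¹ ⟨a, (hκ a).mpr ha⟩ j • gen L o d D k g (r j) := by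
      have h1 : ∀ j : κ, P⁻¹ ⟨a, (hκ a).mpr ha⟩ j • gen L o d D k g (r j) =
          ∑ c : κ, (P⁻¹ ⟨a, (hκ a).mpr ha⟩ j * P j c) • monomial c.1 (1 : k) := by
        intro j
        rw [gen_exp, Finset.smul_sum]
        refine Finset.sum_congr rfl fun c _ => ?_
        rw [smul_smul]
        rfl
      simp_rw [h1]
      rw [Finset.sum_comm]
      have h2 : ∀ c : κ, ∑ j : κ, (P⁻¹ ⟨a, (hκ a).mpr ha⟩ j * P j c) • monomial c.1 (1 : k) =
          (if (⟨a, (hκ a).mpr ha⟩ : κ) = c then (1 : k) else 0) • monomial c.1 (1 : k) := by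
        intro c
        rw [← Finset.sum_smul]
        congr 1
        have := congrFun (congrFun (Matrix.nonsing_inv_mul P hu) ⟨a, (hκ a).mpr ha⟩) c
        rw [Matrix.mul_apply, Matrix.one_apply] at this
        exact this
      rw [Finset.sum_congr rfl fun c _ => h2 c,
        Finset.sum_eq_single (⟨a, (hκ a).mpr ha⟩ : κ)]
      · simp
      · intro c _ hc
        rw [if_neg (fun h => hc h.symm), zero_smul]
      · intro h
        exact absurd (Finset.mem_univ _) h
    rw [hcomb]
    exact Submodule.sum_mem _ fun j _ => Submodule.smul_mem _ _ (hmem j)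

end Pool.Agent.KS.Transfer
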